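import Pool.Agent.Q250.GL.Join

set_option autoImplicit false
set_option linter.unusedSectionVars false
set_option linter.unusedVariables false

/-!
# Joins of flag homology spheres with a pentagon
-/

namespace Pool.Agent.Q250.GL

open Pool.Agent.W497.FS Finset Polynomial

variable {k : Type} [Field k] {α : Type} [LinearOrder α] [Fintype α] {H : SimpleGraph α}

/-- `p 0, ..., p 4` is an induced pentagon joined to `X` -/
structure Pent (H : SimpleGraph α) (X : Finset α) (p : Fin 5 → α) : Prop where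
  inj : Function.Injective p
  adj : ∀ i j, H.Adj (p i) (p j) ↔ (j = i + 1 ∨ i = j + 1)
  notMem : ∀ i, p i ∉ X
  full : ∀ i, ∀ x ∈ X, H.Adj (p i) x

/-- the part of the join over `I` -/
def U (X : Finset α) (p : Fin 5 → α) (I : Finset (Fin 5)) : Finset α := X ∪ I.image p

variable {X : Finset α} {p : Fin 5 → α}

theorem mem_U {I : Finset (Fin 5)} {z : α} : z ∈ U X p I ↔ z ∈ X ∨ ∃ i ∈ I, p i = z := by
  rw [U, Finset.mem_union, Finset.mem_image]

theorem Pent.mem_iff (h : Pent H X p) {I : Finset (Fin 5)} {i : Fin 5} : p i ∈ U X p I ↔ i ∈ I := by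
  rw [mem_U]
  constructor
  · rintro (h1 | ⟨j, hj, hji⟩)
    · exact absurd h1 (h.notMem i)
    · rwa [← h.inj hji]
  · exact fun hi => Or.inr ⟨i, hi, rfl⟩

theorem Pent.inter (h : Pent H X p) (I J : Finset (Fin 5)) : U X p I ∩ U X p J = U X p (I ∩ J) := by
  ext z
  rw [Finset.mem_inter]
  by_cases hz : z ∈ X
  · simp [mem_U, hz]
  · constructor
    · rintro ⟨h1, h2⟩
      obtain ⟨i, hi, rfl⟩ := (mem_U.1 h1).resolve_left hz
      exact h.mem_iff.2 (Finset.mem_inter.2 ⟨hi, h.mem_iff.1 h2⟩)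
    · intro h1
      obtain ⟨i, hi, rfl⟩ := (mem_U.1 h1).resolve_left hz
      exact ⟨h.mem_iff.2 (Finset.mem_inter.1 hi).1, h.mem_iff.2 (Finset.mem_inter.1 hi).2⟩

theorem Pent.union (I J : Finset (Fin 5)) : U X p I ∪ U X p J = U X p (I ∪ J) := by
  ext z
  rw [Finset.mem_union, mem_U, mem_U, mem_U]
  constructor
  · rintro ((h1 | ⟨i, hi, h2⟩) | (h1 | ⟨i, hi, h2⟩))
    · exact Or.inl h1
    · exact Or.inr ⟨i, Finset.mem_union_left _ hi, h2⟩
    · exact Or.inl h1
    · exact Or.inr ⟨i, Finset.mem_union_right _ hi, h2⟩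
  · rintro (h1 | ⟨i, hi, h2⟩)
    · exact Or.inl (Or.inl h1)
    · rcases Finset.mem_union.1 hi with h3 | h3
      · exact Or.inl (Or.inr ⟨i, h3, h2⟩)
      · exact Or.inr (Or.inr ⟨i, h3, h2⟩)

theorem Pent.sep (h : Pent H X p) {I J : Finset (Fin 5)}
    (hIJ : ∀ i ∈ I, i ∉ J → ∀ j ∈ J, j ∉ I → ¬ (j = i + 1 ∨ i = j + 1)) : Sep H (U X p I) (U X p J) := by
  intro x hx hx2 z hz hz2
  rcases mem_U.1 hx with h1 | ⟨i, hi, rfl⟩
  · exact absurd (mem_U.2 (Or.inl h1)) hx2
  · rcases mem_U.1 hz with h2 | ⟨j, hj, rfl⟩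
    · exact absurd (mem_U.2 (Or.inl h2)) hz2
    · rw [h.adj]
      exact hIJ i hi (fun h' => hx2 (h.mem_iff.2 h')) j hj (fun h' => hz2 (h.mem_iff.2 h'))

theorem Pent.cone (h : Pent H X p) {I : Finset (Fin 5)} {b : Fin 5} (hb : b ∈ I)
    (hI : ∀ i ∈ I, i ≠ b → (i = b + 1 ∨ b = i + 1)) (j : ℕ) : Ex k H (U X p I) j := by
  refine Ex_cone (h.mem_iff.2 hb) (fun x hx hxb => ?_) j
  rcases mem_U.1 hx with h1 | ⟨i, hi, rfl⟩
  · exact h.full b x h1
  · rw [h.adj]
    exact hI i hi (fun h' => hxb (h' ▸ rfl))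

theorem Pent.susp (h : Pent H X p) (i j : Fin 5) (hij : i ≠ j) (hn : ¬ (j = i + 1 ∨ i = j + 1)) :
    Susp H X (p i) (p j) :=
  ⟨fun h' => hij (h.inj h'), fun h' => hn ((h.adj i j).1 h'), h.notMem i, h.notMem j, h.full i, h.full j⟩

theorem U_pair (i j : Fin 5) : U X p {i, j} = sus X (p i) (p j) := by
  ext z
  rw [mem_U, mem_sus]
  constructor
  · rintro (h | ⟨l, hl, rfl⟩)
    · exact Or.inr (Or.inr h)
    · rcases Finset.mem_insert.1 hl with h1 | h1
      · exact Or.inl (by rw [h1])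
      · exact Or.inr (Or.inl (by rw [Finset.mem_singleton.1 h1]))
  · rintro (rfl | rfl | h)
    · exact Or.inr ⟨i, Finset.mem_insert_self _ _, rfl⟩
    · exact Or.inr ⟨j, Finset.mem_insert_of_mem (Finset.mem_singleton_self _), rfl⟩
    · exact Or.inl h

/-- the neighbours of `i` in the pentagon -/
def nb (i : Fin 5) : Finset (Fin 5) := {i + 4, i + 1}

theorem mem_nb : ∀ i j : Fin 5, j ∈ nb i ↔ (j = i + 1 ∨ i = j + 1) := by decide

theorem Pent.lk_p (h : Pent H X p) {I : Finset (Fin 5)} {i : Fin 5} (hi : i ∈ I) :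
    lk H (U X p I) (p i) = U X p (I ∩ nb i) := by
  ext z
  rw [mem_lk]
  constructor
  · rintro ⟨h1, h2⟩
    rcases mem_U.1 h1 with h3 | ⟨j, hj, rfl⟩
    · exact mem_U.2 (Or.inl h3)
    · rw [h.adj, ← mem_nb] at h2
      exact h.mem_iff.2 (Finset.mem_inter.2 ⟨hj, h2⟩)
  · intro h1
    rcases mem_U.1 h1 with h3 | ⟨j, hj, rfl⟩
    · exact ⟨mem_U.2 (Or.inl h3), h.full i z h3⟩
    · obtain ⟨h4, h5⟩ := Finset.mem_inter.1 hj
      exact ⟨h.mem_iff.2 h4, (h.adj i j).2 ((mem_nb i j).1 h5)⟩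

theorem Pent.lk_x (h : Pent H X p) {I : Finset (Fin 5)} {x : α} (hx : x ∈ X) :
    lk H (U X p I) x = U (lk H X x) p I := by
  ext z
  rw [mem_lk, mem_U, mem_U, mem_lk]
  constructor
  · rintro ⟨h1 | h1, h2⟩
    · exact Or.inl ⟨h1, h2⟩
    · exact Or.inr h1
  · rintro (⟨h1, h2⟩ | ⟨i, hi, rfl⟩)
    · exact ⟨Or.inl h1, h2⟩
    · exact ⟨Or.inr ⟨i, hi, rfl⟩, (h.full i x hx).symm⟩

theorem Pent.sub (h : Pent H X p) {Y : Finset α} (hY : Y ⊆ X) : Pent H Y p :=
  ⟨h.inj, h.adj, fun i h' => h.notMem i (hY h'), fun i x hx => h.full i x (hY hx)⟩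

theorem Pent.lk_univ (h : Pent H X p) (i : Fin 5) : lk H (U X p univ) (p i) = sus X (p (i + 4)) (p (i + 1)) := by
  rw [h.lk_p (Finset.mem_univ i), Finset.univ_inter, nb, U_pair]

theorem ne_nb : ∀ i : Fin 5, i + 4 ≠ i + 1 ∧ ¬ (i + 1 = i + 4 + 1 ∨ i + 4 = i + 1 + 1) := by decide

theorem Pent.susp' (h : Pent H X p) (i : Fin 5) : Susp H X (p (i + 4)) (p (i + 1)) :=
  h.susp _ _ (ne_nb i).1 (ne_nb i).2

theorem five : ∀ i j : Fin 5, j = i ∨ j = i + 1 ∨ j = i + 1 + 1 ∨ j = i + 1 + 1 + 1 ∨ j = i + 1 + 1 + 1 + 1 := by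
  decide

theorem Pent.np {d : ℕ} (h : Pent H X p) (hN : NP H d X) : NP H (d + 2) (U X p univ) := by
  induction d generalizing X with
  | zero =>
    have h0 : X = ∅ := hN
    refine ⟨⟨p 0, h.mem_iff.2 (Finset.mem_univ _)⟩, fun A hA hne hneq => ?_, fun u hu => ?_⟩
    · by_contra hcon
      push Not at hcon
      have hcl : ∀ x ∈ A, ∀ q ∈ U X p univ, H.Adj x q → q ∈ A := by
        intro x hx q hq hpq
        by_contra hqA
        exact hcon x hx q hq hqA hpq
      have step : ∀ i, p i ∈ A → p (i + 1) ∈ A := fun i hi =>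
        hcl _ hi _ (h.mem_iff.2 (Finset.mem_univ _)) ((h.adj _ _).2 (Or.inl rfl))
      have all : ∀ i, p i ∈ A → ∀ j, p j ∈ A := by
        intro i hi j
        rcases five i j with rfl | rfl | rfl | rfl | rfl
        · exact hi
        · exact step _ hi
        · exact step _ (step _ hi)
        · exact step _ (step _ (step _ hi))
        · exact step _ (step _ (step _ (step _ hi)))
      obtain ⟨q, hq⟩ := hne
      have hall : ∀ j, p j ∈ A := by
        rcases mem_U.1 (hA hq) with h1 | ⟨i, -, rfl⟩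
        · exact all 0 (hcl q hq _ (h.mem_iff.2 (Finset.mem_univ _)) (h.full 0 q h1).symm)
        · exact all i hq
      refine hneq (Finset.Subset.antisymm hA (fun z hz => ?_))
      rcases mem_U.1 hz with h1 | ⟨i, -, rfl⟩
      · exact hcl _ (hall 0) z hz (h.full 0 z h1)
      · exact hall i
    · rcases mem_U.1 hu with h1 | ⟨i, -, rfl⟩
      · rw [h0] at h1
        exact absurd h1 (Finset.notMem_empty _)
      · rw [h.lk_univ]
        exact (h.susp' i).np hN
  | succ d ih =>
    refine ⟨⟨p 0, h.mem_iff.2 (Finset.mem_univ _)⟩, fun A hA hne hneq => ?_, fun u hu => ?_⟩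
    · by_contra hcon
      push Not at hcon
      have hcl : ∀ x ∈ A, ∀ q ∈ U X p univ, H.Adj x q → q ∈ A := by
        intro x hx q hq hpq
        by_contra hqA
        exact hcon x hx q hq hqA hpq
      have step : ∀ i, p i ∈ A → p (i + 1) ∈ A := fun i hi =>
        hcl _ hi _ (h.mem_iff.2 (Finset.mem_univ _)) ((h.adj _ _).2 (Or.inl rfl))
      have all : ∀ i, p i ∈ A → ∀ j, p j ∈ A := by
        intro i hi j
        rcases five i j with rfl | rfl | rfl | rfl | rfl
        · exact hi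
        · exact step _ hi
        · exact step _ (step _ hi)
        · exact step _ (step _ (step _ hi))
        · exact step _ (step _ (step _ (step _ hi)))
      obtain ⟨q, hq⟩ := hne
      have hall : ∀ j, p j ∈ A := by
        rcases mem_U.1 (hA hq) with h1 | ⟨i, -, rfl⟩
        · exact all 0 (hcl q hq _ (h.mem_iff.2 (Finset.mem_univ _)) (h.full 0 q h1).symm)
        · exact all i hq
      refine hneq (Finset.Subset.antisymm hA (fun z hz => ?_))
      rcases mem_U.1 hz with h1 | ⟨i, -, rfl⟩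
      · exact hcl _ (hall 0) z hz (h.full 0 z h1)
      · exact hall i
    · rcases mem_U.1 hu with h1 | ⟨i, -, rfl⟩
      · rw [h.lk_x h1]
        exact ih (h.sub lk_subset) (hN.lk h1)
      · rw [h.lk_univ]
        exact (h.susp' i).np hN

theorem Pent.ex_two (h : Pent H X p) (j : ℕ) : Ex k H (U X p {2, 3, 4, 0}) j := by
  have e : ({2, 3, 4, 0} : Finset (Fin 5)) = {2, 3, 4} ∪ {4, 0} := by decide
  have hsep : Sep H (U X p {2, 3, 4}) (U X p {4, 0}) := h.sep (by decide)
  rw [e, ← Pent.union]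
  rcases j with _ | j
  · exact Ex_union_zero hsep (h.cone (b := 3) (by decide) (by decide) 0)
  · refine Ex_union hsep (h.cone (b := 3) (by decide) (by decide) _) (h.cone (b := 4) (by decide) (by decide) _) ?_
    rw [h.inter]
    exact h.cone (b := 4) (by decide) (by decide) j

theorem Pent.ex_one (h : Pent H X p) (j : ℕ) : Ex k H (U X p {0, 1, 2}) j :=
  h.cone (b := 1) (by decide) (by decide) j

theorem Pent.hs {d : ℕ} (h : Pent H X p) (hN : NP H d X) (hS : HS k H d X) :
    HS k H (d + 2) (U X p univ) := by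
  induction d generalizing X with
  | zero =>
    have h0 : X = ∅ := hN
    have e : (univ : Finset (Fin 5)) = {0, 1, 2} ∪ {2, 3, 4, 0} := by decide
    have ei : ({0, 1, 2} ∩ {2, 3, 4, 0} : Finset (Fin 5)) = {0, 2} := by decide
    have hsep : Sep H (U X p {0, 1, 2}) (U X p {2, 3, 4, 0}) := h.sep (by decide)
    have hsus := h.susp 0 2 (by decide) (by decide)
    have hs := hsus.hs hN hS
    refine HS_succ ?_ ?_ ?_
    · intro j hj
      rw [e, ← Pent.union]
      rcases j with _ | j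
      · exact Ex_union_zero hsep (h.ex_one 0)
      · refine Ex_union hsep (h.ex_one _) (h.ex_two _) ?_
        rw [h.inter, ei, U_pair]
        have := hs.ex ∅ empty_mem_cl j (by rw [Finset.card_empty]; omega)
        rwa [lkF_empty''] at this
    · rw [e, ← Pent.union]
      refine top_union hsep (h.ex_one _) (h.ex_two _) ?_ ?_
      · rw [h.inter, ei, U_pair]
        have := hs.top ∅ empty_mem_cl
        rwa [lkF_empty'', Finset.card_empty] at this
      · rw [h.inter, ei, U_pair]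
        exact fun σ hσ => (hsus.np hN).card_le hσ
    · intro v hv
      rcases mem_U.1 hv with h1 | ⟨i, -, rfl⟩
      · rw [h0] at h1
        exact absurd h1 (Finset.notMem_empty _)
      · rw [h.lk_univ]
        exact (h.susp' i).hs hN hS
  | succ d ih =>
    have e : (univ : Finset (Fin 5)) = {0, 1, 2} ∪ {2, 3, 4, 0} := by decide
    have ei : ({0, 1, 2} ∩ {2, 3, 4, 0} : Finset (Fin 5)) = {0, 2} := by decide
    have hsep : Sep H (U X p {0, 1, 2}) (U X p {2, 3, 4, 0}) := h.sep (by decide)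
    have hsus := h.susp 0 2 (by decide) (by decide)
    have hs := hsus.hs hN hS
    refine HS_succ ?_ ?_ ?_
    · intro j hj
      rw [e, ← Pent.union]
      rcases j with _ | j
      · exact Ex_union_zero hsep (h.ex_one 0)
      · refine Ex_union hsep (h.ex_one _) (h.ex_two _) ?_
        rw [h.inter, ei, U_pair]
        have := hs.ex ∅ empty_mem_cl j (by rw [Finset.card_empty]; omega)
        rwa [lkF_empty''] at this
    · rw [e, ← Pent.union]
      refine top_union hsep (h.ex_one _) (h.ex_two _) ?_ ?_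
      · rw [h.inter, ei, U_pair]
        have := hs.top ∅ empty_mem_cl
        rwa [lkF_empty'', Finset.card_empty] at this
      · rw [h.inter, ei, U_pair]
        exact fun σ hσ => (hsus.np hN).card_le hσ
    · intro v hv
      rcases mem_U.1 hv with h1 | ⟨i, -, rfl⟩
      · rw [h.lk_x h1]
        exact ih (h.sub lk_subset) (hN.lk h1) (hS.lk h1)
      · rw [h.lk_univ]
        exact (h.susp' i).hs hN hS

/-! ### The face polynomial -/

theorem FP_erase {W : Finset α} {c : α} (hc : c ∈ W) : FP H W = FP H (W.erase c) + Polynomial.X * FP H (lk H W c) :=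
  fe_erase hc (Polynomial.X : ℤ[X])

theorem Pent.FP_step (h : Pent H X p) {I : Finset (Fin 5)} {i : Fin 5} (hi : i ∈ I) :
    FP H (U X p I) = FP H (U X p (I.erase i)) + Polynomial.X * FP H (U X p (I ∩ nb i)) := by
  rw [FP_erase (h.mem_iff.2 hi), h.lk_p hi]
  congr 2
  ext z
  rw [Finset.mem_erase]
  constructor
  · rintro ⟨h1, h2⟩
    rcases mem_U.1 h2 with h3 | ⟨j, hj, rfl⟩
    · exact mem_U.2 (Or.inl h3)
    · exact h.mem_iff.2 (Finset.mem_erase.2 ⟨fun h' => h1 (h' ▸ rfl), hj⟩)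
  · intro h2
    rcases mem_U.1 h2 with h3 | ⟨j, hj, rfl⟩
    · exact ⟨fun h' => h.notMem i (h' ▸ h3), mem_U.2 (Or.inl h3)⟩
    · obtain ⟨h4, h5⟩ := Finset.mem_erase.1 hj
      exact ⟨fun h' => h4 (h.inj h'), h.mem_iff.2 h5⟩

theorem U_empty : U X p ∅ = X := by
  rw [U, Finset.image_empty, Finset.union_empty]

theorem Pent.FP_one (h : Pent H X p) (i : Fin 5) : FP H (U X p {i}) = (1 + Polynomial.X) * FP H X := by
  have e1 : ({i} : Finset (Fin 5)).erase i = ∅ := Finset.erase_singleton i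
  have e2 : ∀ i : Fin 5, ({i} : Finset (Fin 5)) ∩ nb i = ∅ := by decide
  rw [h.FP_step (Finset.mem_singleton_self i), e1, e2 i, U_empty]
  ring

theorem Pent.FP_univ (h : Pent H X p) :
    FP H (U X p univ) = (y ^ 2 + w) * FP H X := by
  have s1 := h.FP_step (I := univ) (i := 4) (by decide)
  have s2 := h.FP_step (I := {0, 1, 2, 3}) (i := 3) (by decide)
  have s3 := h.FP_step (I := {0, 1, 2}) (i := 2) (by decide)
  have s4 := h.FP_step (I := {0, 1}) (i := 1) (by decide)
  have s5 := h.FP_step (I := {3, 0}) (i := 3) (by decide)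
  rw [show (univ : Finset (Fin 5)).erase 4 = {0, 1, 2, 3} by decide,
    show (univ : Finset (Fin 5)) ∩ nb 4 = {3, 0} by decide] at s1
  rw [show ({0, 1, 2, 3} : Finset (Fin 5)).erase 3 = {0, 1, 2} by decide,
    show ({0, 1, 2, 3} : Finset (Fin 5)) ∩ nb 3 = {2} by decide] at s2
  rw [show ({0, 1, 2} : Finset (Fin 5)).erase 2 = {0, 1} by decide,
    show ({0, 1, 2} : Finset (Fin 5)) ∩ nb 2 = {1} by decide] at s3
  rw [show ({0, 1} : Finset (Fin 5)).erase 1 = {0} by decide,
    show ({0, 1} : Finset (Fin 5)) ∩ nb 1 = {0} by decide] at s4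
  rw [show ({3, 0} : Finset (Fin 5)).erase 3 = {0} by decide,
    show ({3, 0} : Finset (Fin 5)) ∩ nb 3 = ∅ by decide, U_empty] at s5
  rw [s1, s2, s3, s4, s5, h.FP_one, h.FP_one, h.FP_one, y, w]
  ring

theorem Susp.FP {a c : α} (h : Susp H X a c) : FP H (sus X a c) = y * FP H X := by
  have h1 : (sus X a c).erase a = insert c X := by
    rw [sus, Finset.erase_insert]
    rw [Finset.mem_insert, not_or]
    exact ⟨h.ne, h.na⟩
  have h2 : (insert c X).erase c = X := Finset.erase_insert h.nc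
  have h3 : lk H (insert c X) c = X := by
    ext z
    rw [mem_lk, Finset.mem_insert]
    constructor
    · rintro ⟨rfl | h1, h2⟩
      · exact absurd rfl h2.ne
      · exact h1
    · exact fun hz => ⟨Or.inr hz, h.adj_c z hz⟩
  rw [FP_erase (mem_sus.2 (Or.inl rfl)), h1, h.lk_a, FP_erase (Finset.mem_insert_self c X), h2, h3, y]
  ring

end Pool.Agent.Q250.GL
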