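import Pool.Agent.Q250.GL.Gam
import Pool.Agent.Q250.GL.Pent

set_option autoImplicit false
set_option linter.unusedSectionVars false
set_option linter.unusedVariables false

/-!
# Amplification: doubling and joins with pentagons
-/

namespace Pool.Agent.Q250.GL

open Pool.Agent.W497.FS Finset Polynomial

variable {k : Type} [Field k]

/-- there is a flag homology sphere of rank `d` over `k` with face polynomial `P` -/
def Rz1 (k : Type) [Field k] (d : ℕ) (P : ℤ[X]) : Prop :=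
  ∃ (n : ℕ) (H : SimpleGraph (Fin n)) (W : Finset (Fin n)), NP H d W ∧ HS k H d W ∧ FP H W = P

theorem Rz.one {d : ℕ} {P Q Q' : ℤ[X]} (h : Rz k d P Q Q') : Rz1 k d P := by
  obtain ⟨n, H, W, h1, h2, h3, -⟩ := h
  exact ⟨n, H, W, h1, h2, h3⟩

section General

variable {α : Type} [LinearOrder α] [Fintype α] {H : SimpleGraph α}

theorem rz1_of {d : ℕ} {W : Finset α} (hN : NP H d W) (hS : HS k H d W) : Rz1 k d (FP H W) := by
  classical
  let e := (Fintype.orderIsoFinOfCardEq α (rfl : Fintype.card α = Fintype.card α)).symm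
  let H' : SimpleGraph (Fin (Fintype.card α)) := H.comap e.symm
  have hmono : StrictMono e := e.strictMono
  have hadj : ∀ a b : α, H.Adj a b ↔ H'.Adj (e a) (e b) := by
    intro a b
    change H.Adj a b ↔ H.Adj (e.symm (e a)) (e.symm (e b))
    rw [e.symm_apply_apply, e.symm_apply_apply]
  exact ⟨Fintype.card α, H', W.image e, NP_image hmono.injective.injOn (fun a _ b _ => hadj a b) hN,
    HS_image (hmono.strictMonoOn _) (fun a _ b _ => hadj a b) hS,
    Pool.Agent.TH709.GG.FP_image hmono.injective.injOn (fun a _ b _ => hadj a b)⟩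

/-- the join with a pentagon -/
def jG (H : SimpleGraph α) : SimpleGraph (α ⊕ₗ Fin 5) where
  Adj x z := match ofLex x, ofLex z with
    | Sum.inl a, Sum.inl b => H.Adj a b
    | Sum.inl _, Sum.inr _ => True
    | Sum.inr _, Sum.inl _ => True
    | Sum.inr i, Sum.inr j => j = i + 1 ∨ i = j + 1
  symm := ⟨fun x z h => by
    rcases hx : ofLex x with a | i <;> rcases hz : ofLex z with b | j <;> simp only [hx, hz] at h ⊢
    · exact h.symm
    · tauto⟩
  loopless := ⟨fun x h => by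
    rcases hx : ofLex x with a | i <;> simp only [hx] at h
    · exact h.ne rfl
    · exact (by decide : ∀ i : Fin 5, ¬ (i = i + 1 ∨ i = i + 1)) i h⟩

theorem jG_ll {a b : α} : (jG H).Adj (Sum.inlₗ a) (Sum.inlₗ b) ↔ H.Adj a b := Iff.rfl
theorem jG_lr {a : α} {i : Fin 5} : (jG H).Adj (Sum.inlₗ a) (Sum.inrₗ i) ↔ True := Iff.rfl
theorem jG_rl {a : α} {i : Fin 5} : (jG H).Adj (Sum.inrₗ i) (Sum.inlₗ a) ↔ True := Iff.rfl
theorem jG_rr {i j : Fin 5} : (jG H).Adj (Sum.inrₗ i) (Sum.inrₗ j) ↔ (j = i + 1 ∨ i = j + 1) := Iff.rfl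

/-- the first part of the join -/
def jX (W : Finset α) : Finset (α ⊕ₗ Fin 5) := W.image Sum.inlₗ

theorem inl_mono : StrictMono (Sum.inlₗ : α → α ⊕ₗ Fin 5) := Sum.Lex.inl_strictMono

theorem jG_pent (H : SimpleGraph α) (W : Finset α) : Pent (jG H) (jX W) Sum.inrₗ where
  inj := fun i j h => by simpa using h
  adj := fun i j => jG_rr
  notMem := fun i h => by
    obtain ⟨a, -, ha⟩ := Finset.mem_image.1 h
    exact Sum.inl_ne_inr (toLex_inj.1 ha)
  full := fun i x hx => by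
    obtain ⟨a, -, rfl⟩ := Finset.mem_image.1 hx
    exact jG_rl.2 trivial

theorem jX_np {d : ℕ} {W : Finset α} (h : NP H d W) : NP (jG H) d (jX W) :=
  NP_image inl_mono.injective.injOn (fun a _ b _ => jG_ll.symm) h

theorem jX_hs {d : ℕ} {W : Finset α} (h : HS k H d W) : HS k (jG H) d (jX W) :=
  HS_image (inl_mono.strictMonoOn _) (fun a _ b _ => jG_ll.symm) h

theorem jX_FP {W : Finset α} : FP (jG H) (jX W) = FP H W :=
  Pool.Agent.TH709.GG.FP_image inl_mono.injective.injOn (fun a _ b _ => jG_ll.symm)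

theorem jX_lk {W : Finset α} {v : α} (hv : v ∈ W) : lk (jG H) (jX W) (Sum.inlₗ v) = jX (lk H W v) :=
  lk_image (f := (Sum.inlₗ : α → α ⊕ₗ Fin 5)) (fun a _ b _ => jG_ll.symm) hv

end General

/-- suspension -/
theorem rz1_susp {d : ℕ} {P : ℤ[X]} (h : Rz1 k d P) : Rz1 k (d + 1) (y * P) := by
  obtain ⟨n, H, W, hN, hS, rfl⟩ := h
  have hs := (jG_pent H W).susp 0 2 (by decide) (by decide)
  have := rz1_of (hs.np (jX_np hN)) (hs.hs (jX_np hN) (jX_hs hS))
  rwa [hs.FP, jX_FP] at this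

/-- suspension, with two nonadjacent vertices -/
theorem rz_susp {d : ℕ} {P Q Q' : ℤ[X]} (h : Rz k d P Q Q') : Rz k (d + 1) (y * P) (y * Q) (y * Q') := by
  obtain ⟨n, H, W, hN, hS, rfl, v, hv, u, hu, hvu, hna, rfl, rfl⟩ := h
  have hs := (jG_pent H W).susp 0 2 (by decide) (by decide)
  have hv' : Sum.inlₗ v ∈ jX W := Finset.mem_image_of_mem _ hv
  have hu' : Sum.inlₗ u ∈ jX W := Finset.mem_image_of_mem _ hu
  have := rz_of (hs.np (jX_np hN)) (hs.hs (jX_np hN) (jX_hs hS)) (mem_sus.2 (Or.inr (Or.inr hv')))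
    (mem_sus.2 (Or.inr (Or.inr hu'))) (fun h => hvu (inl_mono.injective h)) (fun h => hna (jG_ll.1 h))
  rwa [hs.FP, jX_FP, hs.lk_x hv', hs.lk_x hu', (hs.sub lk_subset).FP, (hs.sub lk_subset).FP, jX_lk hv, jX_lk hu,
    jX_FP, jX_FP] at this

/-- join with a pentagon -/
theorem rz_pent {d : ℕ} {P : ℤ[X]} (h : Rz1 k d P) : Rz k (d + 2) ((y ^ 2 + w) * P) (y * P) (y * P) := by
  obtain ⟨n, H, W, hN, hS, rfl⟩ := h
  have hp := jG_pent H W
  have := rz_of (hp.np (jX_np hN)) (hp.hs (jX_np hN) (jX_hs hS)) (hp.mem_iff.2 (Finset.mem_univ 0))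
    (hp.mem_iff.2 (Finset.mem_univ 2)) (fun h => absurd (hp.inj h) (by decide))
    (fun h => absurd ((hp.adj 0 2).1 h) (by decide))
  rwa [hp.FP_univ, hp.lk_univ, hp.lk_univ, (hp.susp' 0).FP, (hp.susp' 2).FP, jX_FP] at this

/-- the joins with polygons with `4 + 2 ^ (m + 1)` vertices -/
theorem rz1_poly {d : ℕ} {P : ℤ[X]} (h : Rz1 k d P) (m : ℕ) : Rz1 k (d + 2) (P * (y ^ 2 + C (2 ^ (m + 1)) * w)) := by
  have := (rz_iter (rz_pent h) m).one
  rwa [show 2 ^ m * (2 * ((y ^ 2 + w) * P) - y * (y * P) - y * (y * P)) + y * (y * P) =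
    P * (y ^ 2 + C (2 ^ (m + 1)) * w) by rw [C_pow, C_ofNat]; ring] at this

theorem rz1_polys {d : ℕ} {P : ℤ[X]} (h : Rz1 k d P) (m j : ℕ) :
    Rz1 k (d + 2 * j) (P * (y ^ 2 + C (2 ^ (m + 1)) * w) ^ j) := by
  induction j with
  | zero => simpa using h
  | succ j ih =>
    have := rz1_poly ih m
    rwa [mul_assoc, ← pow_succ] at this

end Pool.Agent.Q250.GL
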