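import Pool.Agent.Q250.GL.Glue
import Pool.Agent.W216.FS.HR
import Pool.Agent.W497.FS.FarThm

set_option autoImplicit false
set_option linter.unusedSectionVars false

/-!
# From chains to the ranks of the boundary matrices

The clique complex of a graph on `Fin n` with the homology conditions `HS` and `NP` is a flag homology sphere in the
sense of the frozen statement `S07409`.
-/

namespace Pool.Agent.Q250.GL

open Pool.Agent.W497.FS Finset Pool.Agent.W216.FS.HR

variable {k : Type} [Field k] {n : ℕ}

theorem ex0_on {H : SimpleGraph (Fin n)} (X : Finset (Fin n)) (j : ℕ)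
    (x : {B : Finset (Fin n) // B ∈ (cl H X).filter (fun B => B.card = j)} → k) :
    On H X j (ex0 (cl H X) j x) := by
  intro A hA
  by_contra hcon
  apply hA
  apply ex0_of_notMem
  rw [Finset.mem_filter]
  exact hcon

theorem ex0_restr {H : SimpleGraph (Fin n)} (X : Finset (Fin n)) (j : ℕ) (c : Finset (Fin n) → k)
    (hc : On H X j c) : ex0 (cl H X) j (fun B => c B.1) = c := by
  funext A
  by_cases hA : A ∈ (cl H X).filter (fun B => B.card = j)
  · rw [ex0_of_mem _ hA]
  · rw [ex0_of_notMem _ hA]
    by_contra hne
    apply hA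
    rw [Finset.mem_filter]
    exact hc A (Ne.symm hne)

theorem ex0_zero (L : Finset (Finset (Fin n))) (j : ℕ) : ex0 (k := k) L j 0 = 0 := by
  funext A
  by_cases hA : A ∈ L.filter (fun B => B.card = j)
  · rw [ex0_of_mem _ hA]
    rfl
  · rw [ex0_of_notMem _ hA]
    rfl

theorem cl_dn {H : SimpleGraph (Fin n)} (X : Finset (Fin n)) :
    ∀ B ∈ cl H X, ∀ A, A ⊆ B → A ∈ cl H X := fun _ hB _ hAB => cl_down hB hAB

/-- the kernel of the boundary matrix -/
theorem mem_ker_iff {H : SimpleGraph (Fin n)} (X : Finset (Fin n)) (j : ℕ)
    (x : {B : Finset (Fin n) // B ∈ (cl H X).filter (fun B => B.card = j)} → k) :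
    x ∈ LinearMap.ker (MM k (cl H X) (j - 1) j).mulVecLin ↔ bd (ex0 (cl H X) j x) = 0 := by
  rw [LinearMap.mem_ker, Matrix.mulVecLin_apply]
  constructor
  · intro h
    rw [← ex0_mulVec (cl H X) (cl_dn X) (j - 1) j rfl, h, ex0_zero]
  · intro h
    apply ex0_inj
    rw [ex0_mulVec (cl H X) (cl_dn X) (j - 1) j rfl, h, ex0_zero]

theorem range_le_ker {H : SimpleGraph (Fin n)} (X : Finset (Fin n)) (j : ℕ) :
    LinearMap.range (MM k (cl H X) j (j + 1)).mulVecLin ≤
      LinearMap.ker (MM k (cl H X) (j - 1) j).mulVecLin := by
  rintro _ ⟨y, rfl⟩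
  rw [mem_ker_iff, Matrix.mulVecLin_apply, ex0_mulVec (cl H X) (cl_dn X) j (j + 1) (by omega), bdbd]

theorem ker_le_range {H : SimpleGraph (Fin n)} (X : Finset (Fin n)) (j : ℕ) (hE : Ex k H X j) :
    LinearMap.ker (MM k (cl H X) (j - 1) j).mulVecLin ≤
      LinearMap.range (MM k (cl H X) j (j + 1)).mulVecLin := by
  intro x hx
  rw [mem_ker_iff] at hx
  obtain ⟨b, hb, hbe⟩ := hE _ (ex0_on X j x) hx
  refine ⟨fun B => b B.1, ?_⟩
  apply ex0_inj
  rw [Matrix.mulVecLin_apply, ex0_mulVec (cl H X) (cl_dn X) j (j + 1) (by omega), ex0_restr X (j + 1) b hb, hbe]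

/-- **from chains to ranks** -/
theorem isFlagSphere_of {d : ℕ} {H : SimpleGraph (Fin n)} {W : Finset (Fin n)} (hN : NP H d W)
    (hS : HS k H d W) : IsFlagSphere k d (cl H W) := by
  classical
  refine ⟨fun L j => Matrix.rank (MM k L (j - 1) j), fun F hF G hG => cl_down hF hG, ?_, fun L j => rfl, ?_⟩
  · intro F hF
    refine mem_cl.2 ⟨fun a ha => ?_, fun a ha b hb hab => ?_⟩
    · exact (mem_cl.1 (hF a ha a ha)).1 (Finset.mem_insert_self a _)
    · exact (mem_cl.1 (hF a ha b hb)).2 a (Finset.mem_insert_self a _) b
        (Finset.mem_insert_of_mem (Finset.mem_singleton_self b)) hab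
  · intro F hF j
    have hL : (cl H W).filter (fun G => Disjoint G F ∧ G ∪ F ∈ cl H W) = cl H (lkF H W F) := link_cl hF
    rw [hL]
    obtain ⟨e, he, hNF, -, -⟩ := hN.lkF hF
    set X := lkF H W F with hX
    have hrank : ∀ i, Matrix.rank (MM k (cl H X) (i - 1) i) =
        Module.finrank k (LinearMap.range (MM k (cl H X) (i - 1) i).mulVecLin) := fun i => rfl
    have hrank' : Matrix.rank (MM k (cl H X) (j + 1 - 1) (j + 1)) =
        Module.finrank k (LinearMap.range (MM k (cl H X) j (j + 1)).mulVecLin) := rfl
    have hker : Matrix.rank (MM k (cl H X) (j - 1) j) +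
        Module.finrank k (LinearMap.ker (MM k (cl H X) (j - 1) j).mulVecLin) =
        ((cl H X).filter (fun G => G.card = j)).card := by
      rw [hrank j]
      have h1 := LinearMap.finrank_range_add_finrank_ker (MM k (cl H X) (j - 1) j).mulVecLin
      rwa [Module.finrank_fintype_fun_eq_card, Fintype.card_coe] at h1
    have hgoal : (Module.finrank k (LinearMap.ker (MM k (cl H X) (j - 1) j).mulVecLin) : ℤ) -
        (Module.finrank k (LinearMap.range (MM k (cl H X) j (j + 1)).mulVecLin) : ℤ) =
        if j + F.card = d then 1 else 0 := by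
      rcases lt_trichotomy j e with hj | hj | hj
      · rw [if_neg (by omega)]
        have hE := hS.ex F hF j (by omega)
        rw [le_antisymm (ker_le_range X j hE) (range_le_ker X j), sub_self]
      · subst hj
        rw [if_pos he]
        have h0 : Module.finrank k (LinearMap.range (MM k (cl H X) j (j + 1)).mulVecLin) = 0 := by
          have hempty : IsEmpty {B : Finset (Fin n) // B ∈ (cl H X).filter (fun B => B.card = j + 1)} := by
            refine ⟨fun B => ?_⟩
            obtain ⟨h1, h2⟩ := Finset.mem_filter.1 B.2
            have := hNF.card_le h1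
            omega
          have h5 := LinearMap.finrank_range_le (MM k (cl H X) j (j + 1)).mulVecLin
          rw [Module.finrank_fintype_fun_eq_card, Fintype.card_eq_zero] at h5
          omega
        have h1 : Module.finrank k (LinearMap.ker (MM k (cl H X) (j - 1) j).mulVecLin) = 1 := by
          obtain ⟨z, hz, hz0, hzne⟩ := hS.top F hF
          rw [show d - F.card = j by omega] at hz
          have hzk : (fun B => z B.1 : {B : Finset (Fin n) // B ∈ (cl H X).filter (fun B => B.card = j)} → k) ∈
              LinearMap.ker (MM k (cl H X) (j - 1) j).mulVecLin := by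
            rw [mem_ker_iff, ex0_restr X j z hz, hz0]
          obtain ⟨G, hG⟩ : ∃ G, z G ≠ 0 := by
            by_contra hcon
            push Not at hcon
            exact hzne (funext hcon)
          obtain ⟨hG1, hG2⟩ := hz G hG
          rw [finrank_eq_one_iff']
          refine ⟨⟨_, hzk⟩, ?_, ?_⟩
          · intro h
            have h2 := congrArg Subtype.val h
            apply hzne
            rw [← ex0_restr X j z hz]
            have h3 : (fun B : {B : Finset (Fin n) // B ∈ (cl H X).filter (fun B => B.card = j)} => z B.1) = 0 := h2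
            rw [h3, ex0_zero]
          · rintro ⟨x, hx⟩
            rw [mem_ker_iff] at hx
            refine ⟨ex0 (cl H X) j x G / z G, ?_⟩
            apply Subtype.ext
            apply ex0_inj
            have h2 : ex0 (cl H X) j x + (-(ex0 (cl H X) j x G / z G)) • z = 0 := by
              refine top_unique j hNF _ ((ex0_on X j x).add (hz.smul _)) ?_ G hG1 hG2 ?_
              · rw [bd_add, bd_smul, hx, hz0, smul_zero, add_zero]
              · rw [Pi.add_apply, Pi.smul_apply, smul_eq_mul, neg_mul, div_mul_cancel₀ _ hG, add_neg_cancel]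
            have h3 : ex0 (cl H X) j ((ex0 (cl H X) j x G / z G) •
                (fun B : {B : Finset (Fin n) // B ∈ (cl H X).filter (fun B => B.card = j)} => z B.1)) =
                (ex0 (cl H X) j x G / z G) • z := by
              have := ex0_restr X j ((ex0 (cl H X) j x G / z G) • z) (hz.smul _)
              rw [← this]
              rfl
            change ex0 (cl H X) j ((ex0 (cl H X) j x G / z G) •
                (fun B : {B : Finset (Fin n) // B ∈ (cl H X).filter (fun B => B.card = j)} => z B.1)) =
                ex0 (cl H X) j x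
            rw [h3]
            rw [neg_smul, ← sub_eq_add_neg, sub_eq_zero] at h2
            exact h2.symm
        rw [h0, h1]
        norm_num
      · rw [if_neg (by omega)]
        have hempty : ∀ i, e < i → IsEmpty {B : Finset (Fin n) // B ∈ (cl H X).filter (fun B => B.card = i)} := by
          intro i hi
          refine ⟨fun B => ?_⟩
          obtain ⟨h1, h2⟩ := Finset.mem_filter.1 B.2
          have := hNF.card_le h1
          omega
        have e1 := hempty j hj
        have h0 : Module.finrank k (LinearMap.range (MM k (cl H X) j (j + 1)).mulVecLin) = 0 := by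
          have := Submodule.finrank_le (LinearMap.range (MM k (cl H X) j (j + 1)).mulVecLin)
          rw [Module.finrank_fintype_fun_eq_card, Fintype.card_eq_zero] at this
          omega
        have h1 : Module.finrank k (LinearMap.ker (MM k (cl H X) (j - 1) j).mulVecLin) = 0 := by
          have := Submodule.finrank_le (LinearMap.ker (MM k (cl H X) (j - 1) j).mulVecLin)
          rw [Module.finrank_fintype_fun_eq_card, Fintype.card_eq_zero] at this
          omega
        rw [h0, h1]
        norm_num
    rw [← hgoal]
    change (((cl H X).filter (fun G => G.card = j)).card : ℤ) - (Matrix.rank (MM k (cl H X) (j - 1) j) : ℤ) -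
      (Matrix.rank (MM k (cl H X) (j + 1 - 1) (j + 1)) : ℤ) = _
    rw [hrank']
    have : (((cl H X).filter (fun G => G.card = j)).card : ℤ) = (Matrix.rank (MM k (cl H X) (j - 1) j) : ℤ) +
        (Module.finrank k (LinearMap.ker (MM k (cl H X) (j - 1) j).mulVecLin) : ℤ) := by
      exact_mod_cast hker.symm
    rw [this]
    ring

end Pool.Agent.Q250.GL
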