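import Pool.Agent.W497.CC.Sum

set_option autoImplicit false
set_option linter.unusedSectionVars false
set_option linter.unusedVariables false

/-!
# The cubical complex all of whose vertex links are a given complex
-/

namespace Pool.Agent.Q250.GL

open Pool.Agent.W497.FS Pool.Agent.W497.CC Finset

variable {n : ℕ}

/-- the free coordinates of a face of the cube -/
def fr (x : Fin n → Option Bool) : Finset (Fin n) := Finset.univ.filter (fun i => x i = none)

theorem mem_fr {x : Fin n → Option Bool} {i : Fin n} : i ∈ fr x ↔ x i = none := by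
  rw [fr, Finset.mem_filter]
  exact ⟨fun h => h.2, fun h => ⟨Finset.mem_univ _, h⟩⟩

/-- the faces of the cube whose free coordinates form a face of `S` -/
def Mir (S : Finset (Finset (Fin n))) : Type := {x : Fin n → Option Bool // fr x ∈ S}

noncomputable instance (S : Finset (Finset (Fin n))) : Fintype (Mir S) := by
  classical
  unfold Mir
  infer_instance

instance (S : Finset (Finset (Fin n))) : PartialOrder (Mir S) where
  le x y := CubeLE x.1 y.1
  le_refl x i := Or.inr rfl
  le_trans x y z hxy hyz i := by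
    rcases hyz i with h | h
    · exact Or.inl h
    · rcases hxy i with h' | h'
      · exact Or.inl (h.trans h')
      · exact Or.inr (h.trans h')
  le_antisymm x y hxy hyx := by
    apply Subtype.ext
    funext i
    rcases hxy i with h | h
    · rcases hyx i with h' | h'
      · rw [h, h']
      · exact h'
    · exact h.symm

variable {S : Finset (Finset (Fin n))}

theorem le_mir {x y : Mir S} : x ≤ y ↔ CubeLE x.1 y.1 := Iff.rfl

/-- the constructor -/
def mkM (x : Fin n → Option Bool) (h : fr x ∈ S) : Mir S := ⟨x, h⟩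

/-- the dimension -/
def dimM (S : Finset (Finset (Fin n))) (x : Mir S) : ℕ := (fr x.1).card

theorem mir_cubical (hS : ∀ F ∈ S, ∀ G : Finset (Fin n), G ⊆ F → G ∈ S) : IsCubical (Mir S) (dimM S) := by
  classical
  intro c
  let Z := fr c.1
  let o : {i // i ∈ Z} ≃ Fin (dimM S c) := Z.equivFin
  have hex : ∀ f : Fin (dimM S c) → Option Bool,
      fr (fun i => if h : i ∈ Z then f (o ⟨i, h⟩) else c.1 i) ∈ S := by
    intro f
    refine hS _ c.2 _ (fun i hi => ?_)
    rw [mem_fr] at hi
    by_contra h
    rw [dif_neg h] at hi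
    exact h (mem_fr.2 hi)
  have hle : ∀ f : Fin (dimM S c) → Option Bool, mkM _ (hex f) ≤ c := by
    intro f
    change CubeLE (fun i => if h : i ∈ Z then f (o ⟨i, h⟩) else c.1 i) c.1
    intro i
    by_cases h : i ∈ Z
    · exact Or.inl (mem_fr.1 h)
    · right
      simp only [dif_neg h]
  refine ⟨⟨fun x => fun j => x.1.1 (o.symm j).1, fun f => ⟨mkM _ (hex f), hle f⟩, ?_, ?_⟩, ?_⟩
  · rintro ⟨x, hx⟩
    apply Subtype.ext
    apply Subtype.ext
    funext i
    change (if h : i ∈ Z then x.1 (o.symm (o ⟨i, h⟩)).1 else c.1 i) = x.1 i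
    split_ifs with h
    · rw [Equiv.symm_apply_apply]
    · rcases hx i with h' | h'
      · exact absurd (mem_fr.2 h') h
      · exact h'
  · intro f
    funext j
    change (if h : (o.symm j).1 ∈ Z then f (o ⟨(o.symm j).1, h⟩) else c.1 (o.symm j).1) = f j
    rw [dif_pos (o.symm j).2]
    simp
  · rintro ⟨x, hx⟩ ⟨y, hy⟩
    change CubeLE x.1 y.1 ↔ CubeLE (fun j => x.1 (o.symm j).1) (fun j => y.1 (o.symm j).1)
    constructor
    · exact fun h j => h _
    · intro h i
      by_cases hi : i ∈ Z
      · have := h (o ⟨i, hi⟩)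
        simpa using this
      · have h1 : c.1 i ≠ none := fun h' => hi (mem_fr.2 h')
        have h2 := (hx i).resolve_left h1
        have h3 := (hy i).resolve_left h1
        right
        rw [← h2, h3]

theorem mir_link (hS : ∀ F ∈ S, ∀ G : Finset (Fin n), G ⊆ F → G ∈ S) {v : Mir S} (hv : dimM S v = 0) : IsLink v S := by
  classical
  have hv' : ∀ i, v.1 i ≠ none := by
    intro i hi
    have : i ∈ fr v.1 := mem_fr.2 hi
    rw [dimM, Finset.card_eq_zero] at hv
    rw [hv] at this
    exact absurd this (Finset.notMem_empty _)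
  have hfr : ∀ F : Finset (Fin n), fr (fun i => if i ∈ F then none else v.1 i) = F := by
    intro F
    ext i
    rw [mem_fr]
    constructor
    · intro h
      by_contra h'
      rw [if_neg h'] at h
      exact hv' i h
    · exact fun h => if_pos h
  refine ⟨⟨fun x => ⟨fr x.1.1, x.1.2⟩, fun F => ⟨mkM (fun i => if i ∈ F.1 then none else v.1 i) (by rw [hfr]; exact F.2),
    ?_⟩, ?_, ?_⟩, ?_⟩
  · change CubeLE v.1 (fun i => if i ∈ F.1 then none else v.1 i)
    intro i
    by_cases h : i ∈ F.1
    · left
      simp only [if_pos h]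
    · right
      simp only [if_neg h]
  · rintro ⟨x, hx⟩
    apply Subtype.ext
    apply Subtype.ext
    funext i
    change (if i ∈ fr x.1 then none else v.1 i) = x.1 i
    split_ifs with h
    · exact (mem_fr.1 h).symm
    · rcases hx i with h' | h'
      · exact absurd (mem_fr.2 h') h
      · exact h'.symm
  · rintro ⟨F, hF⟩
    apply Subtype.ext
    exact hfr F
  · rintro ⟨x, hx⟩ ⟨z, hz⟩
    change CubeLE x.1 z.1 ↔ fr x.1 ⊆ fr z.1
    constructor
    · intro h i hi
      rw [mem_fr] at hi ⊢
      rcases h i with h' | h'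
      · exact h'
      · rw [h', hi]
    · intro h i
      by_cases hi : z.1 i = none
      · exact Or.inl hi
      · right
        have h1 : x.1 i ≠ none := fun h' => hi (mem_fr.1 (h (mem_fr.2 h')))
        rw [(hz i).resolve_left hi, ← (hx i).resolve_left h1]

theorem mir_vertex (h0 : (∅ : Finset (Fin n)) ∈ S) : ∃ v : Mir S, dimM S v = 0 := by
  have h1 : fr (fun _ : Fin n => some true) = ∅ := by
    ext i
    rw [mem_fr]
    simp
  refine ⟨mkM (fun _ => some true) (by rw [h1]; exact h0), ?_⟩
  change (fr (fun _ : Fin n => some true)).card = 0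
  rw [h1, Finset.card_empty]

/-! ### Counting -/

open scoped Classical in
/-- the number of cubes of dimension `i` -/
noncomputable def numCubes (P : Type) [Fintype P] (dim : P → ℕ) (i : ℕ) : ℕ :=
  (Finset.univ.filter (fun c : P => dim c = i)).card

open scoped Classical in
/-- the number of edges at the vertex `v` -/
noncomputable def deg {P : Type} [Fintype P] [PartialOrder P] (dim : P → ℕ) (v : P) : ℕ :=
  (Finset.univ.filter (fun c : P => dim c = 1 ∧ v ≤ c)).card

open scoped Classical in
theorem sum_deg {P : Type} [Fintype P] [PartialOrder P] {dim : P → ℕ} (hP : IsCubical P dim) :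
    ∑ v ∈ Finset.univ.filter (fun v : P => dim v = 0), deg dim v = 2 * numCubes P dim 1 := by
  have h1 : ∀ v : P, deg dim v = ∑ c ∈ Finset.univ.filter (fun c : P => dim c = 1), if v ≤ c then 1 else 0 := by
    intro v
    rw [deg, Finset.card_filter, Finset.sum_filter]
    refine Finset.sum_congr rfl (fun c _ => ?_)
    by_cases h : dim c = 1 <;> by_cases h' : v ≤ c <;> simp [h, h']
  simp only [h1]
  rw [Finset.sum_comm, numCubes, mul_comm, ← smul_eq_mul, ← Finset.sum_const]
  refine Finset.sum_congr rfl (fun c hc => ?_)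
  have h2 := card_vertices hP c
  rw [(Finset.mem_filter.1 hc).2, pow_one] at h2
  rw [← Finset.card_filter, Finset.filter_filter]
  exact h2

open scoped Classical in
theorem deg_eq {P : Type} [Fintype P] [PartialOrder P] {dim : P → ℕ} (hP : IsCubical P dim) {v : P} (hv : dim v = 0)
    {n : ℕ} {S : Finset (Finset (Fin n))} (hS : ∀ F ∈ S, ∀ G : Finset (Fin n), G ⊆ F → G ∈ S) (hL : IsLink v S) :
    deg dim v = numVert S := by
  obtain ⟨e, he⟩ := hL
  have hd := dim_eq_card hP v hv S hS e he
  rw [deg, numVert]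
  symm
  refine Finset.card_bij (fun F hF => (e.symm ⟨F, (Finset.mem_filter.1 hF).1⟩).1) ?_ ?_ ?_
  · intro F hF
    obtain ⟨h1, h2⟩ := Finset.mem_filter.1 hF
    have h3 := hd (e.symm ⟨F, h1⟩)
    rw [Equiv.apply_symm_apply, h2] at h3
    exact Finset.mem_filter.2 ⟨Finset.mem_univ _, h3.symm, (e.symm ⟨F, h1⟩).2⟩
  · intro F hF F' hF' h
    exact congrArg Subtype.val (e.symm.injective (Subtype.ext h))
  · intro c hc
    obtain ⟨-, h1, h2⟩ := Finset.mem_filter.1 hc
    have h3 := hd ⟨c, h2⟩
    refine ⟨(e ⟨c, h2⟩).1, Finset.mem_filter.2 ⟨(e ⟨c, h2⟩).2, by rw [h3]; exact h1⟩, ?_⟩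
    simp

end Pool.Agent.Q250.GL
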