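import Pool.Agent.Q250.GL.Main
import Pool.Agent.Q250.GL.Mirror
import Pool.Agent.Q105.SH.Base

set_option autoImplicit false
set_option linter.unusedSectionVars false
set_option linter.unusedVariables false

/-!
# The sign of the Euler characteristic of nonpositively curved cubical manifolds, up to errors
-/

namespace Pool.Agent.Q250.GL

open Pool.Agent.W497.FS Pool.Agent.W497.CC Finset Polynomial Pool.Agent.TH709.GG Pool.Agent.TH709.GG.F3

/-- every vertex link is a flag homology sphere of dimension `2 m - 1` over `k` -/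
def FlagLinks (k : Type) [Field k] (m : ℕ) {P : Type} [PartialOrder P] (dim : P → ℕ) : Prop :=
  ∀ v : P, dim v = 0 → ∃ (n : ℕ) (S : Finset (Finset (Fin n))), IsLink v S ∧ IsFlagSphere k (2 * m) S

variable {k : Type} [Field k]

theorem omega_gamma {n m : ℕ} {S : Finset (Finset (Fin n))}
    (hS : IsFlagSphere k (2 * m) S) {γ : ℕ → ℤ} (hγ : IsGamma (2 * m) S γ) :
    (-1) ^ m * omega S = (γ m : ℚ) * (1 / 4) ^ m := by
  have hEP := ep_of_np hS.np hS.eul
  obtain ⟨a, ha⟩ := ep_FP_exp hEP (empty_mem_cl (H := skel S) (W := vert S))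
  have e1 : lkF (skel S) (vert S) ∅ = vert S := by
    ext x
    rw [mem_lkF]
    exact ⟨fun h => h.1, fun h => ⟨h, by simp⟩⟩
  rw [e1, Finset.card_empty, Nat.sub_zero] at ha
  have h2 := hS.gamma_eq hγ ha m (by omega)
  rw [hS.omega_eq, ← aeval_FP, ha, aeval_even, ← h2]
  rw [← neg_pow_quarter m]; ring

/-- the right-angled inequality up to an error implies the exact one -/
theorem cd_of_err {m j : ℕ} (hm : 1 ≤ m)
    (h : ∀ ε : ℝ, 0 < ε → ∃ C : ℝ, ∀ (n : ℕ) (S : Finset (Finset (Fin n))), IsFlagSphere k (2 * (m + j)) S →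
      -(ε * (numVert S : ℝ) ^ (j + 1)) - C ≤ (((-1) ^ (m + j) * omega S : ℚ) : ℝ)) :
    ∀ (n : ℕ) (S : Finset (Finset (Fin n))), IsFlagSphere k (2 * m) S → 0 ≤ (-1) ^ m * omega S := by
  obtain ⟨d, hd⟩ : ∃ d, 2 * m = d + 1 := ⟨2 * m - 1, by omega⟩
  have hmain := main_gal k d m j hm (by omega) (by
    intro ε hε
    obtain ⟨C₀, hC₀⟩ := h (ε / 4 ^ (m + j)) (by positivity)
    refine ⟨4 ^ (m + j) * C₀, fun n T γ hT hγ => ?_⟩
    rw [← hd, show 2 * m + 2 * j = 2 * (m + j) by ring] at hT hγ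
    have h1 := hC₀ n T hT
    rw [omega_gamma hT hγ] at h1
    push_cast at h1
    have h4 : (0 : ℝ) < 4 ^ (m + j) := by positivity
    have h2 := mul_le_mul_of_nonneg_left h1 h4.le
    have e1 : (4 : ℝ) ^ (m + j) * ((γ (m + j) : ℝ) * (1 / 4) ^ (m + j)) = γ (m + j) := by
      rw [mul_left_comm, ← mul_pow]
      norm_num
    have e2 : (4 : ℝ) ^ (m + j) * (-(ε / 4 ^ (m + j) * (numVert T : ℝ) ^ (j + 1)) - C₀) =
        -(ε * (numVert T : ℝ) ^ (j + 1)) - 4 ^ (m + j) * C₀ := by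
      field_simp
    rw [e1, e2] at h2
    exact h2)
  intro n S hS
  obtain ⟨γ, hγ⟩ := exists_gamma hS
  rw [omega_gamma hS hγ]
  have h1 : 0 ≤ γ m := hmain n S γ (by rw [← hd]; exact hS) (by rw [← hd]; exact hγ)
  have h2 : (0 : ℚ) ≤ γ m := by exact_mod_cast h1
  positivity

open scoped Classical in
theorem mir_chi {n d : ℕ} {S : Finset (Finset (Fin n))} (hS : IsFlagSphere k d S) :
    ((chi (Mir S) (dimM S) : ℤ) : ℚ) = numCubes (Mir S) (dimM S) 0 * omega S := by
  have hdown := Q105.SH.down hS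
  have h := chi_eq (mir_cubical hdown) (fun _ => n) (fun _ => S) (fun v hv => mir_link hdown hv)
    (fun v _ => hdown)
  rw [h, Finset.sum_const, numCubes, nsmul_eq_mul]

open scoped Classical in
theorem mir_deg {n d : ℕ} {S : Finset (Finset (Fin n))} (hS : IsFlagSphere k d S) (e : ℕ) :
    ∑ v ∈ Finset.univ.filter (fun v : Mir S => dimM S v = 0), deg (dimM S) v ^ e =
      numCubes (Mir S) (dimM S) 0 * numVert S ^ e := by
  have hdown := Q105.SH.down hS
  have h1 : ∀ v ∈ Finset.univ.filter (fun v : Mir S => dimM S v = 0), deg (dimM S) v ^ e = numVert S ^ e := by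
    intro v hv
    rw [deg_eq (mir_cubical hdown) (Finset.mem_filter.1 hv).2 hdown (mir_link hdown (Finset.mem_filter.1 hv).2)]
  rw [Finset.sum_congr rfl h1, Finset.sum_const, numCubes, smul_eq_mul]

theorem mir_pos {n d : ℕ} {S : Finset (Finset (Fin n))} (hS : IsFlagSphere k d S) :
    0 < numCubes (Mir S) (dimM S) 0 := by
  classical
  obtain ⟨v, hv⟩ := mir_vertex (Q105.SH.empty_mem hS)
  rw [numCubes]
  exact Finset.card_pos.2 ⟨v, Finset.mem_filter.2 ⟨Finset.mem_univ _, hv⟩⟩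

open scoped Classical in
/-- from cubical complexes to spheres -/
theorem err_of_cube {M e : ℕ}
    (h : ∀ ε : ℝ, 0 < ε → ∃ C : ℝ, ∀ (P : Type) [Fintype P] [PartialOrder P] (dim : P → ℕ), IsCubical P dim →
      FlagLinks k M dim →
      -(ε * ((∑ v ∈ Finset.univ.filter (fun v : P => dim v = 0), deg dim v ^ e : ℕ) : ℝ)) - C * numCubes P dim 0 ≤
        (((-1) ^ M * chi P dim : ℤ) : ℝ)) :
    ∀ ε : ℝ, 0 < ε → ∃ C : ℝ, ∀ (n : ℕ) (S : Finset (Finset (Fin n))), IsFlagSphere k (2 * M) S →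
      -(ε * (numVert S : ℝ) ^ e) - C ≤ (((-1) ^ M * omega S : ℚ) : ℝ) := by
  intro ε hε
  obtain ⟨C₀, hC₀⟩ := h ε hε
  refine ⟨C₀, fun n S hS => ?_⟩
  have hdown := Q105.SH.down hS
  have h1 := hC₀ (Mir S) (dimM S) (mir_cubical hdown) (fun v hv => ⟨n, S, mir_link hdown hv, hS⟩)
  have h2 := mir_chi hS
  rw [mir_deg hS] at h1
  have h3 : (((-1) ^ M * chi (Mir S) (dimM S) : ℤ) : ℝ) =
      numCubes (Mir S) (dimM S) 0 * (((-1) ^ M * omega S : ℚ) : ℝ) := by
    have h4 : (((-1) ^ M * chi (Mir S) (dimM S) : ℤ) : ℚ) = numCubes (Mir S) (dimM S) 0 * ((-1) ^ M * omega S) := by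
      push_cast
      rw [h2]
      ring
    have h5 := congrArg (fun q : ℚ => (q : ℝ)) h4
    push_cast at h5 ⊢
    exact h5
  rw [h3] at h1
  have hV : (0 : ℝ) < numCubes (Mir S) (dimM S) 0 := by exact_mod_cast mir_pos hS
  have h6 : (numCubes (Mir S) (dimM S) 0 : ℝ) * (-(ε * (numVert S : ℝ) ^ e) - C₀) ≤
      numCubes (Mir S) (dimM S) 0 * (((-1) ^ M * omega S : ℚ) : ℝ) := by
    refine le_trans (le_of_eq ?_) h1
    push_cast
    ring
  exact le_of_mul_le_mul_left h6 hV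

/-- from spheres to cubical complexes -/
theorem cube_of_cd {m : ℕ}
    (h : ∀ (n : ℕ) (S : Finset (Finset (Fin n))), IsFlagSphere k (2 * m) S → 0 ≤ (-1) ^ m * omega S)
    (P : Type) [Fintype P] [PartialOrder P] (dim : P → ℕ) (hP : IsCubical P dim) (hL : FlagLinks k m dim) :
    0 ≤ (-1) ^ m * chi P dim := by
  refine Q105.SH.chi_nonneg m P dim hP (fun v hv => ?_)
  obtain ⟨n, S, h1, h2⟩ := hL v hv
  exact ⟨n, S, h1, Q105.SH.down h2, h n S h2⟩

end Pool.Agent.Q250.GL
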