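import Pool.Agent.Q250.GL.Amp

set_option autoImplicit false
set_option linter.unusedSectionVars false
set_option linter.unusedVariables false

/-!
# From lower bounds with small errors to sharp ones
-/

namespace Pool.Agent.Q250.GL

open Pool.Agent.W497.FS Finset Polynomial Filter Topology

variable {k : Type} [Field k]

/-! ### The gamma expansion of a product -/

theorem gexp_y2 {d : ℕ} {G : ℤ[X]} (hG : ∀ i, d / 2 < i → G.coeff i = 0) :
    gexp d G.coeff * y ^ 2 = gexp (d + 2) G.coeff := by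
  rw [gexp, gexp, show (d + 2) / 2 + 1 = (d / 2 + 1) + 1 by omega, Finset.sum_range_succ _ (d / 2 + 1),
    hG (d / 2 + 1) (by omega), C_0, zero_mul, zero_mul, add_zero, Finset.sum_mul]
  refine Finset.sum_congr rfl (fun i hi => ?_)
  rw [Finset.mem_range] at hi
  rw [show d + 2 - 2 * i = (d - 2 * i) + 2 by omega]
  ring

theorem gexp_w {d : ℕ} {G : ℤ[X]} : gexp d G.coeff * w = gexp (d + 2) (G * X).coeff := by
  rw [gexp, gexp, show (d + 2) / 2 + 1 = (d / 2 + 1) + 1 by omega, Finset.sum_range_succ' _ (d / 2 + 1),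
    mul_coeff_zero, coeff_X_zero, mul_zero, C_0, zero_mul, zero_mul, add_zero, Finset.sum_mul]
  refine Finset.sum_congr rfl (fun i hi => ?_)
  rw [Finset.mem_range] at hi
  rw [coeff_mul_X, show d + 2 - 2 * (i + 1) = d - 2 * i by omega]
  ring

theorem gexp_pent {d : ℕ} {G : ℤ[X]} (hG : ∀ i, d / 2 < i → G.coeff i = 0) (c : ℤ) :
    gexp d G.coeff * (y ^ 2 + C c * w) = gexp (d + 2) (G * (1 + C c * X)).coeff := by
  have e : (G * (1 + C c * X)).coeff = fun i => G.coeff i + (fun i => c * (G * X).coeff i) i := by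
    funext i
    rw [show G * (1 + C c * X) = G + C c * (G * X) by ring, coeff_add, coeff_C_mul]
  rw [e, gexp_add, gexp_smul, ← gexp_w, ← gexp_y2 hG]
  ring

theorem deg_pent {d : ℕ} {G : ℤ[X]} (hG : ∀ i, d / 2 < i → G.coeff i = 0) (c : ℤ) :
    ∀ i, (d + 2) / 2 < i → (G * (1 + C c * X)).coeff i = 0 := by
  intro i hi
  obtain ⟨i, rfl⟩ := Nat.exists_eq_succ_of_ne_zero (show i ≠ 0 by omega)
  rw [show G * (1 + C c * X) = G + C c * (G * X) by ring, coeff_add, coeff_C_mul, Nat.succ_eq_add_one, coeff_mul_X,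
    hG _ (by omega), hG _ (by omega), mul_zero, add_zero]

theorem gexp_pents {d : ℕ} {G : ℤ[X]} (hG : ∀ i, d / 2 < i → G.coeff i = 0) (c : ℤ) (j : ℕ) :
    gexp d G.coeff * (y ^ 2 + C c * w) ^ j = gexp (d + 2 * j) (G * (1 + C c * X) ^ j).coeff ∧
      ∀ i, (d + 2 * j) / 2 < i → (G * (1 + C c * X) ^ j).coeff i = 0 := by
  induction j with
  | zero =>
    simp only [pow_zero, mul_one, mul_zero, add_zero]
    exact ⟨trivial, hG⟩
  | succ j ih =>
    obtain ⟨h1, h2⟩ := ih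
    have e1 : gexp d G.coeff * (y ^ 2 + C c * w) ^ (j + 1) =
        gexp d G.coeff * (y ^ 2 + C c * w) ^ j * (y ^ 2 + C c * w) := by ring
    have e2 : G * (1 + C c * X) ^ (j + 1) = G * (1 + C c * X) ^ j * (1 + C c * X) := by ring
    rw [show d + 2 * (j + 1) = (d + 2 * j) + 2 by ring, e1, e2, h1]
    exact ⟨gexp_pent h2 c, deg_pent h2 c⟩

/-! ### Coefficients -/

theorem coeff_pent (c : ℤ) (j : ℕ) : ((y ^ 2 + C c * w) ^ j).coeff 0 = 1 ∧
    ((y ^ 2 + C c * w) ^ j).coeff 1 = j * (4 + c) := by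
  have e : (y : ℤ[X]) ^ 2 + C c * w = C 1 + C (4 + c) * X + C (4 + c) * X ^ 2 := by
    rw [y, w, C_add, C_1, show (C 4 : ℤ[X]) = 4 from rfl]
    ring
  have h0 : (y ^ 2 + C c * w).coeff 0 = 1 := by
    rw [e]
    simp
  have h1 : (y ^ 2 + C c * w).coeff 1 = 4 + c := by
    rw [e, coeff_add, coeff_add, coeff_C_mul, coeff_C_mul, coeff_X_one, coeff_X_pow, coeff_C, if_neg one_ne_zero,
      if_neg (by norm_num)]
    ring
  induction j with
  | zero => simp [coeff_one]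
  | succ j ih =>
    obtain ⟨a0, a1⟩ := ih
    rw [pow_succ, mul_coeff_zero, mul_coeff_one, a0, a1, h0, h1]
    refine ⟨by ring, ?_⟩
    push_cast
    ring

/-- the spheres of the argument -/
theorem family {d : ℕ} {G A B : ℤ[X]} (hG : ∀ i, (d + 1) / 2 < i → G.coeff i = 0)
    (hA : ∀ i, d / 2 < i → A.coeff i = 0) (hB : ∀ i, d / 2 < i → B.coeff i = 0)
    (h : Rz k (d + 1) (gexp (d + 1) G.coeff) (gexp d A.coeff) (gexp d B.coeff)) :
    ∃ K : ℕ, ∀ j m : ℕ, ∃ (n : ℕ) (T : Finset (Finset (Fin n))), IsFlagSphere k (d + 1 + 2 * j) T ∧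
      IsGamma (d + 1 + 2 * j) T ((C (2 ^ m) * (2 * G - A - B) + B) * (1 + C (2 ^ (m + 1)) * X) ^ j).coeff ∧
      numVert T ≤ 2 ^ m * (K + 6 * j) := by
  have hyA : y * gexp d A.coeff = gexp (d + 1) A.coeff := by
    rw [y_mul_gexp]
    refine gexp_congr (fun i hi => ?_)
    rw [tr]
    split_ifs with h
    · rfl
    · exact (hA i (by omega)).symm
  have hyB : y * gexp d B.coeff = gexp (d + 1) B.coeff := by
    rw [y_mul_gexp]
    refine gexp_congr (fun i hi => ?_)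
    rw [tr]
    split_ifs with h
    · rfl
    · exact (hB i (by omega)).symm
  have hdeg : ∀ m : ℕ, ∀ i, (d + 1) / 2 < i → (C (2 ^ m) * (2 * G - A - B) + B).coeff i = 0 := by
    intro m i hi
    rw [coeff_add, coeff_C_mul, coeff_sub, coeff_sub, show (2 : ℤ[X]) * G = C 2 * G from rfl, coeff_C_mul,
      hG i hi, hA i (by omega), hB i (by omega)]
    ring
  obtain ⟨n₀, H₀, W₀, -, -, hP₀, v, hv, u, hu, -, -, hQ, hQ'⟩ := id h
  refine ⟨2 * W₀.card, fun j m => ?_⟩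
  have hit := (rz_iter h m).one
  have he : 2 ^ m * (2 * gexp (d + 1) G.coeff - y * gexp d A.coeff - y * gexp d B.coeff) + y * gexp d B.coeff =
      gexp (d + 1) (C (2 ^ m) * (2 * G - A - B) + B).coeff := by
    have e1 : (C (2 ^ m) * (2 * G - A - B) + B).coeff =
        fun i => (fun i => 2 ^ m * ((fun i => 2 * G.coeff i + ((fun i => (-1) * A.coeff i + (-1) * B.coeff i) i)) i)) i +
          B.coeff i := by
      funext i
      rw [coeff_add, coeff_C_mul, coeff_sub, coeff_sub, show (2 : ℤ[X]) * G = C 2 * G from rfl, coeff_C_mul]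
      ring
    rw [e1, gexp_add, gexp_smul, gexp_add, gexp_smul, gexp_add, gexp_smul, gexp_smul, hyA, hyB]
    simp only [C_neg, C_1, C_pow, C_ofNat]
    ring
  have hfin := rz1_polys hit m j
  obtain ⟨n, H, W, hN, hH, hP⟩ := hfin
  have hP' := hP
  rw [he, (gexp_pents (hdeg m) _ j).1] at hP'
  obtain ⟨h1, h2, h3⟩ := gamma_of hN hH hP'
  refine ⟨n, cl H W, h1, h2, ?_⟩
  rw [h3]
  have c1 := congrArg (fun p => p.coeff 1) hP
  obtain ⟨q0, q1⟩ := coeff_pent (2 ^ (m + 1)) j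
  have hy : ∀ p : ℤ[X], (y * p).coeff 1 = p.coeff 1 + 2 * p.coeff 0 := by
    intro p
    rw [y, add_mul, one_mul, coeff_add, mul_assoc, show (2 : ℤ[X]) = C 2 by simp, coeff_C_mul, coeff_X_mul]
  have hy0 : ∀ p : ℤ[X], (y * p).coeff 0 = p.coeff 0 := by
    intro p
    rw [mul_coeff_zero, y]
    simp
  have hC : ∀ (c l : ℕ) (p : ℤ[X]), (2 ^ c * p).coeff l = 2 ^ c * p.coeff l := by
    intro c l p
    rw [show (2 : ℤ[X]) ^ c = C (2 ^ c) by simp, coeff_C_mul]
  have hC1 : ∀ (l : ℕ) (p : ℤ[X]), (2 * p).coeff l = 2 * p.coeff l := by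
    intro l p
    rw [show (2 : ℤ[X]) = C 2 by simp, coeff_C_mul]
  simp only [mul_coeff_one, coeff_add, coeff_sub, hC, hC1, hy, hy0, q0, q1] at c1
  rw [← hP₀, ← hQ, ← hQ', Pool.Agent.TH417.Gal.FP_coeff_one, Pool.Agent.TH417.Gal.FP_coeff_one,
    Pool.Agent.TH417.Gal.FP_coeff_one, Pool.Agent.TH417.Gal.FP_coeff_one, Pool.Agent.TH417.Gal.FP_coeff_zero,
    Pool.Agent.TH417.Gal.FP_coeff_zero, Pool.Agent.TH417.Gal.FP_coeff_zero] at c1
  have hp : (1 : ℤ) ≤ 2 ^ m := one_le_pow₀ (by norm_num)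
  have r1 : (0 : ℤ) ≤ (lk H₀ W₀ v).card := Nat.cast_nonneg _
  have r2 : (0 : ℤ) ≤ (lk H₀ W₀ u).card := Nat.cast_nonneg _
  have r3 : (0 : ℤ) ≤ j := Nat.cast_nonneg _
  have : (W.card : ℤ) ≤ 2 ^ m * (2 * W₀.card + 6 * j) := by
    rw [c1, pow_succ]
    nlinarith [mul_nonneg (sub_nonneg.2 hp) r2, mul_nonneg (by linarith : (0 : ℤ) ≤ 2 ^ m) r1,
      mul_nonneg (sub_nonneg.2 hp) r3]
  exact_mod_cast this

/-! ### The limit -/

theorem lim_poly {Q : ℝ[X]} {e : ℕ} (he : 1 ≤ e) (hQ : Q.natDegree ≤ e)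
    (h : ∀ ε : ℝ, 0 < ε → ∃ C : ℝ, ∀ m : ℕ, -(ε * (2 ^ m) ^ e) - C ≤ Q.eval (2 ^ m)) : 0 ≤ Q.coeff e := by
  have hR : (Q - C (Q.coeff e) * X ^ e).degree < (X ^ e : ℝ[X]).degree := by
    rw [degree_X_pow]
    rw [degree_lt_iff_coeff_zero]
    intro i hi
    rw [coeff_sub, coeff_C_mul, coeff_X_pow]
    rcases hi.eq_or_lt with rfl | h1
    · simp
    · rw [if_neg (by omega), mul_zero, sub_zero]
      exact coeff_eq_zero_of_natDegree_lt (by omega)
  have hl := div_tendsto_atTop_zero_of_degree_lt _ _ hR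
  have h2 : Tendsto (fun m : ℕ => (2 : ℝ) ^ m) atTop atTop := tendsto_pow_atTop_atTop_of_one_lt (by norm_num)
  have hl2 := hl.comp h2
  have key : ∀ ε : ℝ, 0 < ε → -ε ≤ Q.coeff e := by
    intro ε hε
    obtain ⟨C₀, hC₀⟩ := h ε hε
    have hpos : ∀ m : ℕ, (0 : ℝ) < (2 ^ m) ^ e := fun m => by positivity
    have hlim1 : Tendsto (fun m : ℕ => -ε - C₀ / (2 ^ m) ^ e) atTop (𝓝 (-ε - 0)) := by
      refine tendsto_const_nhds.sub ?_
      refine Tendsto.div_atTop tendsto_const_nhds ?_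
      exact (tendsto_pow_atTop (by omega)).comp h2
    have hlim2 : Tendsto (fun m : ℕ => Q.coeff e + eval ((2 : ℝ) ^ m) (Q - C (Q.coeff e) * X ^ e) /
        eval ((2 : ℝ) ^ m) (X ^ e : ℝ[X])) atTop (𝓝 (Q.coeff e + 0)) := tendsto_const_nhds.add hl2
    rw [sub_zero] at hlim1
    rw [add_zero] at hlim2
    refine le_of_tendsto_of_tendsto' hlim1 hlim2 (fun m => ?_)
    have h3 := hC₀ m
    have h4 := hpos m
    rw [eval_sub, eval_mul, eval_C, eval_pow, eval_X, sub_div, mul_div_cancel_right₀ _ h4.ne', add_sub_cancel]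
    rw [le_div_iff₀ h4, sub_mul, div_mul_cancel₀ _ h4.ne']
    linarith
  by_contra hcon
  push Not at hcon
  have := key (-(Q.coeff e) / 2) (by linarith)
  linarith

end Pool.Agent.Q250.GL
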