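import Pool.Agent.Q250.GL.Glue
import Pool.Agent.Q250.GL.Conv

set_option autoImplicit false
set_option linter.unusedSectionVars false
set_option linter.unusedVariables false

/-!
# Doubling a flag homology sphere along the link of a vertex
-/

namespace Pool.Agent.Q250.GL

open Pool.Agent.W497.FS Finset Polynomial

variable {k : Type} [Field k] {α : Type} [LinearOrder α] [Fintype α] {H : SimpleGraph α}

/-- the graph on `α × Bool` (lexicographic order) induced by the first coordinate -/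
def up (H : SimpleGraph α) : SimpleGraph (α ×ₗ Bool) where
  Adj p q := H.Adj (ofLex p).1 (ofLex q).1
  symm := ⟨fun p q h => h.symm⟩
  loopless := ⟨fun p h => h.ne rfl⟩

theorem up_adj {p q : α ×ₗ Bool} : (up H).Adj p q ↔ H.Adj (ofLex p).1 (ofLex q).1 := Iff.rfl

/-- a section of the first coordinate -/
def sec (g : α → Bool) (a : α) : α ×ₗ Bool := toLex (a, g a)

theorem sec_strictMono (g : α → Bool) : StrictMono (sec g) := by
  intro a b hab
  rw [sec, sec, Prod.Lex.toLex_lt_toLex]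
  exact Or.inl hab

theorem sec_adj (g : α → Bool) (a b : α) : H.Adj a b ↔ (up H).Adj (sec g a) (sec g b) := Iff.rfl

theorem sec_eq_iff {g g' : α → Bool} {a b : α} : sec g a = sec g' b ↔ a = b ∧ g a = g' b := by
  rw [sec, sec, toLex_inj, Prod.mk.injEq]

theorem fst_sec (g : α → Bool) (a : α) : (ofLex (sec g a)).1 = a := rfl

/-- the first copy -/
def g₁ : α → Bool := fun _ => false

open Classical in
/-- the second copy, identified with the first one on `L` -/
noncomputable def g₂ (L : Finset α) : α → Bool := fun a => decide (a ∉ L)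

/-- the graph of the double of `(H, W)` along the link of `v` -/
noncomputable def dG (H : SimpleGraph α) (W : Finset α) (v : α) : SimpleGraph (α ×ₗ Bool) :=
  glueG (up H) ((W.image (sec g₁)).erase (sec g₁ v)) ((W.image (sec (g₂ (lk H W v)))).erase (sec (g₂ (lk H W v)) v))

/-- the vertices of the double of `(H, W)` along the link of `v` -/
noncomputable def dW (H : SimpleGraph α) (W : Finset α) (v : α) : Finset (α ×ₗ Bool) :=
  (W.image (sec g₁)).erase (sec g₁ v) ∪ (W.image (sec (g₂ (lk H W v)))).erase (sec (g₂ (lk H W v)) v)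

theorem notMem_lk_self {W : Finset α} {v : α} : v ∉ lk H W v := fun h => (mem_lk.1 h).2.ne rfl

theorem double_data {W : Finset α} {v : α} (hv : v ∈ W) :
    GlueData (up H) (W.image (sec g₁)) (W.image (sec (g₂ (lk H W v)))) (sec g₁ v) (sec (g₂ (lk H W v)) v) := by
  classical
  set L := lk H W v with hL
  have hi : ∀ g : α → Bool, lk (up H) (W.image (sec g)) (sec g v) = L.image (sec g) := fun g =>
    lk_image (f := sec g) (fun a _ b _ => sec_adj g a b) hv
  have hint : (W.image (sec g₁)).erase (sec g₁ v) ∩ (W.image (sec (g₂ L))).erase (sec (g₂ L) v) =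
      L.image (sec g₁) := by
    ext p
    simp only [Finset.mem_inter, Finset.mem_erase, Finset.mem_image]
    constructor
    · rintro ⟨⟨h1, a, ha, rfl⟩, ⟨h2, b, hb, hab⟩⟩
      refine ⟨a, ?_, rfl⟩
      rw [sec_eq_iff] at hab
      obtain ⟨rfl, h3⟩ := hab
      by_contra h4
      rw [g₂, g₁] at h3
      simp [h4] at h3
    · rintro ⟨a, ha, rfl⟩
      have haW : a ∈ W := (mem_lk.1 ha).1
      have hav : a ≠ v := (mem_lk.1 ha).2.ne'
      refine ⟨⟨fun h => hav (sec_eq_iff.1 h).1, a, haW, rfl⟩, ⟨fun h => hav (sec_eq_iff.1 h).1, a, haW, ?_⟩⟩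
      rw [sec_eq_iff]
      refine ⟨rfl, ?_⟩
      rw [g₂, g₁]
      simp [ha]
  have himg : L.image (sec g₁) = L.image (sec (g₂ L)) := by
    refine Finset.image_congr (fun a ha => ?_)
    rw [sec_eq_iff]
    refine ⟨rfl, ?_⟩
    rw [g₂, g₁]
    simpa using ha
  refine ⟨Finset.mem_image_of_mem _ hv, Finset.mem_image_of_mem _ hv, ?_, ?_⟩
  · rw [hi, hint]
  · rw [hi, hint, himg]

theorem np_sec {d : ℕ} {W : Finset α} (g : α → Bool) (h : NP H d W) : NP (up H) d (W.image (sec g)) :=
  NP_image (sec_strictMono g).injective.injOn (fun a _ b _ => sec_adj g a b) h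

theorem hs_sec {d : ℕ} {W : Finset α} (g : α → Bool) (h : HS k H d W) : HS k (up H) d (W.image (sec g)) :=
  HS_image ((sec_strictMono g).strictMonoOn _) (fun a _ b _ => sec_adj g a b) h

theorem FP_sec {W : Finset α} (g : α → Bool) : FP (up H) (W.image (sec g)) = FP H W :=
  Pool.Agent.TH709.GG.FP_image (sec_strictMono g).injective.injOn (fun a _ b _ => sec_adj g a b)

theorem double_np {d : ℕ} {W : Finset α} {v : α} (hv : v ∈ W) (h : NP H d W) : NP (dG H W v) d (dW H W v) :=
  glue_np stmDel (double_data hv) (np_sec _ h) (np_sec _ h)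

theorem double_hs {d : ℕ} {W : Finset α} {v : α} (hv : v ∈ W) (hN : NP H d W) (h : HS k H d W) :
    HS k (dG H W v) d (dW H W v) :=
  HS_glue (double_data hv) (np_sec _ hN) (np_sec _ hN) (hs_sec _ h) (hs_sec _ h)

theorem double_FP {W : Finset α} {v : α} (hv : v ∈ W) :
    FP (dG H W v) (dW H W v) = 2 * FP H W - y * FP H (lk H W v) := by
  rw [dG, dW, FP_glue (double_data hv), FP_sec, FP_sec,
    lk_image (f := sec g₁) (fun a _ b _ => sec_adj g₁ a b) hv, FP_sec]
  ring

theorem FP_congr {H' : SimpleGraph α} {W : Finset α}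
    (hc : ∀ x ∈ W, ∀ z ∈ W, H.Adj x z ↔ H'.Adj x z) : FP H W = FP H' W := by
  rw [FP, FP, cl_congr hc]

/-- the two copies of a vertex which is not adjacent to `v` -/
theorem double_copies {W : Finset α} {v w : α} (hv : v ∈ W) (hw : w ∈ W) (hvw : v ≠ w) (hna : ¬ H.Adj v w) :
    ∃ p ∈ dW H W v, ∃ q ∈ dW H W v, p ≠ q ∧ ¬ (dG H W v).Adj p q ∧
      FP (dG H W v) (lk (dG H W v) (dW H W v) p) = FP H (lk H W w) ∧
      FP (dG H W v) (lk (dG H W v) (dW H W v) q) = FP H (lk H W w) := by
  classical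
  have hwL : w ∉ lk H W v := fun h => hna (mem_lk.1 h).2
  have hD := double_data (H := H) hv
  have e2 : g₂ (lk H W v) w = true := by
    rw [g₂]
    simpa using hwL
  have hp1 : sec g₁ w ∈ (W.image (sec g₁)).erase (sec g₁ v) :=
    Finset.mem_erase.2 ⟨fun h => hvw (sec_eq_iff.1 h).1.symm, Finset.mem_image_of_mem _ hw⟩
  have hp2 : sec g₁ w ∉ (W.image (sec (g₂ (lk H W v)))).erase (sec (g₂ (lk H W v)) v) := by
    intro h
    obtain ⟨b, hb, hbw⟩ := Finset.mem_image.1 (Finset.mem_of_mem_erase h)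
    rw [sec_eq_iff] at hbw
    obtain ⟨rfl, h3⟩ := hbw
    rw [e2, g₁] at h3
    exact Bool.noConfusion h3
  have hq1 : sec (g₂ (lk H W v)) w ∈ (W.image (sec (g₂ (lk H W v)))).erase (sec (g₂ (lk H W v)) v) :=
    Finset.mem_erase.2 ⟨fun h => hvw (sec_eq_iff.1 h).1.symm, Finset.mem_image_of_mem _ hw⟩
  have hq2 : sec (g₂ (lk H W v)) w ∉ (W.image (sec g₁)).erase (sec g₁ v) := by
    intro h
    obtain ⟨b, hb, hbw⟩ := Finset.mem_image.1 (Finset.mem_of_mem_erase h)
    rw [sec_eq_iff] at hbw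
    obtain ⟨rfl, h3⟩ := hbw
    rw [e2, g₁] at h3
    exact Bool.noConfusion h3
  refine ⟨sec g₁ w, Finset.mem_union_left _ hp1, sec (g₂ (lk H W v)) w, Finset.mem_union_right _ hq1, ?_, ?_, ?_, ?_⟩
  · intro h
    rw [sec_eq_iff, e2, g₁] at h
    exact Bool.noConfusion h.2
  · intro h
    exact (show H.Adj w w from h.1).ne rfl
  · rw [dW, dG, lk_glue_one hp1 hp2, hD.lk_one hp1 hp2]
    have h3 : lk (up H) (W.image (sec g₁)) (sec g₁ w) = (lk H W w).image (sec g₁) :=
      lk_image (f := sec g₁) (fun a _ b _ => sec_adj g₁ a b) hw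
    rw [← FP_sec (H := H) (W := lk H W w) g₁, ← h3]
    symm
    refine FP_congr (fun x hx z hz => ?_)
    rw [← hD.lk_one hp1 hp2, mem_lk] at hx hz
    rw [glueG_adj]
    tauto
  · rw [dW, dG, glueG_comm, Finset.union_comm, lk_glue_one hq1 hq2, hD.symm.lk_one hq1 hq2]
    have h3 : lk (up H) (W.image (sec (g₂ (lk H W v)))) (sec (g₂ (lk H W v)) w) =
        (lk H W w).image (sec (g₂ (lk H W v))) :=
      lk_image (f := sec (g₂ (lk H W v))) (fun a _ b _ => sec_adj (g₂ (lk H W v)) a b) hw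
    rw [← FP_sec (H := H) (W := lk H W w) (g₂ (lk H W v)), ← h3]
    symm
    refine FP_congr (fun x hx z hz => ?_)
    rw [← hD.symm.lk_one hq1 hq2, mem_lk] at hx hz
    rw [glueG_adj]
    tauto

/-! ### Relabelling with `Fin m` -/

/-- there is a flag homology sphere of rank `d` over `k` with face polynomial `P` and two nonadjacent vertices with
links of face polynomials `Q` and `Q'` -/
def Rz (k : Type) [Field k] (d : ℕ) (P Q Q' : ℤ[X]) : Prop :=
  ∃ (n : ℕ) (H : SimpleGraph (Fin n)) (W : Finset (Fin n)), NP H d W ∧ HS k H d W ∧ FP H W = P ∧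
    ∃ v ∈ W, ∃ w ∈ W, v ≠ w ∧ ¬ H.Adj v w ∧ FP H (lk H W v) = Q ∧ FP H (lk H W w) = Q'

theorem rz_of {d : ℕ} {W : Finset α} (hN : NP H d W) (hS : HS k H d W) {v w : α} (hv : v ∈ W) (hw : w ∈ W)
    (hvw : v ≠ w) (hna : ¬ H.Adj v w) : Rz k d (FP H W) (FP H (lk H W v)) (FP H (lk H W w)) := by
  classical
  let e := (Fintype.orderIsoFinOfCardEq α (rfl : Fintype.card α = Fintype.card α)).symm
  let H' : SimpleGraph (Fin (Fintype.card α)) := H.comap e.symm
  have hmono : StrictMono e := e.strictMono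
  have hadj : ∀ a b : α, H.Adj a b ↔ H'.Adj (e a) (e b) := by
    intro a b
    change H.Adj a b ↔ H.Adj (e.symm (e a)) (e.symm (e b))
    rw [e.symm_apply_apply, e.symm_apply_apply]
  have hFP : ∀ X : Finset α, FP H' (X.image e) = FP H X := fun X =>
    Pool.Agent.TH709.GG.FP_image hmono.injective.injOn (fun a _ b _ => hadj a b)
  refine ⟨Fintype.card α, H', W.image e, NP_image hmono.injective.injOn (fun a _ b _ => hadj a b) hN,
    HS_image (hmono.strictMonoOn _) (fun a _ b _ => hadj a b) hS, hFP W, e v, Finset.mem_image_of_mem _ hv,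
    e w, Finset.mem_image_of_mem _ hw, fun h => hvw (hmono.injective h), fun h => hna ((hadj v w).2 h), ?_, ?_⟩
  · rw [lk_image (f := e) (fun a _ b _ => hadj a b) hv, hFP]
  · rw [lk_image (f := e) (fun a _ b _ => hadj a b) hw, hFP]

theorem rz_double {d : ℕ} {P Q Q' : ℤ[X]} (h : Rz k d P Q Q') : Rz k d (2 * P - y * Q) Q' Q' := by
  obtain ⟨n, H, W, hN, hS, hP, v, hv, w, hw, hvw, hna, hQ, hQ'⟩ := h
  obtain ⟨p, hp, q, hq, hpq, hnpq, h1, h2⟩ := double_copies hv hw hvw hna
  have := rz_of (double_np hv hN) (double_hs hv hN hS) hp hq hpq hnpq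
  rwa [double_FP hv, h1, h2, hP, hQ, hQ'] at this

theorem rz_iter {d : ℕ} {P Q Q' : ℤ[X]} (h : Rz k d P Q Q') (m : ℕ) :
    Rz k d (2 ^ m * (2 * P - y * Q - y * Q') + y * Q') Q' Q' := by
  induction m with
  | zero =>
    have := rz_double h
    rwa [show 2 ^ 0 * (2 * P - y * Q - y * Q') + y * Q' = 2 * P - y * Q by ring]
  | succ m ih =>
    have := rz_double ih
    rwa [show 2 * (2 ^ m * (2 * P - y * Q - y * Q') + y * Q') - y * Q' =
      2 ^ (m + 1) * (2 * P - y * Q - y * Q') + y * Q' by ring] at this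

end Pool.Agent.Q250.GL
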