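import Pool.Agent.Q250.GL.Double
import Pool.Agent.TH709.GG.Sph3
import Pool.Agent.TH417.Gal.F

set_option autoImplicit false
set_option linter.unusedSectionVars false
set_option linter.unusedVariables false

/-!
# Gamma-vectors of iterated doubles
-/

namespace Pool.Agent.Q250.GL

open Pool.Agent.W497.FS Finset Polynomial

variable {k : Type} [Field k]

/-- the gamma expansion -/
noncomputable def gexp (d : ℕ) (a : ℕ → ℤ) : ℤ[X] :=
  ∑ i ∈ Finset.range (d / 2 + 1), C (a i) * w ^ i * y ^ (d - 2 * i)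

/-- truncation of a sequence -/
def tr (d : ℕ) (a : ℕ → ℤ) (i : ℕ) : ℤ := if i ≤ d / 2 then a i else 0

theorem gexp_congr {d : ℕ} {a b : ℕ → ℤ} (h : ∀ i ≤ d / 2, a i = b i) : gexp d a = gexp d b := by
  refine Finset.sum_congr rfl (fun i hi => ?_)
  rw [h i (by rw [Finset.mem_range] at hi; omega)]

theorem gexp_add {d : ℕ} (a b : ℕ → ℤ) : gexp d (fun i => a i + b i) = gexp d a + gexp d b := by
  rw [gexp, gexp, gexp, ← Finset.sum_add_distrib]
  refine Finset.sum_congr rfl (fun i hi => ?_)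
  rw [C_add]
  ring

theorem gexp_smul {d : ℕ} (c : ℤ) (a : ℕ → ℤ) : gexp d (fun i => c * a i) = C c * gexp d a := by
  rw [gexp, gexp, Finset.mul_sum]
  refine Finset.sum_congr rfl (fun i hi => ?_)
  rw [C_mul]
  ring

/-- suspension -/
theorem y_mul_gexp {d : ℕ} (a : ℕ → ℤ) : y * gexp d a = gexp (d + 1) (tr d a) := by
  rw [gexp, gexp, Finset.mul_sum]
  have h1 : Finset.range (d / 2 + 1) ⊆ Finset.range ((d + 1) / 2 + 1) := by
    intro i hi
    rw [Finset.mem_range] at hi ⊢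
    omega
  rw [← Finset.sum_subset h1]
  · refine Finset.sum_congr rfl (fun i hi => ?_)
    rw [Finset.mem_range] at hi
    rw [tr, if_pos (by omega), show d + 1 - 2 * i = (d - 2 * i) + 1 by omega]
    ring
  · intro i hi hi'
    rw [Finset.mem_range] at hi hi'
    rw [tr, if_neg (by omega), C_0, zero_mul, zero_mul]

variable {n d : ℕ} {S : Finset (Finset (Fin n))}

theorem hs_of (hS : IsFlagSphere k d S) : HS k (skel S) d (vert S) := by
  obtain ⟨r, hr⟩ := hS
  exact Pool.Agent.W216.FS.HR.main Pool.Agent.W216.FS.BB.main k n d S r hr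

theorem FP_gexp (hS : IsFlagSphere k d S) {γ : ℕ → ℤ} (hγ : IsGamma d S γ) :
    FP (skel S) (vert S) = gexp d γ := by
  obtain ⟨a, ha⟩ := Pool.Agent.TH709.GG.F3.ep_FP_exp (Pool.Agent.TH709.GG.F3.ep_of_np hS.np hS.eul)
    (σ := ∅) empty_mem_cl
  rw [lkF_empty'', Finset.card_empty, Nat.sub_zero] at ha
  rw [ha]
  exact (gexp_congr (hS.gamma_eq hγ ha)).symm

/-- the converse -/
theorem gamma_of {H : SimpleGraph (Fin n)} {W : Finset (Fin n)} (hN : NP H d W) (hH : HS k H d W)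
    {a : ℕ → ℤ} (ha : FP H W = gexp d a) :
    IsFlagSphere k d (cl H W) ∧ IsGamma d (cl H W) a ∧ numVert (cl H W) = W.card := by
  have hS := isFlagSphere_of hN hH
  refine ⟨hS, ?_, ?_⟩
  · have h1 : FP (skel (cl H W)) (vert (cl H W)) = FP H W := by
      rw [FP, FP, hS.cl_eq]
    rw [ha, hS.FP_eq] at h1
    exact Pool.Agent.TH709.GG.h_of_f _ _ a h1
  · rw [numVert_eq]
    congr 1
    ext v
    rw [mem_vert]
    exact ⟨fun h => (mem_cl.1 h).1 (Finset.mem_singleton_self v), singleton_mem_cl⟩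

theorem FP_gexp' {H : SimpleGraph (Fin n)} {W : Finset (Fin n)} (hN : NP H d W) (hH : HS k H d W)
    {a : ℕ → ℤ} (ha : IsGamma d (cl H W) a) : FP H W = gexp d a := by
  have hS := isFlagSphere_of hN hH
  have h1 : FP (skel (cl H W)) (vert (cl H W)) = FP H W := by
    rw [FP, FP, hS.cl_eq]
  rw [← h1]
  exact FP_gexp hS ha

theorem link_eq (hS : IsFlagSphere k d S) {v : Fin n} (hv : v ∈ vert S) :
    link S {v} = cl (skel S) (lk (skel S) (vert S) v) := by
  conv_lhs => rw [← hS.cl_eq]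
  rw [link_cl (singleton_mem_cl hv), lkF_singleton]

theorem FP_link (hS : IsFlagSphere k (d + 1) S) {v : Fin n} (hv : v ∈ vert S) {a : ℕ → ℤ}
    (ha : IsGamma d (link S {v}) a) : FP (skel S) (lk (skel S) (vert S) v) = gexp d a := by
  rw [link_eq hS hv] at ha
  exact FP_gexp' (hS.np.lk hv) ((hs_of hS).lk hv) ha

theorem link_sphere (hS : IsFlagSphere k (d + 1) S) {v : Fin n} (hv : v ∈ vert S) :
    IsFlagSphere k d (link S {v}) := by
  rw [link_eq hS hv]
  exact isFlagSphere_of (hS.np.lk hv) ((hs_of hS).lk hv)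

/-- a gamma vector exists -/
theorem exists_gamma (hS : IsFlagSphere k d S) : ∃ γ : ℕ → ℤ, IsGamma d S γ := by
  have h0 : (∅ : Finset (Fin n)) ∈ S := by
    have := hS.cl_eq
    rw [← this]
    exact empty_mem_cl
  obtain ⟨g, hg, -⟩ := Pool.Agent.TH709.GG.F3.exists_g hS ∅ h0
  rw [Finset.card_empty, Nat.sub_zero] at hg
  refine ⟨g, ?_⟩
  have : link S ∅ = S := by
    ext G
    rw [link, Finset.mem_filter, Finset.union_empty]
    exact ⟨fun h => h.1, fun h => ⟨h, Finset.disjoint_empty_right _, h⟩⟩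
  rwa [this] at hg

theorem gamma_unique (hS : IsFlagSphere k d S) {γ γ' : ℕ → ℤ} (h : IsGamma d S γ) (h' : IsGamma d S γ') :
    ∀ i ≤ d / 2, γ i = γ' i := by
  have h1 := FP_gexp hS h
  rw [FP_gexp hS h'] at h1
  intro i hi
  exact (Pool.Agent.TH709.GG.exp_unique h1 i hi).symm

/-- **the iterated doubles** -/
theorem doubles (hS : IsFlagSphere k (d + 1) S) {γ : ℕ → ℤ} (hγ : IsGamma (d + 1) S γ) {v u : Fin n}
    (hv : v ∈ vert S) (hu : u ∈ vert S) (hvu : v ≠ u) (hna : ¬ (skel S).Adj v u) {a b : ℕ → ℤ}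
    (ha : IsGamma d (link S {v}) a) (hb : IsGamma d (link S {u}) b) (m : ℕ) :
    ∃ (n' : ℕ) (T : Finset (Finset (Fin n'))), IsFlagSphere k (d + 1) T ∧
      IsGamma (d + 1) T (fun i => 2 ^ m * (2 * γ i - tr d a i - tr d b i) + tr d b i) ∧
      numVert T ≤ 2 ^ (m + 1) * numVert S := by
  have hR : Rz k (d + 1) (gexp (d + 1) γ) (gexp d a) (gexp d b) :=
    ⟨n, skel S, vert S, hS.np, hs_of hS, FP_gexp hS hγ, v, hv, u, hu, hvu, hna, FP_link hS hv ha,
      FP_link hS hu hb⟩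
  obtain ⟨n', H, W, hN, hH, hP, v', hv', u', hu', -, -, -, hQ⟩ := rz_iter hR m
  have he : 2 ^ m * (2 * gexp (d + 1) γ - y * gexp d a - y * gexp d b) + y * gexp d b =
      gexp (d + 1) (fun i => 2 ^ m * (2 * γ i - tr d a i - tr d b i) + tr d b i) := by
    rw [y_mul_gexp, y_mul_gexp]
    have e1 : (fun i => 2 ^ m * (2 * γ i - tr d a i - tr d b i) + tr d b i) =
        fun i => (fun i => 2 ^ m * ((fun i => 2 * γ i + ((fun i => (-1) * tr d a i + (-1) * tr d b i) i)) i)) i +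
          tr d b i := by
      funext i
      ring
    rw [e1, gexp_add, gexp_smul, gexp_add, gexp_smul, gexp_add, gexp_smul, gexp_smul]
    simp only [C_neg, C_1, C_pow, C_ofNat]
    push_cast
    ring
  rw [he] at hP
  obtain ⟨h1, h2, h3⟩ := gamma_of hN hH hP
  refine ⟨n', cl H W, h1, h2, ?_⟩
  rw [h3]
  -- the number of vertices
  have c1 := congrArg (fun p => p.coeff 1) (hP.trans he.symm)
  have hy : ∀ p : ℤ[X], (y * p).coeff 1 = p.coeff 1 + 2 * p.coeff 0 := by
    intro p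
    rw [y, add_mul, one_mul, coeff_add, mul_assoc, show (2 : ℤ[X]) = C 2 by simp, coeff_C_mul, coeff_X_mul]
  have hC : ∀ (c : ℕ) (p : ℤ[X]), (2 ^ c * p).coeff 1 = 2 ^ c * p.coeff 1 := by
    intro c p
    rw [show (2 : ℤ[X]) ^ c = C (2 ^ c) by simp, coeff_C_mul]
  have hC1 : ∀ (p : ℤ[X]), (2 * p).coeff 1 = 2 * p.coeff 1 := by
    intro p
    have := hC 1 p
    simpa using this
  have k0 := FP_gexp hS hγ
  have k1 := FP_link hS hv ha
  have k2 := FP_link hS hu hb
  simp only [coeff_add, coeff_sub, hC, hC1, hy] at c1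
  rw [← k0, ← k1, ← k2, Pool.Agent.TH417.Gal.FP_coeff_one, Pool.Agent.TH417.Gal.FP_coeff_one,
    Pool.Agent.TH417.Gal.FP_coeff_one, Pool.Agent.TH417.Gal.FP_coeff_one, Pool.Agent.TH417.Gal.FP_coeff_zero,
    Pool.Agent.TH417.Gal.FP_coeff_zero] at c1
  have e3 : (numVert S : ℤ) = (vert S).card := by exact_mod_cast numVert_eq
  have hp : (1 : ℤ) ≤ 2 ^ m := one_le_pow₀ (by norm_num)
  have q1 : (0 : ℤ) ≤ (lk (skel S) (vert S) v).card := Nat.cast_nonneg _
  have q2 : (0 : ℤ) ≤ (lk (skel S) (vert S) u).card := Nat.cast_nonneg _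
  have : (W.card : ℤ) ≤ 2 ^ (m + 1) * numVert S := by
    rw [c1, e3, pow_succ]
    nlinarith [mul_nonneg (sub_nonneg.2 hp) q2, mul_nonneg (by linarith : (0 : ℤ) ≤ 2 ^ m) q1]
  exact_mod_cast this

end Pool.Agent.Q250.GL
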