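import Pool.Agent.Q250.GL.Image
import Pool.Agent.W497.FS.Glue
import Pool.Agent.W497.FS.Final
import Pool.Agent.W216.FS.BB

set_option autoImplicit false
set_option linter.unusedSectionVars false

/-!
# Gluing of flag homology spheres along the links of two vertices
-/

namespace Pool.Agent.Q250.GL

open Pool.Agent.W497.FS Finset

variable {k : Type} [Field k] {α : Type} [LinearOrder α] [Fintype α] {H : SimpleGraph α}

theorem bdbd (c : Finset α → k) : bd (bd c) = 0 := Pool.Agent.W216.FS.BB.main k α c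

theorem bd_neg' (c : Finset α → k) : bd (-c) = - bd c := by
  have := bd_smul (-1 : k) c
  simpa using this

theorem bd_sub' (b c : Finset α → k) : bd (b - c) = bd b - bd c := by
  rw [sub_eq_add_neg, bd_add, bd_neg', ← sub_eq_add_neg]

theorem On.neg {X : Finset α} {j : ℕ} {c : Finset α → k} (hc : On H X j c) : On H X j (-c) := by
  intro A hA
  exact hc A (fun h => hA (by rw [Pi.neg_apply, h, neg_zero]))

theorem On.sub {X : Finset α} {j : ℕ} {b c : Finset α → k} (hb : On H X j b) (hc : On H X j c) :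
    On H X j (b - c) := by
  rw [sub_eq_add_neg]
  exact hb.add (On.neg hc)

/-- the boundary of a chain on `X` is a chain on `X` -/
theorem On.bd {X : Finset α} {j : ℕ} {c : Finset α → k} (h : On H X (j + 1) c) : On H X j (bd c) := by
  intro A hA
  rw [Pool.Agent.W497.FS.bd] at hA
  obtain ⟨v, hv, hne⟩ := Finset.exists_ne_zero_of_sum_ne_zero hA
  have hv' := Finset.mem_compl.1 hv
  obtain ⟨h1, h2⟩ := h (insert v A) (fun h => hne (by rw [h, mul_zero]))
  rw [Finset.card_insert_of_notMem hv'] at h2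
  obtain ⟨h3, h4⟩ := mem_cl.1 h1
  exact ⟨mem_cl.2 ⟨(Finset.subset_insert _ _).trans h3, fun x hx y hy =>
    h4 x (Finset.mem_insert_of_mem hx) y (Finset.mem_insert_of_mem hy)⟩, by omega⟩

theorem on_inter {K₁ K₂ : Finset α} {j : ℕ} {c : Finset α → k} (h1 : On H K₁ j c) (h2 : On H K₂ j c) :
    On H (K₁ ∩ K₂) j c := by
  intro A hA
  obtain ⟨a1, a2⟩ := h1 A hA
  obtain ⟨b1, -⟩ := h2 A hA
  exact ⟨mem_cl.2 ⟨Finset.subset_inter (mem_cl.1 a1).1 (mem_cl.1 b1).1, (mem_cl.1 a1).2⟩, a2⟩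

theorem on_glue_left {K₁ K₂ : Finset α} {j : ℕ} {c : Finset α → k} (h : On H K₁ j c) :
    On (glueG H K₁ K₂) (K₁ ∪ K₂) j c := by
  intro A hA
  obtain ⟨h1, h2⟩ := h A hA
  refine ⟨?_, h2⟩
  rw [cl_glue]
  exact Finset.mem_union_left _ h1

theorem on_glue_right {K₁ K₂ : Finset α} {j : ℕ} {c : Finset α → k} (h : On H K₂ j c) :
    On (glueG H K₁ K₂) (K₁ ∪ K₂) j c := by
  intro A hA
  obtain ⟨h1, h2⟩ := h A hA
  refine ⟨?_, h2⟩
  rw [cl_glue]
  exact Finset.mem_union_right _ h1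

/-- Mayer-Vietoris -/
theorem Ex_glue {K₁ K₂ : Finset α} {j : ℕ} (h1 : Ex k H K₁ (j + 1)) (h2 : Ex k H K₂ (j + 1))
    (h0 : Ex k H (K₁ ∩ K₂) j) : Ex k (glueG H K₁ K₂) (K₁ ∪ K₂) (j + 1) := by
  classical
  intro c hc hb
  set c₁ : Finset α → k := fun A => if A ⊆ K₁ then c A else 0 with hc₁
  set c₂ : Finset α → k := fun A => if A ⊆ K₁ then 0 else c A with hc₂
  have hsum : c = c₁ + c₂ := by
    funext A
    rw [Pi.add_apply, hc₁, hc₂]
    by_cases h : A ⊆ K₁
    · simp [h]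
    · simp [h]
  have ho1 : On H K₁ (j + 1) c₁ := by
    intro A hA
    rw [hc₁] at hA
    by_cases h : A ⊆ K₁
    · simp only [if_pos h] at hA
      obtain ⟨a1, a2⟩ := hc A hA
      refine ⟨mem_cl.2 ⟨h, fun x hx y hy hxy => ((mem_cl.1 a1).2 x hx y hy hxy).1⟩, a2⟩
    · simp only [if_neg h] at hA
      exact absurd rfl hA
  have ho2 : On H K₂ (j + 1) c₂ := by
    intro A hA
    rw [hc₂] at hA
    by_cases h : A ⊆ K₁
    · simp only [if_pos h] at hA
      exact absurd rfl hA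
    · simp only [if_neg h] at hA
      obtain ⟨a1, a2⟩ := hc A hA
      rw [cl_glue] at a1
      refine ⟨(Finset.mem_union.1 a1).resolve_left (fun h3 => h (mem_cl.1 h3).1), a2⟩
  have hbb : bd c₂ = - bd c₁ := by
    have := hb
    rw [hsum, bd_add] at this
    exact (neg_eq_of_add_eq_zero_right this).symm
  have he : On H (K₁ ∩ K₂) j (bd c₁) := by
    refine on_inter (On.bd ho1) ?_
    have : bd c₁ = - bd c₂ := by rw [hbb, neg_neg]
    rw [this]
    exact On.neg (On.bd ho2)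
  obtain ⟨b, hbo, hbe⟩ := h0 _ he (bdbd _)
  obtain ⟨b₁, hb₁, hb₁e⟩ := h1 (c₁ - b) (On.sub ho1 (hbo.mono Finset.inter_subset_left))
    (by rw [bd_sub', hbe, sub_self])
  obtain ⟨b₂, hb₂, hb₂e⟩ := h2 (c₂ + b) (ho2.add (hbo.mono Finset.inter_subset_right))
    (by rw [bd_add, hbe, hbb, neg_add_cancel])
  refine ⟨b₁ + b₂, (on_glue_left hb₁).add (on_glue_right hb₂), ?_⟩
  rw [bd_add, hb₁e, hb₂e, hsum]
  abel

theorem Ex_glue_zero {K₁ K₂ : Finset α} (h1 : Ex k H K₁ 0) : Ex k (glueG H K₁ K₂) (K₁ ∪ K₂) 0 := by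
  intro c hc hb
  have : On H K₁ 0 c := by
    intro A hA
    obtain ⟨-, a2⟩ := hc A hA
    rw [Finset.card_eq_zero] at a2
    subst a2
    exact ⟨empty_mem_cl, rfl⟩
  obtain ⟨b, hb1, hb2⟩ := h1 c this hb
  exact ⟨b, on_glue_left hb1, hb2⟩

theorem top_glue {K₁ K₂ : Finset α} {m : ℕ} (h1 : Ex k H K₁ m) (h2 : Ex k H K₂ m)
    (h0 : ∃ z : Finset α → k, On H (K₁ ∩ K₂) m z ∧ bd z = 0 ∧ z ≠ 0)
    (hm : ∀ σ ∈ cl H (K₁ ∩ K₂), σ.card ≤ m) :
    ∃ z : Finset α → k, On (glueG H K₁ K₂) (K₁ ∪ K₂) (m + 1) z ∧ bd z = 0 ∧ z ≠ 0 := by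
  obtain ⟨z, hz, hz0, hne⟩ := h0
  obtain ⟨a, ha, hae⟩ := h1 z (hz.mono Finset.inter_subset_left) hz0
  obtain ⟨b, hb, hbe⟩ := h2 z (hz.mono Finset.inter_subset_right) hz0
  refine ⟨a - b, On.sub (on_glue_left ha) (on_glue_right hb), by rw [bd_sub', hae, hbe, sub_self], ?_⟩
  intro h
  have hab : a = b := sub_eq_zero.1 h
  rw [← hab] at hb
  have hi := on_inter ha hb
  apply hne
  have ha0 : a = 0 := by
    funext A
    by_contra hA
    obtain ⟨h3, h4⟩ := hi A hA
    have := hm A h3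
    omega
  rw [← hae, ha0, bd_zero]

/-- the recursive form of the definition -/
theorem HS_succ {d : ℕ} {W : Finset α} (h1 : ∀ j, j < d + 1 → Ex k H W j)
    (h2 : ∃ z : Finset α → k, On H W (d + 1) z ∧ bd z = 0 ∧ z ≠ 0)
    (h3 : ∀ v ∈ W, HS k H d (lk H W v)) : HS k H (d + 1) W := by
  have hdec : ∀ κ ∈ cl H W, κ ≠ ∅ → ∃ v ∈ W, ∃ κ' ∈ cl H (lk H W v), κ = insert v κ' ∧ v ∉ κ' := by
    intro κ hκ hne
    obtain ⟨v, hv⟩ := Finset.nonempty_iff_ne_empty.2 hne
    obtain ⟨a1, a2⟩ := mem_cl.1 hκ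
    refine ⟨v, a1 hv, κ.erase v, mem_cl.2 ⟨fun x hx => mem_lk.2 ⟨a1 (Finset.mem_of_mem_erase hx),
      a2 v hv x (Finset.mem_of_mem_erase hx) (Finset.ne_of_mem_erase hx).symm⟩,
      fun x hx y hy => a2 x (Finset.mem_of_mem_erase hx) y (Finset.mem_of_mem_erase hy)⟩,
      (Finset.insert_erase hv).symm, Finset.notMem_erase v κ⟩
  constructor
  · intro κ hκ j hj
    by_cases hne : κ = ∅
    · subst hne
      rw [lkF_empty'']
      exact h1 j (by simpa using hj)
    · obtain ⟨v, hv, κ', hκ', rfl, hn⟩ := hdec κ hκ hne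
      rw [← lkF_insert']
      rw [Finset.card_insert_of_notMem hn] at hj
      exact (h3 v hv).ex κ' hκ' j (by omega)
  · intro κ hκ
    by_cases hne : κ = ∅
    · subst hne
      rw [lkF_empty'']
      simpa using h2
    · obtain ⟨v, hv, κ', hκ', rfl, hn⟩ := hdec κ hκ hne
      rw [← lkF_insert', Finset.card_insert_of_notMem hn, show d + 1 - (κ'.card + 1) = d - κ'.card by omega]
      exact (h3 v hv).top κ' hκ'

theorem HS_congr {H' : SimpleGraph α} {d : ℕ} {W : Finset α}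
    (hadj : ∀ a ∈ W, ∀ b ∈ W, H.Adj a b ↔ H'.Adj a b) (h : HS k H d W) : HS k H' d W := by
  have := HS_image (f := (id : α → α)) (strictMono_id.strictMonoOn _) hadj h
  rwa [Finset.image_id] at this

/-- **gluing flag homology spheres** -/
theorem HS_glue {r : ℕ} {X₁ X₂ : Finset α} {c₁ c₂ : α}
    (h : GlueData H X₁ X₂ c₁ c₂) (h1 : NP H r X₁) (h2 : NP H r X₂) (s1 : HS k H r X₁) (s2 : HS k H r X₂) :
    HS k (glueG H (X₁.erase c₁) (X₂.erase c₂)) r (X₁.erase c₁ ∪ X₂.erase c₂) := by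
  induction r generalizing X₁ X₂ with
  | zero =>
    have h0 : X₁ = ∅ := h1
    have := h.mem₁
    rw [h0] at this
    exact absurd this (Finset.notMem_empty _)
  | succ r ih =>
    have hl := (s1.lk h.mem₁).ex ∅ empty_mem_cl
    have hlt := (s1.lk h.mem₁).top ∅ empty_mem_cl
    rw [lkF_empty'', h.lk₁] at hl hlt
    rw [Finset.card_empty, Nat.sub_zero] at hlt
    refine HS_succ ?_ ?_ ?_
    · intro j hj
      rcases j with _ | j
      · exact Ex_glue_zero (s1.erase h1 h.mem₁ 0)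
      · exact Ex_glue (s1.erase h1 h.mem₁ _) (s2.erase h2 h.mem₂ _) (hl j (by simpa using hj))
    · refine top_glue (s1.erase h1 h.mem₁ _) (s2.erase h2 h.mem₂ _) hlt (fun σ hσ => ?_)
      rw [← h.lk₁] at hσ
      exact (h1.lk h.mem₁).card_le hσ
    · intro u hu
      by_cases hu1 : u ∈ X₁.erase c₁
      · by_cases hu2 : u ∈ X₂.erase c₂
        · obtain ⟨hg, e1, e2⟩ := h.link hu1 hu2
          have := ih hg (h1.lk (Finset.mem_of_mem_erase hu1))
            (h2.lk (Finset.mem_of_mem_erase hu2)) (s1.lk (Finset.mem_of_mem_erase hu1))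
            (s2.lk (Finset.mem_of_mem_erase hu2))
          rw [e1, e2] at this
          rw [lk_glue_both hu1 hu2]
          refine HS_congr (fun x hx z hz => ?_) this
          simp only [glueG_adj, Finset.mem_union, mem_lk] at hx hz ⊢
          tauto
        · rw [lk_glue_one hu1 hu2, h.lk_one hu1 hu2]
          refine HS_congr (fun x hx z hz => ?_) (s1.lk (Finset.mem_of_mem_erase hu1))
          rw [← h.lk_one hu1 hu2, mem_lk] at hx hz
          rw [glueG_adj]
          tauto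
      · have hu2 : u ∈ X₂.erase c₂ := (Finset.mem_union.1 hu).resolve_left hu1
        rw [glueG_comm, Finset.union_comm, lk_glue_one hu2 hu1, h.symm.lk_one hu2 hu1]
        refine HS_congr (fun x hx z hz => ?_) (s2.lk (Finset.mem_of_mem_erase hu2))
        rw [← h.symm.lk_one hu2 hu1, mem_lk] at hx hz
        rw [glueG_adj]
        tauto

end Pool.Agent.Q250.GL
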