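import Pool.Agent.W497.FS.Acyc
import Pool.Agent.TH709.GG.Core

set_option autoImplicit false
set_option linter.unusedSectionVars false

/-!
# Transport of flag homology spheres along monotone maps

`f` is strictly monotone on the vertex set `W` and preserves and reflects adjacency there; then the homology
conditions `HS` and `NP` pass from `W` to its image.
-/

namespace Pool.Agent.Q250.GL

open Pool.Agent.W497.FS Finset

section Image

variable {k : Type} [Field k] {α β : Type} [LinearOrder α] [Fintype α] [LinearOrder β] [Fintype β]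
  {H : SimpleGraph α} {H' : SimpleGraph β} {f : α → β}

/-- the vertices of `W` with image in `B` -/
def pre (f : α → β) (W : Finset α) (B : Finset β) : Finset α := W.filter (fun a => f a ∈ B)

theorem pre_image {W A : Finset α} (hf : Set.InjOn f W) (hA : A ⊆ W) : pre f W (A.image f) = A := by
  ext a
  rw [pre, Finset.mem_filter, Finset.mem_image]
  constructor
  · rintro ⟨h1, b, hb, hab⟩
    rwa [← hf (hA hb) h1 hab]
  · exact fun h => ⟨hA h, a, h, rfl⟩

theorem image_pre {W : Finset α} {B : Finset β} (hB : B ⊆ W.image f) : (pre f W B).image f = B := by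
  ext b
  rw [Finset.mem_image]
  constructor
  · rintro ⟨a, ha, rfl⟩
    exact (Finset.mem_filter.1 ha).2
  · intro hb
    obtain ⟨a, ha, rfl⟩ := Finset.mem_image.1 (hB hb)
    exact ⟨a, Finset.mem_filter.2 ⟨ha, hb⟩, rfl⟩

open Classical in
/-- transport of a chain to the image -/
noncomputable def push (f : α → β) (W : Finset α) (c : Finset α → k) : Finset β → k :=
  fun B => if B ⊆ W.image f then c (pre f W B) else 0

open Classical in
/-- transport of a chain from the image -/
noncomputable def pull (f : α → β) (W : Finset α) (c : Finset β → k) : Finset α → k :=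
  fun A => if A ⊆ W then c (A.image f) else 0

theorem push_pull {W : Finset α} {c : Finset β → k} (hc : ∀ B, c B ≠ 0 → B ⊆ W.image f) :
    push f W (pull f W c) = c := by
  funext B
  rw [push]
  split_ifs with h
  · rw [pull, if_pos (show pre f W B ⊆ W from Finset.filter_subset _ _), image_pre h]
  · by_contra h'
    exact h (hc B (Ne.symm h'))

theorem push_zero {W : Finset α} : push f W (0 : Finset α → k) = 0 := by
  funext B
  rw [push]
  split_ifs <;> rfl

theorem push_inj {W : Finset α} (hf : Set.InjOn f W) {c c' : Finset α → k} (hc : ∀ A, c A ≠ 0 → A ⊆ W)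
    (hc' : ∀ A, c' A ≠ 0 → A ⊆ W) (h : push f W c = push f W c') : c = c' := by
  funext A
  by_cases hA : A ⊆ W
  · have := congrFun h (A.image f)
    rwa [push, push, if_pos (Finset.image_subset_image hA), if_pos (Finset.image_subset_image hA),
      pre_image hf hA] at this
  · have h1 : c A = 0 := by
      by_contra h2
      exact hA (hc A h2)
    have h2 : c' A = 0 := by
      by_contra h2
      exact hA (hc' A h2)
    rw [h1, h2]

theorem bd_supp {W : Finset α} {c : Finset α → k} (hc : ∀ A, c A ≠ 0 → A ⊆ W) :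
    ∀ A, bd c A ≠ 0 → A ⊆ W := by
  intro A hA
  rw [bd] at hA
  obtain ⟨v, hv, hne⟩ := Finset.exists_ne_zero_of_sum_ne_zero hA
  have h1 : c (insert v A) ≠ 0 := fun h => hne (by rw [h, mul_zero])
  exact (Finset.subset_insert v A).trans (hc _ h1)

theorem bd_push {W : Finset α} (hf : StrictMonoOn f W) {c : Finset α → k} (hc : ∀ A, c A ≠ 0 → A ⊆ W) :
    bd (push f W c) = push f W (bd c) := by
  classical
  have hinj : Set.InjOn f W := hf.injOn
  funext B
  by_cases hB : B ⊆ W.image f
  · rw [bd]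
    rw [show push f W (bd c) B = bd c (pre f W B) from if_pos hB, bd]
    have hpW : pre f W B ⊆ W := Finset.filter_subset _ _
    have e1 : ∑ a ∈ (pre f W B)ᶜ, sg k a (pre f W B) * c (insert a (pre f W B)) =
        ∑ a ∈ W \ pre f W B, sg k a (pre f W B) * c (insert a (pre f W B)) := by
      symm
      refine Finset.sum_subset (fun a ha => Finset.mem_compl.2 (Finset.mem_sdiff.1 ha).2) ?_
      intro a ha hna
      have haW : a ∉ W := fun h => hna (Finset.mem_sdiff.2 ⟨h, Finset.mem_compl.1 ha⟩)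
      have : c (insert a (pre f W B)) = 0 := by
        by_contra h
        exact haW (hc _ h (Finset.mem_insert_self _ _))
      rw [this, mul_zero]
    have e2 : ∑ b ∈ Bᶜ, sg k b B * push f W c (insert b B) =
        ∑ b ∈ (W.image f) \ B, sg k b B * push f W c (insert b B) := by
      symm
      refine Finset.sum_subset (fun a ha => Finset.mem_compl.2 (Finset.mem_sdiff.1 ha).2) ?_
      intro b hb hnb
      have hbW : b ∉ W.image f := fun h => hnb (Finset.mem_sdiff.2 ⟨h, Finset.mem_compl.1 hb⟩)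
      rw [push, if_neg, mul_zero]
      exact fun h => hbW (h (Finset.mem_insert_self _ _))
    rw [e1, e2]
    symm
    refine Finset.sum_bij (fun a _ => f a) ?_ ?_ ?_ ?_
    · intro a ha
      obtain ⟨h1, h2⟩ := Finset.mem_sdiff.1 ha
      refine Finset.mem_sdiff.2 ⟨Finset.mem_image_of_mem f h1, fun h => h2 (Finset.mem_filter.2 ⟨h1, h⟩)⟩
    · intro a ha b hb hab
      exact hinj (Finset.mem_sdiff.1 ha).1 (Finset.mem_sdiff.1 hb).1 hab
    · intro b hb
      obtain ⟨h1, h2⟩ := Finset.mem_sdiff.1 hb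
      obtain ⟨a, ha, rfl⟩ := Finset.mem_image.1 h1
      exact ⟨a, Finset.mem_sdiff.2 ⟨ha, fun h => h2 (Finset.mem_filter.1 h).2⟩, rfl⟩
    · intro a ha
      obtain ⟨h1, h2⟩ := Finset.mem_sdiff.1 ha
      have hsub : insert (f a) B ⊆ W.image f :=
        Finset.insert_subset (Finset.mem_image_of_mem f h1) hB
      rw [push, if_pos hsub]
      have e3 : pre f W (insert (f a) B) = insert a (pre f W B) := by
        ext x
        rw [pre, Finset.mem_filter, Finset.mem_insert, Finset.mem_insert, pre, Finset.mem_filter]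
        constructor
        · rintro ⟨hx, h | h⟩
          · exact Or.inl (hinj hx h1 h)
          · exact Or.inr ⟨hx, h⟩
        · rintro (rfl | ⟨hx, h⟩)
          · exact ⟨h1, Or.inl rfl⟩
          · exact ⟨hx, Or.inr h⟩
      rw [e3]
      congr 1
      rw [sg, sg]
      congr 1
      refine Finset.card_bij (fun x _ => f x) ?_ ?_ ?_
      · intro x hx
        obtain ⟨h3, h4⟩ := Finset.mem_filter.1 hx
        obtain ⟨h5, h6⟩ := Finset.mem_filter.1 h3
        exact Finset.mem_filter.2 ⟨h6, hf h5 h1 h4⟩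
      · intro x hx y hy hxy
        exact hinj (Finset.mem_filter.1 (Finset.mem_filter.1 hx).1).1
          (Finset.mem_filter.1 (Finset.mem_filter.1 hy).1).1 hxy
      · intro b hb
        obtain ⟨h3, h4⟩ := Finset.mem_filter.1 hb
        obtain ⟨x, hx, rfl⟩ := Finset.mem_image.1 (hB h3)
        exact ⟨x, Finset.mem_filter.2 ⟨Finset.mem_filter.2 ⟨hx, h3⟩, (hf.lt_iff_lt hx h1).1 h4⟩, rfl⟩
  · rw [show push f W (bd c) B = 0 from if_neg hB, bd]
    refine Finset.sum_eq_zero fun v hv => ?_
    rw [push, if_neg, mul_zero]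
    exact fun h => hB ((Finset.subset_insert _ _).trans h)

theorem On.subset {X : Finset α} {j : ℕ} {c : Finset α → k} (h : On H X j c) : ∀ A, c A ≠ 0 → A ⊆ X :=
  fun A hA => (mem_cl.1 (h A hA).1).1

theorem push_on {X : Finset α} (hf : Set.InjOn f X)
    (hadj : ∀ a ∈ X, ∀ b ∈ X, H.Adj a b ↔ H'.Adj (f a) (f b)) {j : ℕ} {c : Finset α → k}
    (hc : On H X j c) : On H' (X.image f) j (push f X c) := by
  intro B hB
  rw [push] at hB
  split_ifs at hB with h
  · obtain ⟨h1, h2⟩ := hc _ hB
    have h3 : pre f X B ⊆ X := Finset.filter_subset _ _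
    have h4 := (Pool.Agent.TH709.GG.cl_image hf hadj h3).2 h1
    rw [image_pre h] at h4
    refine ⟨h4, ?_⟩
    rw [← h2, ← image_pre h, pre_image hf h3,
      Finset.card_image_of_injOn (hf.mono (by exact_mod_cast h3))]
  · exact absurd rfl hB

theorem pull_on {X : Finset α} (hf : Set.InjOn f X)
    (hadj : ∀ a ∈ X, ∀ b ∈ X, H.Adj a b ↔ H'.Adj (f a) (f b)) {j : ℕ} {c : Finset β → k}
    (hc : On H' (X.image f) j c) : On H X j (pull f X c) := by
  intro A hA
  rw [pull] at hA
  split_ifs at hA with h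
  · obtain ⟨h1, h2⟩ := hc _ hA
    refine ⟨(Pool.Agent.TH709.GG.cl_image hf hadj h).1 h1, ?_⟩
    rwa [Finset.card_image_of_injOn (hf.mono (by exact_mod_cast h))] at h2
  · exact absurd rfl hA

theorem Ex_image {X : Finset α} (hf : StrictMonoOn f X)
    (hadj : ∀ a ∈ X, ∀ b ∈ X, H.Adj a b ↔ H'.Adj (f a) (f b)) {j : ℕ} (h : Ex k H X j) :
    Ex k H' (X.image f) j := by
  intro c hc h0
  have hinj : Set.InjOn f X := hf.injOn
  have hp := pull_on hinj hadj hc
  have e0 := push_pull (f := f) (W := X) (c := c) (On.subset hc)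
  have h1 : bd (pull f X c) = 0 := by
    refine push_inj (f := f) (W := X) hinj (bd_supp (On.subset hp)) (fun A hA => absurd rfl hA) ?_
    rw [← bd_push hf (On.subset hp), e0, h0, push_zero]
  obtain ⟨b, hb, hbc⟩ := h _ hp h1
  refine ⟨push f X b, push_on hinj hadj hb, ?_⟩
  rw [bd_push hf (On.subset hb), hbc, e0]

theorem top_image {X : Finset α} (hf : StrictMonoOn f X)
    (hadj : ∀ a ∈ X, ∀ b ∈ X, H.Adj a b ↔ H'.Adj (f a) (f b)) {m : ℕ}
    (h : ∃ z : Finset α → k, On H X m z ∧ bd z = 0 ∧ z ≠ 0) :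
    ∃ z : Finset β → k, On H' (X.image f) m z ∧ bd z = 0 ∧ z ≠ 0 := by
  have hinj : Set.InjOn f X := hf.injOn
  obtain ⟨z, hz, h0, hne⟩ := h
  refine ⟨push f X z, push_on hinj hadj hz, ?_, fun h => hne ?_⟩
  · rw [bd_push hf (On.subset hz), h0, push_zero]
  · refine push_inj (f := f) (W := X) hinj (On.subset hz) (fun A hA => absurd rfl hA) ?_
    rw [h, push_zero]

theorem HS_image {d : ℕ} {W : Finset α} (hf : StrictMonoOn f W)
    (hadj : ∀ a ∈ W, ∀ b ∈ W, H.Adj a b ↔ H'.Adj (f a) (f b)) (h : HS k H d W) :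
    HS k H' d (W.image f) := by
  have hinj : Set.InjOn f W := hf.injOn
  have key : ∀ τ ∈ cl H' (W.image f), ∃ σ ∈ cl H W, τ.card = σ.card ∧
      lkF H' (W.image f) τ = (lkF H W σ).image f := by
    intro τ hτ
    obtain ⟨σ, hσ, rfl⟩ := Finset.subset_image_iff.1 (mem_cl.1 hτ).1
    have hσ' : σ ⊆ W := hσ
    exact ⟨σ, (Pool.Agent.TH709.GG.cl_image hinj hadj hσ').1 hτ,
      Finset.card_image_of_injOn (hinj.mono (by exact_mod_cast hσ')),
      Pool.Agent.TH709.GG.lkF_image hinj hadj hσ'⟩
  have hsub : ∀ σ, lkF H W σ ⊆ W := fun σ x hx => (mem_lkF.1 hx).1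
  constructor
  · intro τ hτ j hj
    obtain ⟨σ, hσ, hc, he⟩ := key τ hτ
    rw [he]
    exact Ex_image (hf.mono (by exact_mod_cast hsub σ))
      (fun a ha b hb => hadj a (hsub σ ha) b (hsub σ hb)) (h.ex σ hσ j (by omega))
  · intro τ hτ
    obtain ⟨σ, hσ, hc, he⟩ := key τ hτ
    rw [he, hc]
    exact top_image (hf.mono (by exact_mod_cast hsub σ))
      (fun a ha b hb => hadj a (hsub σ ha) b (hsub σ hb)) (h.top σ hσ)

theorem lk_image {W : Finset α} (hadj : ∀ a ∈ W, ∀ b ∈ W, H.Adj a b ↔ H'.Adj (f a) (f b)) {v : α} (hv : v ∈ W) :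
    lk H' (W.image f) (f v) = (lk H W v).image f := by
  ext b
  rw [mem_lk, Finset.mem_image, Finset.mem_image]
  constructor
  · rintro ⟨⟨a, ha, rfl⟩, h⟩
    exact ⟨a, mem_lk.2 ⟨ha, (hadj v hv a ha).2 h⟩, rfl⟩
  · rintro ⟨a, ha, rfl⟩
    obtain ⟨h1, h2⟩ := mem_lk.1 ha
    exact ⟨⟨a, h1, rfl⟩, (hadj v hv a h1).1 h2⟩

/-- invariance under isomorphisms -/
theorem NP_image {d : ℕ} {W : Finset α} (hinj : Set.InjOn f W)
    (hadj : ∀ a ∈ W, ∀ b ∈ W, H.Adj a b ↔ H'.Adj (f a) (f b)) (h : NP H d W) :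
    NP H' d (W.image f) := by
  induction d generalizing W with
  | zero =>
    have h0 : W = ∅ := h
    change W.image f = ∅
    rw [h0, Finset.image_empty]
  | succ d ih =>
    rcases d with _ | d
    · have h' : W.card = 2 ∧ ∀ x ∈ W, ∀ y ∈ W, ¬ H.Adj x y := h
      refine ⟨?_, ?_⟩
      · rw [Finset.card_image_of_injOn hinj]
        exact h'.1
      · intro x hx y hy hxy
        obtain ⟨a, ha, rfl⟩ := Finset.mem_image.1 hx
        obtain ⟨b, hb, rfl⟩ := Finset.mem_image.1 hy
        exact h'.2 a ha b hb ((hadj a ha b hb).2 hxy)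
    · refine ⟨h.nonempty.image f, fun A hA hne hneq => ?_, fun u hu => ?_⟩
      · classical
        have h1 : W.filter (fun w => f w ∈ A) ⊆ W := Finset.filter_subset _ _
        have h2 : (W.filter (fun w => f w ∈ A)).Nonempty := by
          obtain ⟨a, ha⟩ := hne
          obtain ⟨w, hw, rfl⟩ := Finset.mem_image.1 (hA ha)
          exact ⟨w, Finset.mem_filter.2 ⟨hw, ha⟩⟩
        have h3 : W.filter (fun w => f w ∈ A) ≠ W := by
          intro hEq
          apply hneq
          refine Finset.Subset.antisymm hA (fun y hy => ?_)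
          obtain ⟨w, hw, rfl⟩ := Finset.mem_image.1 hy
          rw [← hEq] at hw
          exact (Finset.mem_filter.1 hw).2
        obtain ⟨a, ha, b, hb, hbA, hab⟩ := h.2.1 _ h1 h2 h3
        refine ⟨f a, (Finset.mem_filter.1 ha).2, f b, Finset.mem_image_of_mem f hb, fun hfb => ?_,
          (hadj a (h1 ha) b hb).1 hab⟩
        exact hbA (Finset.mem_filter.2 ⟨hb, hfb⟩)
      · obtain ⟨v, hv, rfl⟩ := Finset.mem_image.1 hu
        rw [lk_image hadj hv]
        have hs : lk H W v ⊆ W := lk_subset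
        exact ih (hinj.mono (by exact_mod_cast hs)) (fun a ha b hb => hadj a (hs ha) b (hs hb))
          (h.2.2 v hv)

end Image

end Pool.Agent.Q250.GL
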