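import Pool.Agent.Q250.GL.Glue
import Pool.Agent.W497.FS.Thms

set_option autoImplicit false
set_option linter.unusedSectionVars false
set_option linter.unusedVariables false

/-!
# Suspensions of flag homology spheres and their joins with a pentagon
-/

namespace Pool.Agent.Q250.GL

open Pool.Agent.W497.FS Finset Polynomial

variable {k : Type} [Field k] {α : Type} [LinearOrder α] [Fintype α] {H : SimpleGraph α}

/-- the cone over a chain -/
noncomputable def cone (b : α) (c : Finset α → k) : Finset α → k :=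
  fun A => if b ∈ A then sg k b (A.erase b) * c (A.erase b) else 0

theorem sg_self_mul (v : α) (A : Finset α) (x : k) : sg k v A * (sg k v A * x) = x := by
  rw [← mul_assoc, sg_mul_self, one_mul]

/-- **cones have no homology** -/
theorem Ex_cone {W : Finset α} {b : α} (hb : b ∈ W) (hadj : ∀ x ∈ W, x ≠ b → H.Adj b x) (j : ℕ) :
    Ex k H W j := by
  intro c hc h0
  have hd : On H (W.erase b) j (dpart b c) := dpart_on hc
  have hl : lpart b (cone b (dpart b c)) = dpart b c := by
    funext A
    rw [lpart]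
    split_ifs with h
    · rw [dpart, if_pos h]
    · rw [cone, if_pos (Finset.mem_insert_self b A), Finset.erase_insert h, sg_self_mul]
  have hdz : dpart b (cone b (dpart b c)) = 0 := by
    funext A
    rw [dpart]
    split_ifs with h
    · rfl
    · rw [cone, if_neg h]
      rfl
  refine ⟨cone b (dpart b c), ?_, ?_⟩
  · intro A hA
    rw [cone] at hA
    split_ifs at hA with h
    · have h1 : dpart b c (A.erase b) ≠ 0 := fun h2 => hA (by rw [h2, mul_zero])
      obtain ⟨h2, h3⟩ := hd _ h1
      obtain ⟨h4, h5⟩ := mem_cl.1 h2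
      refine ⟨mem_cl.2 ⟨fun x hx => ?_, fun x hx z hz hxz => ?_⟩, ?_⟩
      · by_cases hxb : x = b
        · rwa [hxb]
        · exact Finset.mem_of_mem_erase (h4 (Finset.mem_erase.2 ⟨hxb, hx⟩))
      · by_cases hxb : x = b
        · subst hxb
          exact hadj z (Finset.mem_of_mem_erase (h4 (Finset.mem_erase.2 ⟨hxz.symm, hz⟩))) hxz.symm
        · by_cases hzb : z = b
          · subst hzb
            exact (hadj x (Finset.mem_of_mem_erase (h4 (Finset.mem_erase.2 ⟨hxz, hx⟩))) hxz).symm
          · exact h5 x (Finset.mem_erase.2 ⟨hxb, hx⟩) z (Finset.mem_erase.2 ⟨hzb, hz⟩) hxz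
      · rw [Finset.card_erase_of_mem h] at h3
        have : 0 < A.card := Finset.card_pos.2 ⟨b, h⟩
        omega
    · exact absurd rfl hA
  · funext A
    by_cases h : b ∈ A
    · have h1 := bd_lpart (k := k) (c := cone b (dpart b c)) (u := b) (A := A.erase b) (Finset.notMem_erase b A)
      rw [Finset.insert_erase h, hl] at h1
      have h2 := bd_split (k := k) (c := c) (u := b) (A := A.erase b) (Finset.notMem_erase b A)
      rw [h0, Pi.zero_apply, lpart, if_neg (Finset.notMem_erase b A), Finset.insert_erase h] at h2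
      have h3 : sg k b (A.erase b) * (bd (cone b (dpart b c)) A - c A) = 0 := by
        linear_combination h1 + h2
      exact sub_eq_zero.1 ((mul_eq_zero.1 h3).resolve_left (sg_ne_zero _ _))
    · rw [bd_split h, hl, hdz, bd_zero, Pi.zero_apply, zero_add, dpart, if_neg h]

theorem Ex_congr {H' : SimpleGraph α} {W : Finset α} {j : ℕ}
    (hadj : ∀ a ∈ W, ∀ b ∈ W, H.Adj a b ↔ H'.Adj a b) (h : Ex k H W j) : Ex k H' W j := by
  have := Ex_image (f := (id : α → α)) (strictMono_id.strictMonoOn _) hadj h
  rwa [Finset.image_id] at this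

theorem top_congr {H' : SimpleGraph α} {W : Finset α} {m : ℕ}
    (hadj : ∀ a ∈ W, ∀ b ∈ W, H.Adj a b ↔ H'.Adj a b)
    (h : ∃ z : Finset α → k, On H W m z ∧ bd z = 0 ∧ z ≠ 0) :
    ∃ z : Finset α → k, On H' W m z ∧ bd z = 0 ∧ z ≠ 0 := by
  have := top_image (f := (id : α → α)) (strictMono_id.strictMonoOn _) hadj h
  rwa [Finset.image_id] at this

/-- no edges between the two differences -/
def Sep (H : SimpleGraph α) (K₁ K₂ : Finset α) : Prop :=
  ∀ x ∈ K₁, x ∉ K₂ → ∀ z ∈ K₂, z ∉ K₁ → ¬ H.Adj x z

theorem Sep.adj {K₁ K₂ : Finset α} (h : Sep H K₁ K₂) :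
    ∀ a ∈ K₁ ∪ K₂, ∀ b ∈ K₁ ∪ K₂, (glueG H K₁ K₂).Adj a b ↔ H.Adj a b := by
  intro a ha b hb
  rw [glueG_adj]
  refine ⟨fun h => h.1, fun hab => ⟨hab, ?_⟩⟩
  rw [Finset.mem_union] at ha hb
  have h1 := h a
  have h2 := h b
  have h3 := hab.symm
  by_cases a1 : a ∈ K₁ <;> by_cases a2 : a ∈ K₂ <;> by_cases b1 : b ∈ K₁ <;> by_cases b2 : b ∈ K₂ <;>
    tauto

theorem Ex_union {K₁ K₂ : Finset α} {j : ℕ} (hs : Sep H K₁ K₂) (h1 : Ex k H K₁ (j + 1)) (h2 : Ex k H K₂ (j + 1))
    (h0 : Ex k H (K₁ ∩ K₂) j) : Ex k H (K₁ ∪ K₂) (j + 1) :=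
  Ex_congr hs.adj (Ex_glue h1 h2 h0)

theorem Ex_union_zero {K₁ K₂ : Finset α} (hs : Sep H K₁ K₂) (h1 : Ex k H K₁ 0) : Ex k H (K₁ ∪ K₂) 0 :=
  Ex_congr hs.adj (Ex_glue_zero h1)

theorem top_union {K₁ K₂ : Finset α} {m : ℕ} (hs : Sep H K₁ K₂) (h1 : Ex k H K₁ m) (h2 : Ex k H K₂ m)
    (h0 : ∃ z : Finset α → k, On H (K₁ ∩ K₂) m z ∧ bd z = 0 ∧ z ≠ 0)
    (hm : ∀ σ ∈ cl H (K₁ ∩ K₂), σ.card ≤ m) :
    ∃ z : Finset α → k, On H (K₁ ∪ K₂) (m + 1) z ∧ bd z = 0 ∧ z ≠ 0 :=
  top_congr hs.adj (top_glue h1 h2 h0 hm)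

/-! ### Suspensions -/

/-- `a` and `c` are the two suspension points over `X` -/
structure Susp (H : SimpleGraph α) (X : Finset α) (a c : α) : Prop where
  ne : a ≠ c
  nadj : ¬ H.Adj a c
  na : a ∉ X
  nc : c ∉ X
  adj_a : ∀ x ∈ X, H.Adj a x
  adj_c : ∀ x ∈ X, H.Adj c x

/-- the suspension -/
def sus (X : Finset α) (a c : α) : Finset α := insert a (insert c X)

theorem mem_sus {X : Finset α} {a c x : α} : x ∈ sus X a c ↔ x = a ∨ x = c ∨ x ∈ X := by
  rw [sus, Finset.mem_insert, Finset.mem_insert]

theorem Susp.lk_x {X : Finset α} {a c x : α} (h : Susp H X a c) (hx : x ∈ X) :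
    lk H (sus X a c) x = sus (lk H X x) a c := by
  ext z
  rw [mem_lk, mem_sus, mem_sus, mem_lk]
  constructor
  · rintro ⟨rfl | rfl | h1, h2⟩
    · exact Or.inl rfl
    · exact Or.inr (Or.inl rfl)
    · exact Or.inr (Or.inr ⟨h1, h2⟩)
  · rintro (rfl | rfl | ⟨h1, h2⟩)
    · exact ⟨Or.inl rfl, (h.adj_a x hx).symm⟩
    · exact ⟨Or.inr (Or.inl rfl), (h.adj_c x hx).symm⟩
    · exact ⟨Or.inr (Or.inr h1), h2⟩

theorem Susp.lk_a {X : Finset α} {a c : α} (h : Susp H X a c) : lk H (sus X a c) a = X := by
  ext z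
  rw [mem_lk, mem_sus]
  constructor
  · rintro ⟨rfl | rfl | h1, h2⟩
    · exact absurd rfl h2.ne
    · exact absurd h2 h.nadj
    · exact h1
  · exact fun hz => ⟨Or.inr (Or.inr hz), h.adj_a z hz⟩

theorem Susp.lk_c {X : Finset α} {a c : α} (h : Susp H X a c) : lk H (sus X a c) c = X := by
  ext z
  rw [mem_lk, mem_sus]
  constructor
  · rintro ⟨rfl | rfl | h1, h2⟩
    · exact absurd h2.symm h.nadj
    · exact absurd rfl h2.ne
    · exact h1
  · exact fun hz => ⟨Or.inr (Or.inr hz), h.adj_c z hz⟩

theorem Susp.sub {X Y : Finset α} {a c : α} (h : Susp H X a c) (hY : Y ⊆ X) : Susp H Y a c :=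
  ⟨h.ne, h.nadj, fun h' => h.na (hY h'), fun h' => h.nc (hY h'), fun x hx => h.adj_a x (hY hx),
    fun x hx => h.adj_c x (hY hx)⟩

theorem Susp.np {d : ℕ} {X : Finset α} {a c : α} (h : Susp H X a c) (hN : NP H d X) :
    NP H (d + 1) (sus X a c) := by
  induction d generalizing X with
  | zero =>
    have h0 : X = ∅ := hN
    subst h0
    refine ⟨?_, ?_⟩
    · rw [sus, insert_empty_eq]
      exact Finset.card_pair h.ne
    · intro x hx z hz
      rw [mem_sus] at hx hz
      have := h.nadj
      rcases hx with rfl | rfl | hx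
      · rcases hz with rfl | rfl | hz
        · exact fun h' => h'.ne rfl
        · exact h.nadj
        · exact absurd hz (Finset.notMem_empty _)
      · rcases hz with rfl | rfl | hz
        · exact fun h' => h.nadj h'.symm
        · exact fun h' => h'.ne rfl
        · exact absurd hz (Finset.notMem_empty _)
      · exact absurd hx (Finset.notMem_empty _)
  | succ d ih =>
    obtain ⟨x₀, hx₀⟩ := hN.nonempty
    refine ⟨⟨a, mem_sus.2 (Or.inl rfl)⟩, fun A hA hne hneq => ?_, fun u hu => ?_⟩
    · by_contra hcon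
      push Not at hcon
      -- `A` is closed under adjacency
      have hcl : ∀ p ∈ A, ∀ q ∈ sus X a c, H.Adj p q → q ∈ A := by
        intro p hp q hq hpq
        by_contra hqA
        exact hcon p hp q hq hqA hpq
      have key : ∀ x ∈ X, x ∈ A → A = sus X a c := by
        intro x hx hxA
        refine Finset.Subset.antisymm hA (fun q hq => ?_)
        have haA : a ∈ A := hcl x hxA a (mem_sus.2 (Or.inl rfl)) (h.adj_a x hx).symm
        have hcA : c ∈ A := hcl x hxA c (mem_sus.2 (Or.inr (Or.inl rfl))) (h.adj_c x hx).symm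
        rcases mem_sus.1 hq with rfl | rfl | hq
        · exact haA
        · exact hcA
        · exact hcl a haA q (mem_sus.2 (Or.inr (Or.inr hq))) (h.adj_a q hq)
      obtain ⟨p, hp⟩ := hne
      rcases mem_sus.1 (hA hp) with rfl | rfl | hpX
      · exact hneq (key x₀ hx₀ (hcl p hp x₀ (mem_sus.2 (Or.inr (Or.inr hx₀))) (h.adj_a x₀ hx₀)))
      · exact hneq (key x₀ hx₀ (hcl p hp x₀ (mem_sus.2 (Or.inr (Or.inr hx₀))) (h.adj_c x₀ hx₀)))
      · exact hneq (key p hpX hp)
    · rcases mem_sus.1 hu with rfl | rfl | hu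
      · rw [h.lk_a]
        exact hN
      · rw [h.lk_c]
        exact hN
      · rw [h.lk_x hu]
        exact ih (h.sub lk_subset) (hN.lk hu)

theorem Susp.hs {d : ℕ} {X : Finset α} {a c : α} (h : Susp H X a c) (hN : NP H d X) (hS : HS k H d X) :
    HS k H (d + 1) (sus X a c) := by
  have hU : sus X a c = insert a X ∪ insert c X := by
    ext z
    rw [mem_sus, Finset.mem_union, Finset.mem_insert, Finset.mem_insert]
    tauto
  have hI : insert a X ∩ insert c X = X := by
    ext z
    rw [Finset.mem_inter, Finset.mem_insert, Finset.mem_insert]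
    constructor
    · rintro ⟨rfl | h1, h2 | h2⟩
      · exact absurd h2 h.ne
      · exact h2
      · exact h1
      · exact h1
    · exact fun hz => ⟨Or.inr hz, Or.inr hz⟩
  have hsep : Sep H (insert a X) (insert c X) := by
    intro x hx hx2 z hz hz2
    rw [Finset.mem_insert] at hx hz
    rw [Finset.mem_insert, not_or] at hx2 hz2
    rcases hx with rfl | hx
    · rcases hz with rfl | hz
      · exact h.nadj
      · exact absurd hz hz2.2
    · exact absurd hx hx2.2
  have hE1 : ∀ j, Ex k H (insert a X) j := fun j =>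
    Ex_cone (Finset.mem_insert_self a X) (fun x hx hxa => h.adj_a x ((Finset.mem_insert.1 hx).resolve_left hxa)) j
  have hE2 : ∀ j, Ex k H (insert c X) j := fun j =>
    Ex_cone (Finset.mem_insert_self c X) (fun x hx hxa => h.adj_c x ((Finset.mem_insert.1 hx).resolve_left hxa)) j
  induction d generalizing X with
  | zero =>
    refine HS_succ ?_ ?_ ?_
    · intro j hj
      obtain rfl : j = 0 := by omega
      rw [hU]
      exact Ex_union_zero hsep (hE1 0)
    · rw [hU]
      refine top_union hsep (hE1 0) (hE2 0) ?_ ?_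
      · rw [hI]
        have := hS.top ∅ empty_mem_cl
        rwa [lkF_empty'', Finset.card_empty] at this
      · rw [hI]
        exact fun σ hσ => hN.card_le hσ
    · intro v hv
      have h0 : X = ∅ := hN
      rcases mem_sus.1 hv with rfl | rfl | hv
      · rw [h.lk_a]; exact hS
      · rw [h.lk_c]; exact hS
      · rw [h0] at hv; exact absurd hv (Finset.notMem_empty _)
  | succ d ih =>
    refine HS_succ ?_ ?_ ?_
    · intro j hj
      rw [hU]
      rcases j with _ | j
      · exact Ex_union_zero hsep (hE1 0)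
      · refine Ex_union hsep (hE1 _) (hE2 _) ?_
        rw [hI]
        have := hS.ex ∅ empty_mem_cl j (by rw [Finset.card_empty]; omega)
        rwa [lkF_empty''] at this
    · rw [hU]
      refine top_union hsep (hE1 _) (hE2 _) ?_ ?_
      · rw [hI]
        have := hS.top ∅ empty_mem_cl
        rwa [lkF_empty'', Finset.card_empty] at this
      · rw [hI]
        exact fun σ hσ => hN.card_le hσ
    · intro v hv
      rcases mem_sus.1 hv with rfl | rfl | hv
      · rw [h.lk_a]; exact hS
      · rw [h.lk_c]; exact hS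
      · rw [h.lk_x hv]
        have hs := h.sub (Y := lk H X v) lk_subset
        have hd1 : Sep H (insert a (lk H X v)) (insert c (lk H X v)) := by
          intro x hx hx2 z hz hz2
          rw [Finset.mem_insert] at hx hz
          rw [Finset.mem_insert, not_or] at hx2 hz2
          rcases hx with rfl | hx
          · rcases hz with rfl | hz
            · exact h.nadj
            · exact absurd hz hz2.2
          · exact absurd hx hx2.2
        refine ih hs (hN.lk hv) (hS.lk hv) ?_ ?_ hd1 ?_ ?_
        · ext z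
          rw [mem_sus, Finset.mem_union, Finset.mem_insert, Finset.mem_insert]
          tauto
        · ext z
          rw [Finset.mem_inter, Finset.mem_insert, Finset.mem_insert]
          constructor
          · rintro ⟨rfl | h1, h2 | h2⟩
            · exact absurd h2 h.ne
            · exact h2
            · exact h1
            · exact h1
          · exact fun hz => ⟨Or.inr hz, Or.inr hz⟩
        · exact fun j => Ex_cone (Finset.mem_insert_self a _)
            (fun x hx hxa => hs.adj_a x ((Finset.mem_insert.1 hx).resolve_left hxa)) j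
        · exact fun j => Ex_cone (Finset.mem_insert_self c _)
            (fun x hx hxa => hs.adj_c x ((Finset.mem_insert.1 hx).resolve_left hxa)) j

end Pool.Agent.Q250.GL
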