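import Pool.Agent.Q250.GL.Stm

set_option autoImplicit false
set_option linter.unusedSectionVars false
set_option linter.unusedVariables false

/-!
# Linear functionals of the gamma-vector: the proofs
-/

namespace Pool.Agent.Q250.GL

open Pool.Agent.W497.FS Finset Polynomial Filter Topology

variable {k : Type} [Field k]

/-! ### Spheres and polynomials -/

theorem rz_of_sphere {n d : ℕ} {S : Finset (Finset (Fin n))} {v u : Fin n} {γ α β : ℕ → ℤ}
    (hS : IsFlagSphere k (d + 1) S) (hv : {v} ∈ S) (hu : {u} ∈ S) (hvu : {v, u} ∉ S) (hγ : IsGamma (d + 1) S γ)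
    (hα : IsGamma d (link S {v}) α) (hβ : IsGamma d (link S {u}) β) :
    Rz k (d + 1) (gexp (d + 1) γ) (gexp d α) (gexp d β) := by
  have hne : v ≠ u := by
    rintro rfl
    apply hvu
    rwa [Finset.pair_eq_singleton]
  exact ⟨n, skel S, vert S, hS.np, hs_of hS, FP_gexp hS hγ, v, mem_vert.2 hv, u, mem_vert.2 hu, hne,
    fun h => hvu h.2, FP_link hS (mem_vert.2 hv) hα, FP_link hS (mem_vert.2 hu) hβ⟩

theorem sphere_of_rz {d : ℕ} {γ α β : ℕ → ℤ} (h : Rz k (d + 1) (gexp (d + 1) γ) (gexp d α) (gexp d β)) :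
    ∃ (n : ℕ) (S : Finset (Finset (Fin n))) (v u : Fin n), IsFlagSphere k (d + 1) S ∧ {v} ∈ S ∧ {u} ∈ S ∧
      {v, u} ∉ S ∧ IsGamma (d + 1) S γ ∧ IsGamma d (link S {v}) α ∧ IsGamma d (link S {u}) β := by
  obtain ⟨n, H, W, hN, hS, hP, v, hv, u, hu, hvu, hna, hQ, hQ'⟩ := h
  obtain ⟨h1, h2, -⟩ := gamma_of hN hS hP
  obtain ⟨-, h3, -⟩ := gamma_of (hN.lk hv) (hS.lk hv) hQ
  obtain ⟨-, h4, -⟩ := gamma_of (hN.lk hu) (hS.lk hu) hQ'
  refine ⟨n, cl H W, v, u, h1, singleton_mem_cl hv, singleton_mem_cl hu, fun h => ?_, h2, ?_, ?_⟩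
  · exact hna ((mem_cl.1 h).2 v (Finset.mem_insert_self _ _) u
      (Finset.mem_insert_of_mem (Finset.mem_singleton_self u)) hvu)
  · rwa [link_cl (singleton_mem_cl hv), lkF_singleton]
  · rwa [link_cl (singleton_mem_cl hu), lkF_singleton]

/-! ### The two-vertex inequality -/

theorem core {d j : ℕ} {a : ℕ → ℝ} (hal : AlmostNonneg k (d + 1 + 2 * j) (j + 1) a) {γ α β : ℕ → ℤ}
    (h : Rz k (d + 1) (gexp (d + 1) γ) (gexp d α) (gexp d β)) :
    ell d j a α + ell d j a β ≤ 2 * ell (d + 1) j a γ := by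
  obtain ⟨K, hK⟩ := family (gp_deg (d + 1) γ) (gp_deg d α) (gp_deg d β)
    (by rw [gexp_gp, gexp_gp, gexp_gp]; exact h)
  set B := gp d β with hB
  set g := 2 * gp (d + 1) γ - gp d α - B with hg
  set M := (d + 1) / 2 + 1 with hM
  have hN : (d + 1 + 2 * j) / 2 + 1 = j + M := by omega
  set p : ℕ → ℝ := fun l => Lf (j + M) a (g * X ^ l) with hp
  set q : ℕ → ℝ := fun l => Lf (j + M) a (B * X ^ l) with hq
  let Q : ℝ[X] := ∑ l ∈ range (j + 1), C (2 ^ l * (j.choose l : ℝ)) * X ^ l * (C (p l) * X + C (q l))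
  have hev : ∀ m : ℕ, Q.eval (2 ^ m) =
      Lf (j + M) a ((C (2 ^ m) * g + B) * (1 + C (2 ^ (m + 1)) * X) ^ j) := by
    intro m
    rw [Lf_pow, eval_finsetSum]
    refine Finset.sum_congr rfl (fun l _ => ?_)
    simp only [eval_mul, eval_add, eval_C, eval_pow, eval_X]
    push_cast
    rw [pow_succ, mul_pow]
    ring
  have hdeg : Q.natDegree ≤ j + 1 := by
    refine natDegree_sum_le_of_forall_le _ _ (fun l hl => ?_)
    rw [Finset.mem_range] at hl
    refine natDegree_mul_le.trans ?_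
    have h1 : (C (2 ^ l * (j.choose l : ℝ)) * X ^ l : ℝ[X]).natDegree ≤ l := natDegree_C_mul_X_pow_le _ _
    have h2 : (C (p l) * X + C (q l) : ℝ[X]).natDegree ≤ 1 := natDegree_linear_le
    omega
  have hcoeff : Q.coeff (j + 1) = 2 ^ j * p j := by
    change (∑ l ∈ range (j + 1), C (2 ^ l * (j.choose l : ℝ)) * X ^ l * (C (p l) * X + C (q l)) : ℝ[X]).coeff (j + 1) = _
    rw [finsetSum_coeff]
    have e : ∀ l ∈ range (j + 1), (C (2 ^ l * (j.choose l : ℝ)) * X ^ l * (C (p l) * X + C (q l))).coeff (j + 1) =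
        if l = j then 2 ^ l * (j.choose l : ℝ) * p l else 0 := by
      intro l hl
      rw [Finset.mem_range] at hl
      have e1 : C (2 ^ l * (j.choose l : ℝ)) * X ^ l * (C (p l) * X + C (q l)) =
          C (2 ^ l * (j.choose l : ℝ) * p l) * X ^ (l + 1) + C (2 ^ l * (j.choose l : ℝ) * q l) * X ^ l := by
        rw [C_mul (a := 2 ^ l * (j.choose l : ℝ)), C_mul (a := 2 ^ l * (j.choose l : ℝ)), pow_succ]
        ring
      rw [e1, coeff_add, coeff_C_mul_X_pow, coeff_C_mul_X_pow, if_neg (show ¬ j + 1 = l by omega), add_zero]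
      by_cases h : l = j
      · rw [if_pos h, if_pos (by omega)]
      · rw [if_neg h, if_neg (by omega)]
    rw [Finset.sum_congr rfl e, Finset.sum_ite_eq', if_pos (Finset.mem_range.2 (by omega)), Nat.choose_self]
    push_cast
    ring
  have hlim : 0 ≤ Q.coeff (j + 1) := by
    refine lim_poly (by omega) hdeg (fun ε hε => ?_)
    set R : ℝ := (K : ℝ) + 6 * j + 1 with hR
    have hR1 : 0 < R := by positivity
    obtain ⟨C₀, hC₀⟩ := hal (ε / R ^ (j + 1)) (by positivity)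
    refine ⟨C₀, fun m => ?_⟩
    obtain ⟨n, T, h1, h2, h3⟩ := hK j m
    have h4 := hC₀ n T _ h1 h2
    have h5 : ell (d + 1 + 2 * j) 0 a ((C (2 ^ m) * g + B) * (1 + C (2 ^ (m + 1)) * X) ^ j).coeff = Q.eval (2 ^ m) := by
      rw [hev, ell, Lf, hN]
      rfl
    rw [h5] at h4
    refine le_trans ?_ h4
    have h6 : (numVert T : ℝ) ≤ 2 ^ m * R := by
      have : (numVert T : ℝ) ≤ ((2 ^ m * (K + 6 * j) : ℕ) : ℝ) := by exact_mod_cast h3
      refine this.trans ?_
      push_cast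
      have : (0 : ℝ) < 2 ^ m := by positivity
      nlinarith
    have h7 : (numVert T : ℝ) ^ (j + 1) ≤ (2 ^ m) ^ (j + 1) * R ^ (j + 1) := by
      rw [← mul_pow]
      exact pow_le_pow_left₀ (Nat.cast_nonneg _) h6 _
    have h8 : ε / R ^ (j + 1) * (numVert T : ℝ) ^ (j + 1) ≤ ε * (2 ^ m) ^ (j + 1) := by
      calc ε / R ^ (j + 1) * (numVert T : ℝ) ^ (j + 1) ≤ ε / R ^ (j + 1) * ((2 ^ m) ^ (j + 1) * R ^ (j + 1)) := by
            gcongr
        _ = ε * (2 ^ m) ^ (j + 1) := by field_simp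
    linarith
  rw [hcoeff] at hlim
  have hpj : 0 ≤ p j := by
    have : (0 : ℝ) < 2 ^ j := by positivity
    exact (mul_nonneg_iff_of_pos_left this).1 hlim
  rw [hp] at hpj
  simp only at hpj
  rw [Lf_shift] at hpj
  have hfin : ∑ i ∈ range M, a (i + j) * ((g.coeff i : ℤ) : ℝ) =
      2 * ell (d + 1) j a γ - ell d j a α - ell d j a β := by
    rw [← ell_tr d j a α, ← ell_tr d j a β, ell, ell, ell, Finset.mul_sum, ← Finset.sum_sub_distrib,
      ← Finset.sum_sub_distrib]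
    refine Finset.sum_congr rfl (fun i hi => ?_)
    rw [Finset.mem_range] at hi
    rw [hg, hB, coeff_sub, coeff_sub, show (2 : ℤ[X]) * gp (d + 1) γ = C 2 * gp (d + 1) γ from rfl, coeff_C_mul,
      coeff_gp, coeff_gp, coeff_gp, show tr (d + 1) γ i = γ i from if_pos (by omega)]
    push_cast
    ring
  rw [hfin] at hpj
  linarith

theorem twoVert_of_almost {d j : ℕ} {a : ℕ → ℝ} (hal : AlmostNonneg k (d + 1 + 2 * j) (j + 1) a) :
    TwoVert k d j a := fun n S v u γ α β hS hv hu hvu hγ hα hβ => core hal (rz_of_sphere hS hv hu hvu hγ hα hβ)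

theorem twoVert_down {d j : ℕ} {a : ℕ → ℝ} (h : TwoVert k (d + 1) j a) : TwoVert k d j a := by
  intro n S v u γ α β hS hv hu hvu hγ hα hβ
  have h1 := rz_susp (rz_of_sphere hS hv hu hvu hγ hα hβ)
  rw [y_mul_gexp, y_mul_gexp, y_mul_gexp] at h1
  obtain ⟨n', S', v', u', k1, k2, k3, k4, k5, k6, k7⟩ := sphere_of_rz h1
  have := h n' S' v' u' _ _ _ k1 k2 k3 k4 k5 k6 k7
  rwa [ell_tr, ell_tr, ell_tr] at this

theorem crossMin_zero (j : ℕ) (a : ℕ → ℝ) : CrossMin k 0 j a := by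
  intro n S γ hS hγ
  have h0 : vert S = ∅ := hS.np
  have h1 := FP_gexp hS hγ
  rw [h0] at h1
  have h2 := congrArg (fun p => p.coeff 0) h1
  rw [Pool.Agent.TH417.Gal.FP_coeff_zero] at h2
  have h3 : γ 0 = 1 := by
    rw [h2, gexp]
    simp
  rw [ell]
  simp [h3]

theorem exists_gamma_link {n d : ℕ} {S : Finset (Finset (Fin n))} (hS : IsFlagSphere k (d + 1) S) {v : Fin n}
    (hv : v ∈ vert S) : ∃ α : ℕ → ℤ, IsGamma d (link S {v}) α := exists_gamma (link_sphere hS hv)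

theorem cross_of_two {j : ℕ} {a : ℕ → ℝ} : ∀ d, TwoVert k d j a → CrossMin k (d + 1) j a := by
  intro d
  induction d with
  | zero =>
    intro h n S γ hS hγ
    obtain ⟨v, hv⟩ := hS.np.nonempty
    obtain ⟨u, hu, huv, hna⟩ := hS.np.exists_nonadj hv
    obtain ⟨α, hα⟩ := exists_gamma_link hS hv
    obtain ⟨β, hβ⟩ := exists_gamma_link hS hu
    have h1 := h n S v u γ α β hS (mem_vert.1 hv) (mem_vert.1 hu) (fun h' => hna ⟨huv.symm, h'⟩) hγ hα hβ
    have h2 := crossMin_zero j a n _ α (link_sphere hS hv) hα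
    have h3 := crossMin_zero j a n _ β (link_sphere hS hu) hβ
    linarith
  | succ d ih =>
    intro h n S γ hS hγ
    have hc := ih (twoVert_down h)
    obtain ⟨v, hv⟩ := hS.np.nonempty
    obtain ⟨u, hu, huv, hna⟩ := hS.np.exists_nonadj hv
    obtain ⟨α, hα⟩ := exists_gamma_link hS hv
    obtain ⟨β, hβ⟩ := exists_gamma_link hS hu
    have h1 := h n S v u γ α β hS (mem_vert.1 hv) (mem_vert.1 hu) (fun h' => hna ⟨huv.symm, h'⟩) hγ hα hβ
    have h2 := hc n _ α (link_sphere hS hv) hα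
    have h3 := hc n _ β (link_sphere hS hu) hβ
    linarith

theorem almost_of_cross {d : ℕ} {a : ℕ → ℝ} (h : CrossMin k d 0 a) : AlmostNonneg k d 1 a := by
  intro ε hε
  refine ⟨-a 0, fun n S γ hS hγ => ?_⟩
  have h1 := h n S γ hS hγ
  have h2 : 0 ≤ ε * (numVert S : ℝ) ^ 1 := by positivity
  linarith

/-- **from lower bounds with errors to sharp ones** -/
theorem main (k : Type) [Field k] (d : ℕ) (a : ℕ → ℝ) :
    (∀ j, AlmostNonneg k (d + 1 + 2 * j) (j + 1) a → CrossMin k (d + 1) j a ∧ TwoVert k d j a) ∧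
    [AlmostNonneg k (d + 1) 1 a, CrossMin k (d + 1) 0 a, TwoVert k d 0 a].TFAE := by
  refine ⟨fun j h => ⟨cross_of_two d (twoVert_of_almost h), twoVert_of_almost h⟩, ?_⟩
  tfae_have 1 → 3 := fun h => twoVert_of_almost (j := 0) h
  tfae_have 3 → 2 := cross_of_two d
  tfae_have 2 → 1 := almost_of_cross
  tfae_finish

theorem main_gal (k : Type) [Field k] (d i j : ℕ) (hi : 1 ≤ i) (hid : i ≤ (d + 1) / 2)
    (h : ∀ ε : ℝ, 0 < ε → ∃ C : ℝ, ∀ (n : ℕ) (T : Finset (Finset (Fin n))) (γ : ℕ → ℤ),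
      IsFlagSphere k (d + 1 + 2 * j) T → IsGamma (d + 1 + 2 * j) T γ →
        -(ε * (numVert T : ℝ) ^ (j + 1)) - C ≤ γ (i + j)) :
    ∀ (n : ℕ) (S : Finset (Finset (Fin n))) (γ : ℕ → ℤ), IsFlagSphere k (d + 1) S → IsGamma (d + 1) S γ → 0 ≤ γ i := by
  intro n S γ hS hγ
  have hal : AlmostNonneg k (d + 1 + 2 * j) (j + 1) (fun l => if l = i + j then 1 else 0) := by
    intro ε hε
    obtain ⟨C₀, hC₀⟩ := h ε hε
    refine ⟨C₀, fun n T γ hT hγ => ?_⟩
    refine (hC₀ n T γ hT hγ).trans (le_of_eq ?_)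
    rw [ell, Finset.sum_eq_single (i + j)]
    · simp
    · intro b _ hb
      rw [if_neg (by simpa using hb), zero_mul]
    · intro h'
      exact absurd (Finset.mem_range.2 (by omega)) h'
  have h1 := ((main k d _).1 j hal).1 n S γ hS hγ
  have h2 : ell (d + 1) j (fun l => if l = i + j then (1 : ℝ) else 0) γ = γ i := by
    rw [ell, Finset.sum_eq_single i]
    · simp
    · intro b _ hb
      rw [if_neg (by omega), zero_mul]
    · intro h'
      exact absurd (Finset.mem_range.2 (by omega)) h'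
  rw [h2] at h1
  simp only at h1
  rw [if_neg (by omega)] at h1
  exact_mod_cast h1

end Pool.Agent.Q250.GL
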