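import Pool.Agent.Q250.GL.Main
import Pool.Agent.W497.FS.Top

set_option autoImplicit false
set_option linter.unusedSectionVars false
set_option linter.unusedVariables false

/-!
# The mean over the vertex links
-/

namespace Pool.Agent.Q250.GL

open Pool.Agent.W497.FS Finset Polynomial

section Hall

variable {α : Type} [DecidableEq α] {H : SimpleGraph α}

theorem hall_face (m : ℕ) : ∀ {d : ℕ} {W σ : Finset α}, NP H d W → σ ∈ cl H W → σ.card = m →
    m ≤ (σ.biUnion (fun a => nn H W a)).card := by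
  induction m with
  | zero => intro d W σ _ _ _; exact Nat.zero_le _
  | succ m ih =>
    intro d W σ hN hσ hc
    obtain ⟨v, hv⟩ := Finset.card_pos.1 (show 0 < σ.card by omega)
    obtain ⟨h1, h2⟩ := mem_cl.1 hσ
    have hvW := h1 hv
    obtain ⟨e, rfl⟩ := hN.rank_pos hvW
    have hτ : σ.erase v ∈ cl H (lk H W v) := mem_cl.2 ⟨fun x hx => mem_lk.2 ⟨h1 (Finset.mem_of_mem_erase hx),
      h2 v hv x (Finset.mem_of_mem_erase hx) (Finset.ne_of_mem_erase hx).symm⟩,
      fun x hx y hy => h2 x (Finset.mem_of_mem_erase hx) y (Finset.mem_of_mem_erase hy)⟩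
    have h3 := ih (hN.lk hvW) hτ (by rw [Finset.card_erase_of_mem hv]; omega)
    obtain ⟨u, hu, huv, hna⟩ := hN.exists_nonadj hvW
    set B := (σ.erase v).biUnion (fun a => nn H (lk H W v) a) with hB
    have hBl : B ⊆ lk H W v := by
      intro x hx
      obtain ⟨a, ha, hxa⟩ := Finset.mem_biUnion.1 hx
      exact (mem_nn.1 hxa).1
    have huB : u ∉ B := fun h => hna (mem_lk.1 (hBl h)).2
    have hsub : insert u B ⊆ σ.biUnion (fun a => nn H W a) := by
      intro x hx
      rcases Finset.mem_insert.1 hx with rfl | hx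
      · exact Finset.mem_biUnion.2 ⟨v, hv, mem_nn.2 ⟨hu, huv, hna⟩⟩
      · obtain ⟨a, ha, hxa⟩ := Finset.mem_biUnion.1 hx
        obtain ⟨h5, h6, h7⟩ := mem_nn.1 hxa
        exact Finset.mem_biUnion.2 ⟨a, Finset.mem_of_mem_erase ha, mem_nn.2 ⟨lk_subset h5, h6, h7⟩⟩
    have h4 := Finset.card_le_card hsub
    rw [Finset.card_insert_of_notMem huB] at h4
    omega

theorem hall {d : ℕ} {W A : Finset α} (hN : NP H d W) (hA : A ⊆ W) :
    A.card ≤ (A.biUnion (fun a => nn H W a)).card := by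
  classical
  set A' := A.filter (fun a => ∀ b ∈ A, b ≠ a → H.Adj a b) with hA'
  have hcl : A' ∈ cl H W := mem_cl.2 ⟨(Finset.filter_subset _ _).trans hA, fun x hx y hy hxy =>
    (Finset.mem_filter.1 hx).2 y (Finset.mem_filter.1 hy).1 hxy.symm⟩
  have h1 := hall_face A'.card hN hcl rfl
  have hdis : Disjoint (A \ A') (A'.biUnion (fun a => nn H W a)) := by
    rw [Finset.disjoint_left]
    intro x hx hx'
    obtain ⟨a, ha, hxa⟩ := Finset.mem_biUnion.1 hx'
    obtain ⟨h2, h3, h4⟩ := mem_nn.1 hxa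
    exact h4 ((Finset.mem_filter.1 ha).2 x (Finset.mem_sdiff.1 hx).1 h3)
  have hsub : (A \ A') ∪ A'.biUnion (fun a => nn H W a) ⊆ A.biUnion (fun a => nn H W a) := by
    intro x hx
    rcases Finset.mem_union.1 hx with hx | hx
    · obtain ⟨h2, h3⟩ := Finset.mem_sdiff.1 hx
      have h4 : ¬ ∀ b ∈ A, b ≠ x → H.Adj x b := fun h => h3 (Finset.mem_filter.2 ⟨h2, h⟩)
      push Not at h4
      obtain ⟨b, hb, hbx, hna⟩ := h4
      exact Finset.mem_biUnion.2 ⟨b, hb, mem_nn.2 ⟨hA h2, hbx.symm, fun h => hna h.symm⟩⟩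
    · exact Finset.biUnion_subset_biUnion_of_subset_left _ (Finset.filter_subset _ _) hx
  have h2 := Finset.card_le_card hsub
  rw [Finset.card_union_of_disjoint hdis] at h2
  have h3 : (A \ A').card + A'.card = A.card := Finset.card_sdiff_add_card_eq_card (Finset.filter_subset _ _)
  omega

/-- a permutation of the vertices which moves every vertex to one not joined to it -/
theorem exists_perm {d : ℕ} {W : Finset α} (hN : NP H d W) :
    ∃ f : {v // v ∈ W} → {v // v ∈ W}, Function.Bijective f ∧ ∀ v, (f v).1 ∈ nn H W v.1 := by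
  have h1 := (Finset.all_card_le_biUnion_card_iff_exists_injective
    (fun v : {v // v ∈ W} => nn H W v.1)).1 (fun s => by
      have h2 := hall (A := s.map (Function.Embedding.subtype _)) hN (fun x hx => by
        obtain ⟨a, -, rfl⟩ := Finset.mem_map.1 hx
        exact a.2)
      rw [Finset.card_map] at h2
      refine h2.trans (Finset.card_le_card ?_)
      intro x hx
      obtain ⟨a, ha, hxa⟩ := Finset.mem_biUnion.1 hx
      obtain ⟨b, hb, rfl⟩ := Finset.mem_map.1 ha
      exact Finset.mem_biUnion.2 ⟨b, hb, hxa⟩)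
  obtain ⟨f, hf, hf2⟩ := h1
  refine ⟨fun v => ⟨f v, (mem_nn.1 (hf2 v)).1⟩, ?_, hf2⟩
  exact Finite.injective_iff_bijective.1 (fun a b h => hf (congrArg Subtype.val h))

end Hall

/-! ### The derivative of the gamma expansion -/

theorem der_w : derivative w = y := by
  rw [w, y]
  simp
  ring

theorem der_y : derivative y = 2 := by
  rw [y]
  simp

/-- the next entry, zero outside the range -/
def nxt (d : ℕ) (γ : ℕ → ℤ) (i : ℕ) : ℤ := tr d γ (i + 1)

theorem der_gexp (d : ℕ) (γ : ℕ → ℤ) : derivative (gexp (d + 1) γ) =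
    gexp d (fun i => (i + 1) * nxt (d + 1) γ i + (2 * (d + 1) - 4 * i) * γ i) := by
  rw [gexp, derivative_sum]
  have h1 : ∀ i ∈ range ((d + 1) / 2 + 1), derivative (C (γ i) * w ^ i * y ^ (d + 1 - 2 * i)) =
      (C (γ i) * (i : ℤ[X]) * w ^ (i - 1) * y ^ (d + 2 - 2 * i)) +
        C ((2 * (d + 1) - 4 * i) * γ i) * w ^ i * y ^ (d - 2 * i) := by
    intro i hi
    rw [Finset.mem_range] at hi
    rw [derivative_mul, derivative_mul, derivative_C, zero_mul, zero_add, derivative_pow, derivative_pow, der_w, der_y]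
    have e1 : C (γ i) * ((i : ℤ[X]) * w ^ (i - 1) * y) * y ^ (d + 1 - 2 * i) =
        C (γ i) * (i : ℤ[X]) * w ^ (i - 1) * y ^ (d + 2 - 2 * i) := by
      rw [show d + 2 - 2 * i = (d + 1 - 2 * i) + 1 by omega, pow_succ]
      ring
    simp only [map_natCast] at *
    rw [e1]
    congr 1
    by_cases h : 2 * i = d + 1
    · have e2 : (2 * ((d : ℤ) + 1) - 4 * i) = 0 := by
        have : (2 : ℤ) * i = d + 1 := by exact_mod_cast h
        linarith
      rw [e2, show d + 1 - 2 * i = 0 by omega]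
      simp
    · have e2 : ((d + 1 - 2 * i : ℕ) : ℤ) = d + 1 - 2 * i := by
        rw [Nat.cast_sub (by omega)]
        push_cast
        ring
      have e3 : ((d + 1 - 2 * i : ℕ) : ℤ[X]) = C ((d : ℤ) + 1 - 2 * i) := by
        rw [← e2]
        simp
      rw [e3, show d + 1 - 2 * i - 1 = d - 2 * i by omega, show (2 * ((d : ℤ) + 1) - 4 * i) * γ i =
        γ i * ((d : ℤ) + 1 - 2 * i) * 2 by ring, C_mul, C_mul, show (C (2 : ℤ) : ℤ[X]) = 2 from rfl]
      ring
  rw [Finset.sum_congr rfl h1, Finset.sum_add_distrib, gexp_add (fun i => (i + 1) * nxt (d + 1) γ i)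
    (fun i => (2 * (d + 1) - 4 * i) * γ i)]
  congr 1
  · rw [Finset.sum_range_succ', gexp]
    have h0 : C (γ 0) * ((0 : ℕ) : ℤ[X]) * w ^ (0 - 1) * y ^ (d + 2 - 2 * 0) = 0 := by simp
    rw [h0, add_zero]
    have h2 : range ((d + 1) / 2) ⊆ range (d / 2 + 1) := by
      intro i hi
      rw [Finset.mem_range] at hi ⊢
      omega
    rw [← Finset.sum_subset h2]
    · refine Finset.sum_congr rfl (fun i hi => ?_)
      rw [Finset.mem_range] at hi
      rw [nxt, tr, if_pos (by omega), Nat.add_sub_cancel, show d + 2 - 2 * (i + 1) = d - 2 * i by omega, C_mul]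
      push_cast
      simp only [C_add, C_1, map_natCast]
      ring
    · intro i hi hi'
      rw [Finset.mem_range] at hi hi'
      rw [nxt, tr, if_neg (by omega)]
      simp
  · rw [gexp]
    have h2 : range (d / 2 + 1) ⊆ range ((d + 1) / 2 + 1) := by
      intro i hi
      rw [Finset.mem_range] at hi ⊢
      omega
    rw [← Finset.sum_subset h2]
    intro i hi hi'
    rw [Finset.mem_range] at hi hi'
    have e2 : (2 * ((d : ℤ) + 1) - 4 * i) = 0 := by
      have : (2 : ℤ) * i = d + 1 := by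
        have : 2 * i = d + 1 := by omega
        exact_mod_cast this
      linarith
    rw [e2]
    simp

theorem gexp_sum {ι : Type} (d : ℕ) (s : Finset ι) (f : ι → ℕ → ℤ) :
    ∑ x ∈ s, gexp d (f x) = gexp d (fun i => ∑ x ∈ s, f x i) := by
  classical
  induction s using Finset.induction_on with
  | empty =>
    rw [Finset.sum_empty, gexp]
    simp
  | insert x s hx ih =>
    rw [Finset.sum_insert hx, ih, ← gexp_add]
    congr 1
    funext i
    rw [Finset.sum_insert hx]

variable {k : Type} [Field k]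

/-- the gamma-numbers of the vertex links -/
theorem sum_links {n d : ℕ} {S : Finset (Finset (Fin n))} (hS : IsFlagSphere k (d + 1) S) {γ : ℕ → ℤ}
    (hγ : IsGamma (d + 1) S γ) {α : Fin n → ℕ → ℤ} (hα : ∀ v ∈ vert S, IsGamma d (link S {v}) (α v)) :
    ∀ i ≤ d / 2, ∑ v ∈ vert S, α v i = (i + 1) * nxt (d + 1) γ i + (2 * (d + 1) - 4 * i) * γ i := by
  have h1 := derivative_FP (H := skel S) (vert S)
  rw [FP_gexp hS hγ, der_gexp] at h1
  have h2 : ∑ u ∈ vert S, FP (skel S) (lk (skel S) (vert S) u) = gexp d (fun i => ∑ v ∈ vert S, α v i) := by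
    rw [← gexp_sum]
    exact Finset.sum_congr rfl (fun v hv => FP_link hS hv (hα v hv))
  rw [h2] at h1
  intro i hi
  exact (Pool.Agent.TH709.GG.exp_unique h1 i hi).symm

/-- **the mean over the vertex links** -/
theorem mean_links {n d j : ℕ} {a : ℕ → ℝ} (hT : TwoVert k d j a) {S : Finset (Finset (Fin n))}
    (hS : IsFlagSphere k (d + 1) S) {γ : ℕ → ℤ}
    (hγ : IsGamma (d + 1) S γ) {α : Fin n → ℕ → ℤ} (hα : ∀ v ∈ vert S, IsGamma d (link S {v}) (α v)) :
    ∑ v ∈ vert S, ell d j a (α v) ≤ numVert S * ell (d + 1) j a γ := by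
  obtain ⟨f, hf, hfn⟩ := exists_perm hS.np
  have h1 : ∀ v : {v // v ∈ vert S}, ell d j a (α v.1) + ell d j a (α (f v).1) ≤ 2 * ell (d + 1) j a γ := by
    intro v
    obtain ⟨h2, h3, h4⟩ := mem_nn.1 (hfn v)
    exact hT n S v.1 (f v).1 γ _ _ hS (mem_vert.1 v.2) (mem_vert.1 h2) (fun h => h4 ⟨h3.symm, h⟩) hγ
      (hα _ v.2) (hα _ h2)
  have h2 := Finset.sum_le_sum (s := (Finset.univ : Finset {v // v ∈ vert S})) (fun v _ => h1 v)
  rw [Finset.sum_add_distrib, hf.sum_comp (fun v : {v // v ∈ vert S} => ell d j a (α v.1)), Finset.sum_const,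
    Finset.card_univ, Fintype.card_coe, nsmul_eq_mul] at h2
  rw [numVert_eq]
  rw [← Finset.sum_coe_sort (vert S) (fun v => ell d j a (α v))]
  linarith

/-- the entries of the inequality -/
def ratio (d f : ℕ) (γ : ℕ → ℤ) (i : ℕ) : ℤ :=
  ((f : ℤ) - 2 * d + 4 * i) * γ i - (i + 1) * (if i + 1 ≤ d / 2 then γ (i + 1) else 0)

theorem mean_ineq {n d j : ℕ} {a : ℕ → ℝ} (hT : TwoVert k d j a) {S : Finset (Finset (Fin n))}
    (hS : IsFlagSphere k (d + 1) S) {γ : ℕ → ℤ} (hγ : IsGamma (d + 1) S γ) :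
    0 ≤ ∑ i ∈ range ((d + 1) / 2 + 1), a (i + j) * ratio (d + 1) (numVert S) γ i := by
  classical
  have hex : ∀ v : Fin n, ∃ α : ℕ → ℤ, v ∈ vert S → IsGamma d (link S {v}) α := by
    intro v
    by_cases hv : v ∈ vert S
    · obtain ⟨α, hα⟩ := exists_gamma_link hS hv
      exact ⟨α, fun _ => hα⟩
    · exact ⟨0, fun h => absurd h hv⟩
  choose α hα using hex
  have h1 := mean_links hT hS hγ hα
  have h2 : ∑ v ∈ vert S, ell d j a (α v) = ∑ i ∈ range ((d + 1) / 2 + 1),
      a (i + j) * (((i + 1) * nxt (d + 1) γ i + (2 * (d + 1) - 4 * i) * γ i : ℤ) : ℝ) := by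
    have h3 : range (d / 2 + 1) ⊆ range ((d + 1) / 2 + 1) := by
      intro i hi
      rw [Finset.mem_range] at hi ⊢
      omega
    rw [← Finset.sum_subset h3]
    · simp only [ell]
      rw [Finset.sum_comm]
      refine Finset.sum_congr rfl (fun i hi => ?_)
      rw [Finset.mem_range] at hi
      rw [← Finset.mul_sum, ← sum_links hS hγ hα i (by omega)]
      push_cast
      rfl
    · intro i hi hi'
      rw [Finset.mem_range] at hi hi'
      have e2 : (2 * ((d : ℤ) + 1) - 4 * i) = 0 := by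
        have : (2 : ℤ) * i = d + 1 := by
          have : 2 * i = d + 1 := by omega
          exact_mod_cast this
        linarith
      rw [e2, nxt, tr, if_neg (by omega)]
      simp
  rw [h2, ell, Finset.mul_sum, ← sub_nonneg, ← Finset.sum_sub_distrib] at h1
  refine h1.trans (le_of_eq (Finset.sum_congr rfl (fun i hi => ?_)))
  rw [ratio, nxt, tr]
  push_cast
  ring

end Pool.Agent.Q250.GL
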