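import Pool.Agent.Q250.GL.Mean

set_option autoImplicit false
set_option linter.unusedSectionVars false
set_option linter.unusedVariables false

/-!
# The ratio inequalities
-/

namespace Pool.Agent.Q250.GL

open Pool.Agent.W497.FS Finset Polynomial

variable {k : Type} [Field k] {n d : ℕ} {S : Finset (Finset (Fin n))}

theorem y_pow_zero (m : ℕ) : (y ^ m).coeff 0 = 1 := by
  rw [coeff_zero_eq_eval_zero, eval_pow, y]
  simp

theorem gamma_zero (hS : IsFlagSphere k d S) {γ : ℕ → ℤ} (hγ : IsGamma d S γ) : γ 0 = 1 := by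
  have h1 := congrArg (fun p => p.coeff 0) (FP_gexp hS hγ)
  rw [Pool.Agent.TH417.Gal.FP_coeff_zero, gexp, Finset.sum_range_succ', coeff_add, finsetSum_coeff,
    Finset.sum_eq_zero, zero_add] at h1
  · rw [h1, mul_coeff_zero, y_pow_zero]
    simp
  · intro i hi
    rw [mul_coeff_zero, mul_coeff_zero, coeff_zero_eq_eval_zero (w ^ (i + 1)), w]
    simp

theorem gamma_one (hS : IsFlagSphere k d S) (hd : 2 ≤ d) {γ : ℕ → ℤ} (hγ : IsGamma d S γ) :
    (numVert S : ℤ) = 2 * d + γ 1 := by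
  have h0 := gamma_zero hS hγ
  have h1 := congrArg (fun p => (derivative p).coeff 0) (FP_gexp hS hγ)
  obtain ⟨e, rfl⟩ := Nat.exists_eq_add_of_le hd
  rw [show 2 + e = (e + 1) + 1 by ring] at h1 ⊢
  rw [der_gexp, coeff_derivative, zero_add, Pool.Agent.TH417.Gal.FP_coeff_one, gexp, Finset.sum_range_succ', coeff_add,
    finsetSum_coeff, Finset.sum_eq_zero, zero_add, nxt, tr, if_pos (by omega)] at h1
  · rw [mul_coeff_zero, y_pow_zero] at h1
    rw [numVert_eq]
    simp [h0] at h1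
    push_cast at h1 ⊢
    linarith
  · intro i hi
    rw [mul_coeff_zero, mul_coeff_zero, coeff_zero_eq_eval_zero (w ^ (i + 1)), w]
    simp

theorem numVert_ge (hS : IsFlagSphere k d S) : 2 * d ≤ numVert S := by
  rw [numVert_eq]
  exact hS.np.two_mul_le

/-- Gal's inequality for the index `i` implies the ratio inequality for `i` -/
theorem ratio_of_gal {i : ℕ} (hi : i ≤ (d + 1) / 2)
    (h : ∀ (n : ℕ) (S : Finset (Finset (Fin n))) (γ : ℕ → ℤ), IsFlagSphere k (d + 1) S → IsGamma (d + 1) S γ → 0 ≤ γ i)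
    (hS : IsFlagSphere k (d + 1) S) {γ : ℕ → ℤ} (hγ : IsGamma (d + 1) S γ) :
    0 ≤ ratio (d + 1) (numVert S) γ i := by
  have hal : AlmostNonneg k (d + 1) 1 (fun l => if l = i then 1 else 0) := by
    intro ε hε
    refine ⟨0, fun n T γ hT hγ => ?_⟩
    have h1 : ell (d + 1) 0 (fun l => if l = i then (1 : ℝ) else 0) γ = γ i := by
      rw [ell, Finset.sum_eq_single i]
      · simp
      · intro b _ hb
        rw [if_neg (by simpa using hb), zero_mul]
      · intro h'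
        exact absurd (Finset.mem_range.2 (by omega)) h'
    rw [h1]
    have h2 : (0 : ℝ) ≤ γ i := by exact_mod_cast h n T γ hT hγ
    have h3 : 0 ≤ ε * (numVert T : ℝ) ^ 1 := by positivity
    linarith
  have h1 := mean_ineq (twoVert_of_almost (j := 0) hal) hS hγ
  rw [Finset.sum_eq_single i] at h1
  · simp only [add_zero, if_true, one_mul] at h1
    exact_mod_cast h1
  · intro b _ hb
    simp only [add_zero]
    rw [if_neg hb, zero_mul]
  · intro h'
    exact absurd (Finset.mem_range.2 (by omega)) h'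

/-- the ratio inequalities imply Gal's inequalities -/
theorem gal_of_ratio (hS : IsFlagSphere k (d + 1) S) {γ : ℕ → ℤ} (hγ : IsGamma (d + 1) S γ)
    (h : ∀ i ≤ (d + 1) / 2, 0 ≤ ratio (d + 1) (numVert S) γ i) : ∀ i ≤ (d + 1) / 2, 0 ≤ γ i := by
  have hf := numVert_ge hS
  have hf' : (0 : ℤ) ≤ (numVert S : ℤ) - 2 * ((d + 1 : ℕ) : ℤ) := by
    have : ((2 * (d + 1) : ℕ) : ℤ) ≤ numVert S := by exact_mod_cast hf
    push_cast at this ⊢
    linarith
  have key : ∀ m i, i ≤ (d + 1) / 2 → (d + 1) / 2 - i = m → 1 ≤ i → 0 ≤ γ i := by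
    intro m
    induction m with
    | zero =>
      intro i hi hm h1
      have h2 := h i hi
      rw [ratio, if_neg (by omega), mul_zero, sub_zero] at h2
      have h3 : (0 : ℤ) < (numVert S : ℤ) - 2 * ((d + 1 : ℕ) : ℤ) + 4 * i := by
        have : (1 : ℤ) ≤ i := by exact_mod_cast h1
        linarith
      exact (mul_nonneg_iff_of_pos_left h3).1 h2
    | succ m ih =>
      intro i hi hm h1
      have h2 := h i hi
      have h4 := ih (i + 1) (by omega) (by omega) (by omega)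
      rw [ratio, if_pos (by omega)] at h2
      have h3 : (0 : ℤ) < (numVert S : ℤ) - 2 * ((d + 1 : ℕ) : ℤ) + 4 * i := by
        have : (1 : ℤ) ≤ i := by exact_mod_cast h1
        linarith
      have h5 : 0 ≤ ((i : ℤ) + 1) * γ (i + 1) := by positivity
      exact (mul_nonneg_iff_of_pos_left h3).1 (by linarith)
  intro i hi
  rcases Nat.eq_zero_or_pos i with rfl | h1
  · rw [gamma_zero hS hγ]
    norm_num
  · exact key _ i hi rfl h1

/-- the weights of the known inequality -/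
noncomputable def wt (d : ℕ) : ℕ → ℝ := fun i => if i = 1 then 3 * ((d : ℝ) - 1) else if i = 2 then 4 else 0

theorem sum_wt {m : ℕ} (hm : 2 ≤ m) (d : ℕ) (f : ℕ → ℝ) :
    ∑ i ∈ range (m + 1), wt d i * f i = 3 * ((d : ℝ) - 1) * f 1 + 4 * f 2 := by
  obtain ⟨m, rfl⟩ := Nat.exists_eq_add_of_le hm
  rw [show 2 + m + 1 = ((m + 1) + 1) + 1 by ring, Finset.sum_range_succ', Finset.sum_range_succ', Finset.sum_range_succ',
    Finset.sum_eq_zero]
  · simp [wt]
    ring
  · intro i hi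
    rw [wt, if_neg (by omega), if_neg (by omega), zero_mul]

theorem two_wt (hd : 3 ≤ d) : TwoVert k d 0 (wt d) := by
  refine ((main k d (wt d)).2.out 1 2).1 ?_
  intro n S γ hS hγ
  have h1 := Pool.Agent.TH417.Gal.gamma_bound hS (by omega) hγ
  rw [ell]
  simp only [add_zero]
  rw [sum_wt (by omega)]
  have h2 : wt d 0 = 0 := by simp [wt]
  rw [h2]
  have h3 : (0 : ℝ) ≤ ((4 * γ 2 + 3 * (((d + 1 : ℕ) : ℤ) - 2) * γ 1 : ℤ) : ℝ) := by exact_mod_cast h1
  push_cast at h3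
  linarith

/-- **the improved lower bound for `γ₂`** -/
theorem gamma_two_improved (hd : 4 ≤ d) (hS : IsFlagSphere k (d + 1) S) {γ : ℕ → ℤ} (hγ : IsGamma (d + 1) S γ) :
    -(3 * ((d : ℤ) - 1) * ((numVert S : ℤ) - 2) * γ 1) ≤ (4 * (numVert S : ℤ) - 6) * γ 2 := by
  classical
  have hex : ∀ v : Fin n, ∃ α : ℕ → ℤ, v ∈ vert S → IsGamma d (link S {v}) α := by
    intro v
    by_cases hv : v ∈ vert S
    · obtain ⟨α, hα⟩ := exists_gamma_link hS hv
      exact ⟨α, fun _ => hα⟩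
    · exact ⟨0, fun h => absurd h hv⟩
  choose α hα using hex
  have h1 := mean_links (two_wt (k := k) (d := d) (by omega)) hS hγ hα
  have h2 : ∀ v ∈ vert S, 3 * (α v 1 : ℝ) ≤ ell d 0 (wt d) (α v) := by
    intro v hv
    rw [ell]
    simp only [add_zero]
    rw [sum_wt (by omega)]
    have h3 := Pool.Agent.TH417.Gal.gamma_bound (link_sphere hS hv) hd (hα v hv)
    have h4 : (0 : ℝ) ≤ ((4 * α v 2 + 3 * ((d : ℤ) - 2) * α v 1 : ℤ) : ℝ) := by exact_mod_cast h3
    push_cast at h4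
    linarith
  have h3 := Finset.sum_le_sum h2
  rw [← Finset.mul_sum] at h3
  have h4 := sum_links hS hγ hα 1 (by omega)
  rw [nxt, tr, if_pos (by omega)] at h4
  have h5 : (∑ v ∈ vert S, (α v 1 : ℝ)) = 2 * γ 2 + (2 * (d + 1) - 4) * γ 1 := by
    have h6 : ((∑ v ∈ vert S, α v 1 : ℤ) : ℝ) = (((((1 : ℕ) : ℤ) + 1) * γ (1 + 1) + (2 * ((d : ℤ) + 1) - 4 * ((1 : ℕ) : ℤ)) * γ 1 : ℤ) : ℝ) := by
      rw [h4]
    push_cast at h6
    rw [h6]
  rw [h5] at h3
  have h6 : ell (d + 1) 0 (wt d) γ = 3 * ((d : ℝ) - 1) * γ 1 + 4 * γ 2 := by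
    rw [ell]
    simp only [add_zero]
    rw [sum_wt (by omega)]
  rw [h6] at h1
  have h7 : -(3 * ((d : ℝ) - 1) * ((numVert S : ℝ) - 2) * γ 1) ≤ (4 * (numVert S : ℝ) - 6) * γ 2 := by
    nlinarith [h1, h3]
  exact_mod_cast h7

/-- **an upper bound for `γ₃`** -/
theorem gamma_three (hd : 5 ≤ d) (hS : IsFlagSphere k (d + 1) S) {γ : ℕ → ℤ} (hγ : IsGamma (d + 1) S γ) :
    12 * γ 3 ≤ 3 * ((d : ℤ) - 1) * ((γ 1 + 4) * γ 1 - 2 * γ 2) + 4 * (γ 1 + 8) * γ 2 := by
  have h1 := mean_ineq (two_wt (k := k) (d := d) (by omega)) hS hγ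
  simp only [add_zero] at h1
  rw [sum_wt (by omega), ratio, ratio, if_pos (by omega), if_pos (by omega), gamma_one hS (by omega) hγ] at h1
  have h2 : (0 : ℝ) ≤ ((3 * ((d : ℤ) - 1) * ((γ 1 + 4) * γ 1 - 2 * γ 2) + 4 * ((γ 1 + 8) * γ 2 - 3 * γ 3) : ℤ) : ℝ) := by
    push_cast at h1 ⊢
    norm_num at h1 ⊢
    nlinarith [h1]
  have h3 : (0 : ℤ) ≤ 3 * ((d : ℤ) - 1) * ((γ 1 + 4) * γ 1 - 2 * γ 2) + 4 * ((γ 1 + 8) * γ 2 - 3 * γ 3) := by
    exact_mod_cast h2
  linarith

end Pool.Agent.Q250.GL
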