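import Pool.Agent.Q250.GL.Dich

set_option autoImplicit false
set_option linter.unusedSectionVars false
set_option linter.unusedVariables false

/-!
# Linear functionals of the gamma-vector: the statements
-/

namespace Pool.Agent.Q250.GL

open Pool.Agent.W497.FS Finset Polynomial Filter Topology

/-- `∑ a (i + j) γ i` over `i ≤ d / 2` -/
noncomputable def ell (d j : ℕ) (a : ℕ → ℝ) (γ : ℕ → ℤ) : ℝ := ∑ i ∈ range (d / 2 + 1), a (i + j) * γ i

/-- for every `ε > 0` there is `C` such that `∑ a i γ i ≥ - ε f₀ ^ e - C` for all flag homology spheres of rank `D`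
(dimension `D - 1`) over `k`; here `γ` is the gamma-vector and `f₀` is the number of vertices -/
def AlmostNonneg (k : Type) [Field k] (D e : ℕ) (a : ℕ → ℝ) : Prop :=
  ∀ ε : ℝ, 0 < ε → ∃ C : ℝ, ∀ (n : ℕ) (S : Finset (Finset (Fin n))) (γ : ℕ → ℤ), IsFlagSphere k D S →
    IsGamma D S γ → -(ε * (numVert S : ℝ) ^ e) - C ≤ ell D 0 a γ

/-- `∑ a (i + j) γ i ≥ a j`, the value for the boundary of the cross-polytope, for all flag homology spheres of rank `d` -/
def CrossMin (k : Type) [Field k] (d j : ℕ) (a : ℕ → ℝ) : Prop :=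
  ∀ (n : ℕ) (S : Finset (Finset (Fin n))) (γ : ℕ → ℤ), IsFlagSphere k d S → IsGamma d S γ → a j ≤ ell d j a γ

/-- the two-vertex inequality for `∑ a (i + j) γ i` on the flag homology spheres of rank `d + 1`: twice the value at the
sphere is at least the sum of the values at the links of any two vertices which are not joined by an edge -/
def TwoVert (k : Type) [Field k] (d j : ℕ) (a : ℕ → ℝ) : Prop :=
  ∀ (n : ℕ) (S : Finset (Finset (Fin n))) (v u : Fin n) (γ α β : ℕ → ℤ), IsFlagSphere k (d + 1) S →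
    {v} ∈ S → {u} ∈ S → {v, u} ∉ S → IsGamma (d + 1) S γ → IsGamma d (link S {v}) α → IsGamma d (link S {u}) β →
    ell d j a α + ell d j a β ≤ 2 * ell (d + 1) j a γ

variable {k : Type} [Field k]

/-! ### Sequences and polynomials -/

noncomputable def gp (d : ℕ) (γ : ℕ → ℤ) : ℤ[X] := ∑ i ∈ range (d / 2 + 1), C (γ i) * X ^ i

theorem coeff_gp (d : ℕ) (γ : ℕ → ℤ) (i : ℕ) : (gp d γ).coeff i = tr d γ i := by
  rw [gp, finsetSum_coeff, tr]
  simp only [coeff_C_mul_X_pow]
  by_cases h : i ≤ d / 2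
  · rw [if_pos h, Finset.sum_eq_single i]
    · rw [if_pos rfl]
    · intro b _ hb
      rw [if_neg (Ne.symm hb)]
    · intro h'
      exact absurd (Finset.mem_range.2 (by omega)) h'
  · rw [if_neg h]
    refine Finset.sum_eq_zero (fun b hb => ?_)
    rw [Finset.mem_range] at hb
    rw [if_neg (by omega)]

theorem gexp_gp (d : ℕ) (γ : ℕ → ℤ) : gexp d (gp d γ).coeff = gexp d γ :=
  gexp_congr (fun i hi => by rw [coeff_gp, tr, if_pos hi])

theorem gp_deg (d : ℕ) (γ : ℕ → ℤ) : ∀ i, d / 2 < i → (gp d γ).coeff i = 0 := fun i hi => by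
  rw [coeff_gp, tr, if_neg (by omega)]

theorem ell_tr (d j : ℕ) (a : ℕ → ℝ) (γ : ℕ → ℤ) : ell (d + 1) j a (tr d γ) = ell d j a γ := by
  have h1 : Finset.range (d / 2 + 1) ⊆ Finset.range ((d + 1) / 2 + 1) := by
    intro i hi
    rw [Finset.mem_range] at hi ⊢
    omega
  rw [ell, ell, ← Finset.sum_subset h1]
  · refine Finset.sum_congr rfl (fun i hi => ?_)
    rw [Finset.mem_range] at hi
    rw [tr, if_pos (by omega)]
  · intro i hi hi'
    rw [Finset.mem_range] at hi hi'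
    rw [tr, if_neg (by omega)]
    simp

/-- the functional on polynomials -/
noncomputable def Lf (N : ℕ) (a : ℕ → ℝ) (P : ℤ[X]) : ℝ := ∑ i ∈ range N, a i * (P.coeff i : ℤ)

theorem Lf_add (N : ℕ) (a : ℕ → ℝ) (P Q : ℤ[X]) : Lf N a (P + Q) = Lf N a P + Lf N a Q := by
  rw [Lf, Lf, Lf, ← Finset.sum_add_distrib]
  refine Finset.sum_congr rfl (fun i _ => ?_)
  rw [coeff_add]
  push_cast
  ring

theorem Lf_C (N : ℕ) (a : ℕ → ℝ) (c : ℤ) (P : ℤ[X]) : Lf N a (C c * P) = c * Lf N a P := by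
  rw [Lf, Lf, Finset.mul_sum]
  refine Finset.sum_congr rfl (fun i _ => ?_)
  rw [coeff_C_mul]
  push_cast
  ring

theorem Lf_sum (N : ℕ) (a : ℕ → ℝ) {ι : Type} (s : Finset ι) (f : ι → ℤ[X]) :
    Lf N a (∑ i ∈ s, f i) = ∑ i ∈ s, Lf N a (f i) := by
  classical
  induction s using Finset.induction_on with
  | empty => simp [Lf]
  | insert x s hx ih => rw [Finset.sum_insert hx, Finset.sum_insert hx, Lf_add, ih]

theorem Lf_pow (N : ℕ) (a : ℕ → ℝ) (c : ℤ) (g B : ℤ[X]) (x : ℤ) (j : ℕ) :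
    Lf N a ((C x * g + B) * (1 + C c * X) ^ j) =
      ∑ l ∈ range (j + 1), (c : ℝ) ^ l * (j.choose l) * (x * Lf N a (g * X ^ l) + Lf N a (B * X ^ l)) := by
  rw [add_comm (1 : ℤ[X]), add_pow, Finset.mul_sum, Lf_sum]
  refine Finset.sum_congr rfl (fun l _ => ?_)
  have e : (C x * g + B) * ((C c * X) ^ l * 1 ^ (j - l) * (j.choose l : ℤ[X])) =
      C (c ^ l * (j.choose l : ℤ)) * (C x * (g * X ^ l) + B * X ^ l) := by
    rw [one_pow, C_mul, C_pow, mul_pow]
    have : (j.choose l : ℤ[X]) = C ((j.choose l : ℕ) : ℤ) := by simp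
    rw [this]
    ring
  rw [e, Lf_C, Lf_add, Lf_C]
  push_cast
  ring

theorem Lf_shift (M j : ℕ) (a : ℕ → ℝ) (g : ℤ[X]) :
    Lf (j + M) a (g * X ^ j) = ∑ i ∈ range M, a (i + j) * (g.coeff i : ℤ) := by
  rw [Lf, Finset.sum_range_add]
  have h0 : ∑ x ∈ range j, a x * (((g * X ^ j).coeff x : ℤ) : ℝ) = 0 := by
    refine Finset.sum_eq_zero (fun i hi => ?_)
    rw [Finset.mem_range] at hi
    rw [coeff_mul_X_pow', if_neg (by omega)]
    simp
  rw [h0, zero_add]
  refine Finset.sum_congr rfl (fun i _ => ?_)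
  rw [coeff_mul_X_pow', if_pos (by omega), Nat.add_sub_cancel_left, add_comm j i]

end Pool.Agent.Q250.GL
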